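import Pool.Agent.Lib.MP_1e8d1a_an.SB.Ds3a

/-! row sb-Ds3b -/

open scoped ContDiff Manifold Topology

namespace Pool.Agent.SC

variable {E : Type} [NormedAddCommGroup E] [NormedSpace ℝ E] {H : Type} [TopologicalSpace H]
  {I : ModelWithCorners ℝ E H} {W : Type} [TopologicalSpace W] [ChartedSpace H W]

/-- **Maps near a diffeomorphism in a family are diffeomorphisms.**
PROOF.  `ds_diffeo_id` for `Φ' (v, q) = F.symm (Φ (v, q))`; `D = D'.trans F`. -/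
theorem ds_diffeo [FiniteDimensional ℝ E] [T2Space W] [CompactSpace W] [IsManifold I ∞ W]
    [I.Boundaryless] {r : ℕ∞} (hr : 1 ≤ r) {P : Type} [NormedAddCommGroup P] [NormedSpace ℝ P]
    (Φ : P × W → W) (hΦ : ∀ q, ContMDiffAt (𝓘(ℝ, P).prod I) I r Φ (0, q)) (F : W ≃ₘ^r⟮I, I⟯ W)
    (h0 : ∀ q, Φ (0, q) = F q) :
    ∀ᶠ v in 𝓝 (0 : P), ContMDiff I I r (fun q => Φ (v, q)) →
      ∃ D : W ≃ₘ^r⟮I, I⟯ W, ∀ q, D q = Φ (v, q) := by
  have hle : (1 : WithTop ℕ∞) ≤ (r : WithTop ℕ∞) := by exact_mod_cast hr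
  have h1 : ∀ q, ContMDiffAt (𝓘(ℝ, P).prod I) I 1 (fun x => F.symm (Φ x)) (0, q) := by
    intro q
    have h2 : ContMDiffAt (𝓘(ℝ, P).prod I) I r (fun x => F.symm (Φ x)) (0, q) :=
      ContMDiffAt.comp (g := F.symm) (f := Φ) (0, q) (F.symm.contMDiff.contMDiffAt) (hΦ q)
    exact h2.of_le hle
  have h2 : ∀ q, F.symm (Φ (0, q)) = q := by
    intro q
    rw [h0, F.symm_apply_apply]
  filter_upwards [ds_diffeo_id (fun x => F.symm (Φ x)) h1 h2] with v hv hc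
  obtain ⟨D', hD'⟩ := hv r hr (F.symm.contMDiff.comp hc)
  refine ⟨D'.trans F, fun q => ?_⟩
  show F (D' q) = Φ (v, q)
  rw [hD', F.apply_symm_apply]

end Pool.Agent.SC
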