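import Pool.Agent.Lib.MP_1e8d1a_an.SB.Defs
import Pool.Agent.Lib.MP_1e8d1a_an.SC.Fam2

/-! row sb-Co1 -/

open scoped ContDiff Manifold Topology

namespace Pool.Agent.SC

variable {E : Type} [NormedAddCommGroup E] [NormedSpace ℝ E] {H : Type} [TopologicalSpace H]
  {I : ModelWithCorners ℝ E H} {W : Type} [TopologicalSpace W] [ChartedSpace H W]
  {E₁ : Type} [NormedAddCommGroup E₁] [NormedSpace ℝ E₁] {H₁ : Type} [TopologicalSpace H₁]
  {I₁ : ModelWithCorners ℝ E₁ H₁} {S : Type} [TopologicalSpace S] [ChartedSpace H₁ S]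

/-- The corrected family is smooth at `(0, q)`.
PROOF.  If `q ∉ tsupport θ` then `θ = 0` near `q` (`notMem_tsupport_iff_eventuallyEq`) and
`corr .. x = Φ x` for `x` near `(0, q)`.  Let `q ∈ tsupport θ`.  For `x` near `(0, q)` (`x.2 → q`,
`Φ x → Φ (0, q) = F q ∈ (extChartAt I c).source`, open) `corr .. x` equals the formula in the second
branch (if `θ x.2 = 0` then the formula is `e.symm (e (Φ x)) = Φ x`, `e = extChartAt I c`).  The
formula is smooth at `(0, q)`: `e` is `C^∞` at the points `F q`, `T (0, ρ q) = F (γ (ρ q))` and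
`Φ (0, γ (ρ q)) = F (γ (ρ q))` of its source (`contMDiffAt_extChartAt'`), `ρ` is `C^r` at `q`
(`tsupport θ ⊆ O`), and `e.symm` is smooth at `e (F q) + θ q • (e (F (γ (ρ q))) - e (F (γ (ρ q)))) =
e (F q)`, a point of the open set `e.target` (`contMDiffOn_extChartAt_symm`,
`isOpen_extChartAt_target`).  Model: `trans2_smooth` in `SC/Trans2.lean`. -/
theorem corr_smoothAt [T2Space W] [IsManifold I ∞ W] [I.Boundaryless] {r : ℕ∞} {P : Type}
    [NormedAddCommGroup P] [NormedSpace ℝ P] (F : W → W) (c : W) (θ : W → ℝ)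
    (hθ : ContMDiff I 𝓘(ℝ, ℝ) ∞ θ) (γ : S → W) (hγ : ContMDiff I₁ I r γ) (ρ : W → S) (O : Set W)
    (hρ : ∀ q ∈ O, ContMDiffAt I I₁ r ρ q) (hθO : tsupport θ ⊆ O) (T : P × S → W)
    (hT : ∀ z, ContMDiffAt (𝓘(ℝ, P).prod I₁) I r T (0, z)) (hT0 : ∀ z, T (0, z) = F (γ z))
    (Φ : P × W → W) (hΦ : ∀ q, ContMDiffAt (𝓘(ℝ, P).prod I) I r Φ (0, q))
    (hΦ0 : ∀ q, Φ (0, q) = F q) (h1 : ∀ q ∈ tsupport θ, F q ∈ (extChartAt I c).source)
    (h2 : ∀ q ∈ tsupport θ, F (γ (ρ q)) ∈ (extChartAt I c).source) (q : W) :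
    ContMDiffAt (𝓘(ℝ, P).prod I) I r (corr I c θ ρ γ T Φ) (0, q) := by
  have hri : ((r : ℕ∞) : WithTop ℕ∞) ≤ ∞ := by exact_mod_cast le_top
  by_cases hq : q ∈ tsupport θ
  · have hFq : F q ∈ (extChartAt I c).source := h1 q hq
    have hFg : F (γ (ρ q)) ∈ (extChartAt I c).source := h2 q hq
    have hev0 : ∀ᶠ x : P × W in 𝓝 (0, q), Φ x ∈ (extChartAt I c).source := by
      have hc : ContinuousAt Φ (0, q) := (hΦ q).continuousAt
      refine hc.eventually_mem ?_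
      rw [hΦ0]
      exact (isOpen_extChartAt_source (I := I) c).mem_nhds hFq
    have hev : corr I c θ ρ γ T Φ =ᶠ[𝓝 (0, q)] fun x : P × W =>
        (extChartAt I c).symm (extChartAt I c (Φ x) +
          θ x.2 • (extChartAt I c (T (x.1, ρ x.2)) - extChartAt I c (Φ (x.1, γ (ρ x.2))))) := by
      filter_upwards [hev0] with x hx
      unfold corr
      by_cases h : θ x.2 = 0
      · rw [if_pos h, h, zero_smul, add_zero, (extChartAt I c).left_inv hx]
      · rw [if_neg h]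
    refine ContMDiffAt.congr_of_eventuallyEq ?_ hev
    have hsnd : ContMDiffAt (𝓘(ℝ, P).prod I) I r (fun x : P × W => x.2) (0, q) :=
      contMDiffAt_snd
    have hfst : ContMDiffAt (𝓘(ℝ, P).prod I) 𝓘(ℝ, P) r (fun x : P × W => x.1) (0, q) :=
      contMDiffAt_fst
    have hext : ∀ y, y ∈ (extChartAt I c).source → ContMDiffAt I 𝓘(ℝ, E) r (extChartAt I c) y := by
      intro y hy
      have h3 : ContMDiffAt I 𝓘(ℝ, E) ∞ (extChartAt I c) y :=
        contMDiffAt_extChartAt' (by rwa [extChartAt_source] at hy)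
      exact h3.of_le hri
    have ha : ContMDiffAt (𝓘(ℝ, P).prod I) 𝓘(ℝ, E) r
        (fun x : P × W => extChartAt I c (Φ x)) (0, q) :=
      ContMDiffAt.comp_of_eq (hext (F q) hFq) (hΦ q) (hΦ0 q)
    have hb : ContMDiffAt (𝓘(ℝ, P).prod I) I₁ r (fun x : P × W => ρ x.2) (0, q) :=
      ContMDiffAt.comp_of_eq (g := ρ) (hρ q (hθO hq)) hsnd rfl
    have hTc : ContMDiffAt (𝓘(ℝ, P).prod I) I r (fun x : P × W => T (x.1, ρ x.2)) (0, q) :=
      ContMDiffAt.comp_of_eq (g := T) (hT (ρ q)) (hfst.prodMk hb) rfl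
    have hd : ContMDiffAt (𝓘(ℝ, P).prod I) 𝓘(ℝ, E) r
        (fun x : P × W => extChartAt I c (T (x.1, ρ x.2))) (0, q) :=
      ContMDiffAt.comp_of_eq (hext (F (γ (ρ q))) hFg) hTc (hT0 (ρ q))
    have hg1 : ContMDiffAt (𝓘(ℝ, P).prod I) I r (fun x : P × W => γ (ρ x.2)) (0, q) :=
      ContMDiffAt.comp_of_eq (g := γ) (hγ (ρ q)) hb rfl
    have hg2 : ContMDiffAt (𝓘(ℝ, P).prod I) I r (fun x : P × W => Φ (x.1, γ (ρ x.2))) (0, q) :=
      ContMDiffAt.comp_of_eq (g := Φ) (hΦ (γ (ρ q))) (hfst.prodMk hg1) rfl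
    have hg : ContMDiffAt (𝓘(ℝ, P).prod I) 𝓘(ℝ, E) r
        (fun x : P × W => extChartAt I c (Φ (x.1, γ (ρ x.2)))) (0, q) :=
      ContMDiffAt.comp_of_eq (hext (F (γ (ρ q))) hFg) hg2 (hΦ0 (γ (ρ q)))
    have hth : ContMDiffAt (𝓘(ℝ, P).prod I) 𝓘(ℝ, ℝ) r (fun x : P × W => θ x.2) (0, q) :=
      ContMDiffAt.comp_of_eq (g := θ) ((hθ q).of_le hri) hsnd rfl
    have hsum : ContMDiffAt (𝓘(ℝ, P).prod I) 𝓘(ℝ, E) r
        (fun x : P × W => extChartAt I c (Φ x) +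
          θ x.2 • (extChartAt I c (T (x.1, ρ x.2)) - extChartAt I c (Φ (x.1, γ (ρ x.2))))) (0, q) :=
      ha.add (hth.smul (hd.sub hg))
    have hsymm : ContMDiffAt 𝓘(ℝ, E) I r (extChartAt I c).symm (extChartAt I c (F q)) := by
      have h3 : ContMDiffAt 𝓘(ℝ, E) I ∞ (extChartAt I c).symm (extChartAt I c (F q)) :=
        (contMDiffOn_extChartAt_symm c).contMDiffAt
          ((isOpen_extChartAt_target c).mem_nhds ((extChartAt I c).map_source hFq))
      exact h3.of_le hri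
    refine ContMDiffAt.comp_of_eq hsymm hsum ?_
    show extChartAt I c (Φ (0, q)) + θ q • (extChartAt I c (T (0, ρ q)) -
      extChartAt I c (Φ (0, γ (ρ q)))) = extChartAt I c (F q)
    rw [hΦ0, hΦ0, hT0, sub_self, smul_zero, add_zero]
  · have h3 : θ =ᶠ[𝓝 q] 0 := notMem_tsupport_iff_eventuallyEq.mp hq
    have h4 : ∀ᶠ x : P × W in 𝓝 (0, q), θ x.2 = 0 := by
      have h5 : ContinuousAt (fun x : P × W => x.2) (0, q) := continuousAt_snd
      exact h5.eventually h3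
    have hev : corr I c θ ρ γ T Φ =ᶠ[𝓝 (0, q)] Φ := by
      filter_upwards [h4] with x hx
      unfold corr
      rw [if_pos hx]
    exact (hΦ q).congr_of_eventuallyEq hev

end Pool.Agent.SC
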