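import Pool.Agent.Lib.MP_1e8d1a_an.SB.Defs
import Pool.Agent.Lib.MP_1e8d1a_an.SC.Fam2

/-! row sb-Co2a -/

open scoped ContDiff Manifold Topology

namespace Pool.Agent.SC

variable {E : Type} [NormedAddCommGroup E] [NormedSpace ℝ E] {H : Type} [TopologicalSpace H]
  {I : ModelWithCorners ℝ E H} {W : Type} [TopologicalSpace W] [ChartedSpace H W]
  {E₁ : Type} [NormedAddCommGroup E₁] [NormedSpace ℝ E₁] {H₁ : Type} [TopologicalSpace H₁]
  {I₁ : ModelWithCorners ℝ E₁ H₁} {S : Type} [TopologicalSpace S] [ChartedSpace H₁ S]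

theorem Co2a_chart [IsManifold I ∞ W] (c : W) {r : ℕ∞} {E' : Type} [NormedAddCommGroup E']
    [NormedSpace ℝ E'] {H' : Type} [TopologicalSpace H'] {J : ModelWithCorners ℝ E' H'} {X : Type}
    [TopologicalSpace X] [ChartedSpace H' X] {f : X → W} {x : X} (hf : ContMDiffAt J I r f x)
    (hx : f x ∈ (extChartAt I c).source) :
    ContMDiffAt J 𝓘(ℝ, E) r (fun y => extChartAt I c (f y)) x := by
  have hr : ((r : ℕ∞) : WithTop ℕ∞) ≤ ∞ := by exact_mod_cast le_top
  have h1 : ContMDiffAt I 𝓘(ℝ, E) r (extChartAt I c) (f x) :=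
    (contMDiffAt_extChartAt' (n := ∞) (by rwa [extChartAt_source] at hx)).of_le hr
  exact ContMDiffAt.comp x h1 hf

theorem Co2a_cont [I.Boundaryless] (c : W) {X : Type} [TopologicalSpace X] {f : X → W} {x : X}
    (hf : ContinuousAt f x) (hx : f x ∈ (extChartAt I c).source) :
    ContinuousAt (fun y => extChartAt I c (f y)) x :=
  ContinuousAt.comp (g := extChartAt I c) (continuousAt_extChartAt' hx) hf

/-- The corrected map is of class `C^r` for every small parameter for which `T (v, ·)` and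
`Φ (v, ·)` are.
PROOF.  Let `e = extChartAt I c`, `K = tsupport θ`, compact (`W` compact).  By compactness of `K`
(`IsCompact.eventually_forall_of_forall_eventually`) and continuity at the points `(0, q)`, for all
small `v` and all `q ∈ K`: `Φ (v, q)`, `T (v, ρ q)`, `Φ (v, γ (ρ q))` are in `e.source` and
`e (Φ (v, q)) + θ q • (e (T (v, ρ q)) - e (Φ (v, γ (ρ q))))` is in `e.target` (at `v = 0` it is
`e (F q)`).  Fix such a `v` with `T (v, ·)`, `Φ (v, ·)` of class `C^r`.  At `q ∉ K` the map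
`corr (v, ·)` is `Φ (v, ·)` near `q`.  At `q ∈ K` it is given by the formula near `q` (`Φ (v, q') ∈
e.source` for `q'` near `q` by continuity) and the formula is a composition of maps of class `C^r`
at `q`. -/
theorem corr_eventually [T2Space W] [CompactSpace W] [IsManifold I ∞ W] [I.Boundaryless]
    {r : ℕ∞} {P : Type} [NormedAddCommGroup P] [NormedSpace ℝ P] (F : W → W) (c : W) (θ : W → ℝ)
    (hθ : ContMDiff I 𝓘(ℝ, ℝ) ∞ θ) (γ : S → W) (hγ : ContMDiff I₁ I r γ) (ρ : W → S) (O : Set W)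
    (hρ : ∀ q ∈ O, ContMDiffAt I I₁ r ρ q) (hθO : tsupport θ ⊆ O) (T : P × S → W)
    (hT : ∀ z, ContMDiffAt (𝓘(ℝ, P).prod I₁) I r T (0, z)) (hT0 : ∀ z, T (0, z) = F (γ z))
    (Φ : P × W → W) (hΦ : ∀ q, ContMDiffAt (𝓘(ℝ, P).prod I) I r Φ (0, q))
    (hΦ0 : ∀ q, Φ (0, q) = F q) (h1 : ∀ q ∈ tsupport θ, F q ∈ (extChartAt I c).source)
    (h2 : ∀ q ∈ tsupport θ, F (γ (ρ q)) ∈ (extChartAt I c).source) :
    ∀ᶠ v in 𝓝 (0 : P), ContMDiff I₁ I r (fun z => T (v, z)) →
      ContMDiff I I r (fun q => Φ (v, q)) →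
      ContMDiff I I r (fun q => corr I c θ ρ γ T Φ (v, q)) := by
  classical
  have hr : ((r : ℕ∞) : WithTop ℕ∞) ≤ ∞ := by exact_mod_cast le_top
  have hK : IsCompact (tsupport θ) := (isClosed_tsupport θ).isCompact
  have hso : IsOpen (extChartAt I c).source := isOpen_extChartAt_source c
  have hto : IsOpen (extChartAt I c).target := isOpen_extChartAt_target c
  have key : ∀ q ∈ tsupport θ, ∀ᶠ z : P × W in 𝓝 ((0 : P), q),
      Φ (z.1, z.2) ∈ (extChartAt I c).source ∧ T (z.1, ρ z.2) ∈ (extChartAt I c).source ∧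
      Φ (z.1, γ (ρ z.2)) ∈ (extChartAt I c).source ∧
      extChartAt I c (Φ (z.1, z.2)) + θ z.2 • (extChartAt I c (T (z.1, ρ z.2)) -
        extChartAt I c (Φ (z.1, γ (ρ z.2)))) ∈ (extChartAt I c).target := by
    intro q hq
    have hρq : ContinuousAt (fun z : P × W => ρ z.2) ((0 : P), q) :=
      ContinuousAt.comp (x := ((0 : P), q)) (f := fun z : P × W => z.2) (g := ρ)
        (hρ q (hθO hq)).continuousAt continuousAt_snd
    have ha : ContinuousAt (fun z : P × W => Φ (z.1, z.2)) ((0 : P), q) := (hΦ q).continuousAt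
    have hb : ContinuousAt (fun z : P × W => T (z.1, ρ z.2)) ((0 : P), q) :=
      ContinuousAt.comp (x := ((0 : P), q)) (f := fun z : P × W => (z.1, ρ z.2)) (g := T)
        (hT (ρ q)).continuousAt (continuousAt_fst.prodMk hρq)
    have hc : ContinuousAt (fun z : P × W => Φ (z.1, γ (ρ z.2))) ((0 : P), q) := by
      have hc1 : ContinuousAt (fun z : P × W => γ (ρ z.2)) ((0 : P), q) :=
        ContinuousAt.comp (x := ((0 : P), q)) (f := fun z : P × W => ρ z.2) (g := γ)
          (hγ (ρ q)).continuousAt hρq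
      exact ContinuousAt.comp (x := ((0 : P), q)) (f := fun z : P × W => (z.1, γ (ρ z.2))) (g := Φ)
        (hΦ (γ (ρ q))).continuousAt (continuousAt_fst.prodMk hc1)
    have ha0 : Φ ((0 : P), q) ∈ (extChartAt I c).source := by
      rw [hΦ0]
      exact h1 q hq
    have hb0 : T ((0 : P), ρ q) ∈ (extChartAt I c).source := by
      rw [hT0]
      exact h2 q hq
    have hc0 : Φ ((0 : P), γ (ρ q)) ∈ (extChartAt I c).source := by
      rw [hΦ0]
      exact h2 q hq
    have ha1 := Co2a_cont (I := I) c ha ha0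
    have hb1 := Co2a_cont (I := I) c hb hb0
    have hc1 := Co2a_cont (I := I) c hc hc0
    have hth : ContinuousAt (fun z : P × W => θ z.2) ((0 : P), q) :=
      (hθ.continuous.comp continuous_snd).continuousAt
    have hd := ha1.add (hth.smul (hb1.sub hc1))
    have hd0 : extChartAt I c (Φ ((0 : P), q)) + θ q • (extChartAt I c (T ((0 : P), ρ q)) -
        extChartAt I c (Φ ((0 : P), γ (ρ q)))) ∈ (extChartAt I c).target := by
      rw [hT0, hΦ0, hΦ0, sub_self, smul_zero, add_zero]
      exact (extChartAt I c).map_source (h1 q hq)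
    filter_upwards [ha.eventually_mem (hso.mem_nhds ha0), hb.eventually_mem (hso.mem_nhds hb0),
      hc.eventually_mem (hso.mem_nhds hc0), hd.eventually_mem (hto.mem_nhds hd0)]
      with z hz1 hz2 hz3 hz4
    exact ⟨hz1, hz2, hz3, hz4⟩
  have h := hK.eventually_forall_of_forall_eventually (P := fun v q =>
      Φ (v, q) ∈ (extChartAt I c).source ∧ T (v, ρ q) ∈ (extChartAt I c).source ∧
      Φ (v, γ (ρ q)) ∈ (extChartAt I c).source ∧
      extChartAt I c (Φ (v, q)) + θ q • (extChartAt I c (T (v, ρ q)) -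
        extChartAt I c (Φ (v, γ (ρ q)))) ∈ (extChartAt I c).target) key
  filter_upwards [h] with v hv hTv hΦv q
  by_cases hq : q ∈ tsupport θ
  · obtain ⟨g1, g2, g3, g4⟩ := hv q hq
    have hρq := hρ q (hθO hq)
    have hΦc : ContinuousAt (fun q' => Φ (v, q')) q := (hΦv q).continuousAt
    have hev : (fun q' => corr I c θ ρ γ T Φ (v, q')) =ᶠ[𝓝 q] fun q' =>
        (extChartAt I c).symm (extChartAt I c (Φ (v, q')) + θ q' • (extChartAt I c (T (v, ρ q')) -
          extChartAt I c (Φ (v, γ (ρ q'))))) := by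
      filter_upwards [hΦc.eventually_mem (hso.mem_nhds g1)] with q' hq'
      unfold corr
      by_cases h0 : θ q' = 0
      · rw [if_pos h0]
        simp only [h0, zero_smul, add_zero]
        exact ((extChartAt I c).left_inv hq').symm
      · rw [if_neg h0]
    refine ContMDiffAt.congr_of_eventuallyEq ?_ hev
    have k1 : ContMDiffAt I 𝓘(ℝ, E) r (fun q' => extChartAt I c (Φ (v, q'))) q :=
      Co2a_chart c (hΦv q) g1
    have k2 : ContMDiffAt I 𝓘(ℝ, E) r (fun q' => extChartAt I c (T (v, ρ q'))) q := by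
      have k3 : ContMDiffAt I I r (fun q' => T (v, ρ q')) q :=
        ContMDiffAt.comp (g := fun z => T (v, z)) q (hTv (ρ q)) hρq
      exact Co2a_chart c k3 g2
    have k4 : ContMDiffAt I 𝓘(ℝ, E) r (fun q' => extChartAt I c (Φ (v, γ (ρ q')))) q := by
      have k5 : ContMDiffAt I I r (fun q' => γ (ρ q')) q :=
        ContMDiffAt.comp (g := γ) q (hγ (ρ q)) hρq
      have k6 : ContMDiffAt I I r (fun q' => Φ (v, γ (ρ q'))) q :=
        ContMDiffAt.comp (g := fun z => Φ (v, z)) q (hΦv (γ (ρ q))) k5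
      exact Co2a_chart c k6 g3
    have k7 : ContMDiffAt I 𝓘(ℝ, ℝ) r θ q := (hθ q).of_le hr
    have k8 := k1.add (k7.smul (k2.sub k4))
    have k9 : ContMDiffAt 𝓘(ℝ, E) I r (extChartAt I c).symm
        (extChartAt I c (Φ (v, q)) + θ q • (extChartAt I c (T (v, ρ q)) -
          extChartAt I c (Φ (v, γ (ρ q))))) :=
      ((contMDiffOn_extChartAt_symm (n := ∞) c).contMDiffAt (hto.mem_nhds g4)).of_le hr
    exact ContMDiffAt.comp q k9 k8
  · have hev : (fun q' => corr I c θ ρ γ T Φ (v, q')) =ᶠ[𝓝 q] fun q' => Φ (v, q') := by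
      filter_upwards [notMem_tsupport_iff_eventuallyEq.1 hq] with q' hq'
      have h0 : θ q' = 0 := hq'
      unfold corr
      rw [if_pos h0]
    exact ContMDiffAt.congr_of_eventuallyEq (hΦv q) hev

end Pool.Agent.SC
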