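import Pool.Agent.Lib.MP_1e8d1a_an.SB.Defs
import Pool.Agent.Lib.MP_1e8d1a_an.SC.Fam2

/-! row sb-Co2b -/

open scoped ContDiff Manifold Topology

namespace Pool.Agent.SC

variable {E : Type} [NormedAddCommGroup E] [NormedSpace ℝ E] {H : Type} [TopologicalSpace H]
  {I : ModelWithCorners ℝ E H} {W : Type} [TopologicalSpace W] [ChartedSpace H W]
  {E₁ : Type} [NormedAddCommGroup E₁] [NormedSpace ℝ E₁] {H₁ : Type} [TopologicalSpace H₁]
  {I₁ : ModelWithCorners ℝ E₁ H₁} {S : Type} [TopologicalSpace S] [ChartedSpace H₁ S]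

/-- On the submanifold the correction replaces `Φ` by `T` where `θ = 1`, and changes nothing where
`Φ = T` already.
PROOF.  `A = {z | θ (γ z) ≠ 0}` has compact closure in `K₁ = γ ⁻¹' (tsupport θ)` (compact, `S`
compact).  For small `v` and all `z ∈ K₁`: `Φ (v, γ z)` and `T (v, z)` are in `e.source` (at `v = 0`
both are `F (γ z)`, `h1`).  Since `ρ (γ z) = z`, for `θ (γ z) ≠ 0` the point `corr (v, γ z)` is
`e.symm (e a + θ • (e b - e a))`, `a = Φ (v, γ z)`, `b = T (v, z)`; it is `b` if `θ = 1` or `a = b`. -/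
theorem corr_on [CompactSpace S] [IsManifold I ∞ W] [I.Boundaryless] {r : ℕ∞} {P : Type}
    [NormedAddCommGroup P] [NormedSpace ℝ P] (F : W → W) (c : W) (θ : W → ℝ) (γ : S → W)
    (hγ : ContMDiff I₁ I r γ) (ρ : W → S) (hργ : ∀ z, ρ (γ z) = z) (T : P × S → W)
    (hT : ∀ z, ContMDiffAt (𝓘(ℝ, P).prod I₁) I r T (0, z)) (hT0 : ∀ z, T (0, z) = F (γ z))
    (Φ : P × W → W) (hΦ : ∀ q, ContMDiffAt (𝓘(ℝ, P).prod I) I r Φ (0, q))
    (hΦ0 : ∀ q, Φ (0, q) = F q) (h1 : ∀ q ∈ tsupport θ, F q ∈ (extChartAt I c).source) :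
    ∀ᶠ v in 𝓝 (0 : P), (∀ z, Φ (v, γ z) = T (v, z) → corr I c θ ρ γ T Φ (v, γ z) = T (v, z)) ∧
      ∀ z, θ (γ z) = 1 → corr I c θ ρ γ T Φ (v, γ z) = T (v, z) := by
  have hK : IsCompact (γ ⁻¹' (tsupport θ)) :=
    ((isClosed_tsupport θ).preimage hγ.continuous).isCompact
  have key : ∀ᶠ v in 𝓝 (0 : P), ∀ z ∈ γ ⁻¹' (tsupport θ),
      Φ (v, γ z) ∈ (extChartAt I c).source ∧ T (v, z) ∈ (extChartAt I c).source := by
    refine hK.eventually_forall_of_forall_eventually
      (P := fun v z => Φ (v, γ z) ∈ (extChartAt I c).source ∧ T (v, z) ∈ (extChartAt I c).source) ?_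
    intro z hz
    have hs : (extChartAt I c).source ∈ 𝓝 (F (γ z)) :=
      (isOpen_extChartAt_source c).mem_nhds (h1 _ hz)
    have hc1 : ContinuousAt (fun x : P × S => Φ (x.1, γ x.2)) (0, z) := by
      have h2 : ContinuousAt (fun x : P × S => ((x.1, γ x.2) : P × W)) (0, z) :=
        (continuous_fst.prodMk (hγ.continuous.comp continuous_snd)).continuousAt
      exact ContinuousAt.comp (f := fun x : P × S => ((x.1, γ x.2) : P × W)) (g := Φ)
        (hΦ (γ z)).continuousAt h2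
    have hc2 : ContinuousAt T (0, z) := (hT z).continuousAt
    have e1 : ∀ᶠ x : P × S in 𝓝 (0, z), Φ (x.1, γ x.2) ∈ (extChartAt I c).source :=
      hc1.eventually_mem (by show (extChartAt I c).source ∈ 𝓝 (Φ (0, γ z)); rw [hΦ0]; exact hs)
    have e2 : ∀ᶠ x : P × S in 𝓝 (0, z), T x ∈ (extChartAt I c).source :=
      hc2.eventually_mem (by rw [hT0]; exact hs)
    exact e1.and e2
  filter_upwards [key] with v hv
  have hcorr : ∀ z, θ (γ z) ≠ 0 → corr I c θ ρ γ T Φ (v, γ z) =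
      (extChartAt I c).symm (extChartAt I c (Φ (v, γ z)) +
        θ (γ z) • (extChartAt I c (T (v, z)) - extChartAt I c (Φ (v, γ z)))) := by
    intro z hz
    unfold corr
    rw [if_neg hz]
    show (extChartAt I c).symm (extChartAt I c (Φ (v, γ z)) +
      θ (γ z) • (extChartAt I c (T (v, ρ (γ z))) - extChartAt I c (Φ (v, γ (ρ (γ z)))))) = _
    rw [hργ]
  refine ⟨fun z hz => ?_, fun z hz => ?_⟩
  · by_cases h0 : θ (γ z) = 0
    · unfold corr
      rw [if_pos h0]
      exact hz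
    · rw [hcorr z h0, hz, sub_self, smul_zero, add_zero]
      exact (extChartAt I c).left_inv (hv z (subset_tsupport θ h0)).2
  · have h0 : θ (γ z) ≠ 0 := by rw [hz]; exact one_ne_zero
    rw [hcorr z h0, hz, one_smul, add_sub_cancel]
    exact (extChartAt I c).left_inv (hv z (subset_tsupport θ h0)).2

end Pool.Agent.SC
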