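import Mathlib

/-! row sb-Co3a -/

open scoped ContDiff Manifold Topology

namespace Pool.Agent.SC

variable {E : Type} [NormedAddCommGroup E] [NormedSpace ℝ E] {H : Type} [TopologicalSpace H]
  {I : ModelWithCorners ℝ E H} {W : Type} [TopologicalSpace W] [ChartedSpace H W]
  {E₁ : Type} [NormedAddCommGroup E₁] [NormedSpace ℝ E₁] {H₁ : Type} [TopologicalSpace H₁]
  {I₁ : ModelWithCorners ℝ E₁ H₁} {S : Type} [TopologicalSpace S] [ChartedSpace H₁ S]

/-- A cut-off function, `1` near `p`, supported in the open set `O`.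
PROOF.  `SmoothBumpFunction`: `SmoothBumpFunction.nhds_basis_tsupport` (or
`nhds_basis_support`) at `p` gives a bump function `f` with `tsupport f ⊆ O`; `f.contMDiff`,
`f.eventuallyEq_one`. -/
theorem exists_cut [FiniteDimensional ℝ E] [T2Space W] [IsManifold I ∞ W] [I.Boundaryless]
    (p : W) (O : Set W) (hO : IsOpen O) (hp : p ∈ O) :
    ∃ θ : W → ℝ, ContMDiff I 𝓘(ℝ, ℝ) ∞ θ ∧ tsupport θ ⊆ O ∧ ∀ᶠ q in 𝓝 p, θ q = 1 := by
  obtain ⟨f, -, hf⟩ := (SmoothBumpFunction.nhds_basis_tsupport (I := I) p).mem_iff.1 (hO.mem_nhds hp)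
  exact ⟨f, f.contMDiff, hf, f.eventuallyEq_one⟩

end Pool.Agent.SC
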