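import Pool.Agent.Lib.MP_1e8d1a_an.SB.Co1
import Pool.Agent.Lib.MP_1e8d1a_an.SB.Co2a
import Pool.Agent.Lib.MP_1e8d1a_an.SB.Co2b
import Pool.Agent.Lib.MP_1e8d1a_an.SB.Co3a

/-! row sb-Co3b -/

open scoped ContDiff Manifold Topology

namespace Pool.Agent.SC

variable {E : Type} [NormedAddCommGroup E] [NormedSpace ℝ E] {H : Type} [TopologicalSpace H]
  {I : ModelWithCorners ℝ E H} {W : Type} [TopologicalSpace W] [ChartedSpace H W]
  {E₁ : Type} [NormedAddCommGroup E₁] [NormedSpace ℝ E₁] {H₁ : Type} [TopologicalSpace H₁]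
  {I₁ : ModelWithCorners ℝ E₁ H₁} {S : Type} [TopologicalSpace S] [ChartedSpace H₁ S]

/-- One step.
PROOF.  Let `p = γ z₀`, `c = F p`, `O, ρ` from the embedding.  The set
`O₁ = O ∩ O' ∩ F ⁻¹' e.source ∩ {q | F (γ (ρ q)) ∈ e.source}`, `e = extChartAt I c`, is a
neighbourhood of `p` (`ρ p = z₀`, `ρ` continuous at `p`); take `θ` from `exists_cut` for its
interior, `A = {z | θ (γ z) = 1}`, a neighbourhood of `z₀`.  For `Φ` put
`Φ' = corr I c θ ρ γ T Φ`; `sm`: `corr_smoothAt`; `zero`: `T (0, ρ q) = F (γ (ρ q)) = Φ (0, γ (ρ q))`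
so the correction is `0` and `e.symm (e (F q)) = F q` for `θ q ≠ 0` (then `q ∈ tsupport θ`);
`out`: `q ∉ O'` gives `θ q = 0`; `ev`: `corr_eventually`; the rest: `corr_on`. -/
theorem ext_step [FiniteDimensional ℝ E] [T2Space W] [CompactSpace W] [IsManifold I ∞ W]
    [I.Boundaryless] [CompactSpace S] {r : ℕ∞} {P : Type} [NormedAddCommGroup P]
    [NormedSpace ℝ P] (γ : S → W) (hγ : CrEmbedding I₁ I r γ) (F : W ≃ₘ^r⟮I, I⟯ W) (O' : Set W)
    (hO' : IsOpen O') (hγO' : ∀ z, γ z ∈ O') (T : P × S → W)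
    (hT : ∀ z, ContMDiffAt (𝓘(ℝ, P).prod I₁) I r T (0, z)) (hT0 : ∀ z, T (0, z) = F (γ z))
    (z₀ : S) : ∃ A ∈ 𝓝 z₀, ∀ Φ : P × W → W, ExtFam I₁ I r (F : W → W) O' T Φ →
      ∃ Φ' : P × W → W, ExtFam I₁ I r (F : W → W) O' T Φ' ∧
        ∀ᶠ v in 𝓝 (0 : P), (∀ z, Φ (v, γ z) = T (v, z) → Φ' (v, γ z) = T (v, z)) ∧
          ∀ z ∈ A, Φ' (v, γ z) = T (v, z) := by
  obtain ⟨hγs, O, ρ, hO, hγO, hρ, hργ⟩ := hγ
  set c : W := F (γ z₀) with hc
  have hso : IsOpen (extChartAt I c).source := isOpen_extChartAt_source c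
  have hcs : c ∈ (extChartAt I c).source := mem_extChartAt_source c
  have hn1 : {q : W | F q ∈ (extChartAt I c).source} ∈ 𝓝 (γ z₀) :=
    F.contMDiff.continuous.continuousAt.preimage_mem_nhds (hso.mem_nhds hcs)
  have hρc : ContinuousAt ρ (γ z₀) := (hρ _ (hγO z₀)).continuousAt
  have hn2 : {q : W | F (γ (ρ q)) ∈ (extChartAt I c).source} ∈ 𝓝 (γ z₀) := by
    have h1 : ContinuousAt (fun q : W => F (γ (ρ q))) (γ z₀) :=
      ContinuousAt.comp (g := fun z : S => F (γ z)) (F.contMDiff.continuous.comp hγs.continuous).continuousAt hρc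
    refine h1.preimage_mem_nhds ?_
    show (extChartAt I c).source ∈ 𝓝 (F (γ (ρ (γ z₀))))
    rw [hργ]
    exact hso.mem_nhds hcs
  have hO₁ : (O ∩ O') ∩ ({q : W | F q ∈ (extChartAt I c).source} ∩
      {q : W | F (γ (ρ q)) ∈ (extChartAt I c).source}) ∈ 𝓝 (γ z₀) :=
    Filter.inter_mem (Filter.inter_mem (hO.mem_nhds (hγO z₀)) (hO'.mem_nhds (hγO' z₀)))
      (Filter.inter_mem hn1 hn2)
  obtain ⟨θ, hθ, hθs, hθ1⟩ := exists_cut (I := I) (γ z₀) _ isOpen_interior (mem_interior_iff_mem_nhds.2 hO₁)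
  have hsub : ∀ q ∈ tsupport θ, (q ∈ O ∧ q ∈ O') ∧ F q ∈ (extChartAt I c).source ∧
      F (γ (ρ q)) ∈ (extChartAt I c).source := by
    intro q hq
    have h3 := interior_subset (hθs hq)
    exact ⟨h3.1, h3.2⟩
  have hθO : tsupport θ ⊆ O := fun q hq => (hsub q hq).1.1
  have h1 : ∀ q ∈ tsupport θ, (F : W → W) q ∈ (extChartAt I c).source := fun q hq => (hsub q hq).2.1
  have h2 : ∀ q ∈ tsupport θ, (F : W → W) (γ (ρ q)) ∈ (extChartAt I c).source :=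
    fun q hq => (hsub q hq).2.2
  refine ⟨{z | θ (γ z) = 1}, (hγs.continuous.tendsto z₀).eventually hθ1, fun Φ hΦ => ?_⟩
  refine ⟨corr I c θ ρ γ T Φ, ⟨?_, ?_, ?_, ?_⟩, ?_⟩
  · exact corr_smoothAt (F : W → W) c θ hθ γ hγs ρ O hρ hθO T hT hT0 Φ hΦ.sm hΦ.zero h1 h2
  · intro q
    by_cases h0 : θ q = 0
    · show corr I c θ ρ γ T Φ (0, q) = F q
      unfold corr
      rw [if_pos h0]
      exact hΦ.zero q
    · have hq : q ∈ tsupport θ := subset_tsupport θ h0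
      show corr I c θ ρ γ T Φ (0, q) = F q
      unfold corr
      rw [if_neg h0]
      show (extChartAt I c).symm (extChartAt I c (Φ (0, q)) +
        θ q • (extChartAt I c (T (0, ρ q)) - extChartAt I c (Φ (0, γ (ρ q))))) = F q
      rw [hΦ.zero, hΦ.zero, hT0, sub_self, smul_zero, add_zero]
      exact (extChartAt I c).left_inv (h1 q hq)
  · intro v q hq
    have h0 : θ q = 0 := image_eq_zero_of_notMem_tsupport fun h => hq (hsub q h).1.2
    show corr I c θ ρ γ T Φ (v, q) = F q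
    unfold corr
    rw [if_pos h0]
    exact hΦ.out v q hq
  · filter_upwards [hΦ.ev, corr_eventually (F : W → W) c θ hθ γ hγs ρ O hρ hθO T hT hT0 Φ hΦ.sm hΦ.zero h1 h2]
      with v hv1 hv2 hTv
    exact hv2 hTv (hv1 hTv)
  · exact corr_on (F : W → W) c θ γ hγs ρ hργ T hT hT0 Φ hΦ.sm hΦ.zero h1

end Pool.Agent.SC
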