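import Pool.Agent.Lib.MP_1e8d1a_an.SB.Co3b

/-! row sb-Co3c -/

open scoped ContDiff Manifold Topology

namespace Pool.Agent.SC

variable {E : Type} [NormedAddCommGroup E] [NormedSpace ℝ E] {H : Type} [TopologicalSpace H]
  {I : ModelWithCorners ℝ E H} {W : Type} [TopologicalSpace W] [ChartedSpace H W]
  {E₁ : Type} [NormedAddCommGroup E₁] [NormedSpace ℝ E₁] {H₁ : Type} [TopologicalSpace H₁]
  {I₁ : ModelWithCorners ℝ E₁ H₁} {S : Type} [TopologicalSpace S] [ChartedSpace H₁ S]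

/-- **Extension of families.**
PROOF.  `IsCompact.induction_on isCompact_univ` for the property of a set `A ⊆ S`:
`∀ Φ, ExtFam .. Φ → ∃ Φ', ExtFam .. Φ' ∧ ∀ᶠ v in 𝓝 0, (∀ z, Φ (v, γ z) = T (v, z) → Φ' (v, γ z) =
T (v, z)) ∧ ∀ z ∈ A, Φ' (v, γ z) = T (v, z)`: empty set: `Φ' = Φ`; monotone: clear; union: apply the
property of the first set and then that of the second; local: `ext_step`.  Start with
`Φ (v, q) = F q` (`ExtFam` is clear). -/
theorem exists_extension [FiniteDimensional ℝ E] [T2Space W] [CompactSpace W] [IsManifold I ∞ W]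
    [I.Boundaryless] [CompactSpace S] {r : ℕ∞} {P : Type} [NormedAddCommGroup P]
    [NormedSpace ℝ P] (γ : S → W) (hγ : CrEmbedding I₁ I r γ) (F : W ≃ₘ^r⟮I, I⟯ W) (O' : Set W)
    (hO' : IsOpen O') (hγO' : ∀ z, γ z ∈ O') (T : P × S → W)
    (hT : ∀ z, ContMDiffAt (𝓘(ℝ, P).prod I₁) I r T (0, z)) (hT0 : ∀ z, T (0, z) = F (γ z)) :
    ∃ Φ : P × W → W, ExtFam I₁ I r (F : W → W) O' T Φ ∧
      ∀ᶠ v in 𝓝 (0 : P), ∀ z, Φ (v, γ z) = T (v, z) := by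
  have key : ∀ Φ : P × W → W, ExtFam I₁ I r (F : W → W) O' T Φ →
      ∃ Φ' : P × W → W, ExtFam I₁ I r (F : W → W) O' T Φ' ∧
        ∀ᶠ v in 𝓝 (0 : P), (∀ z, Φ (v, γ z) = T (v, z) → Φ' (v, γ z) = T (v, z)) ∧
          ∀ z ∈ (Set.univ : Set S), Φ' (v, γ z) = T (v, z) := by
    refine IsCompact.induction_on (s := (Set.univ : Set S)) isCompact_univ
      (p := fun A => ∀ Φ : P × W → W, ExtFam I₁ I r (F : W → W) O' T Φ →
        ∃ Φ' : P × W → W, ExtFam I₁ I r (F : W → W) O' T Φ' ∧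
          ∀ᶠ v in 𝓝 (0 : P), (∀ z, Φ (v, γ z) = T (v, z) → Φ' (v, γ z) = T (v, z)) ∧
            ∀ z ∈ A, Φ' (v, γ z) = T (v, z)) ?_ ?_ ?_ ?_
    · intro Φ hΦ
      refine ⟨Φ, hΦ, Filter.Eventually.of_forall fun v => ⟨fun z hz => hz, ?_⟩⟩
      intro z hz
      exact absurd hz (Set.notMem_empty z)
    · intro A B hAB hB Φ hΦ
      obtain ⟨Φ', h1, h2⟩ := hB Φ hΦ
      exact ⟨Φ', h1, h2.mono fun v hv => ⟨hv.1, fun z hz => hv.2 z (hAB hz)⟩⟩
    · intro A B hA hB Φ hΦ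
      obtain ⟨Φ₁, h1, h2⟩ := hA Φ hΦ
      obtain ⟨Φ₂, h3, h4⟩ := hB Φ₁ h1
      refine ⟨Φ₂, h3, ?_⟩
      filter_upwards [h2, h4] with v hv hw
      refine ⟨fun z hz => hw.1 z (hv.1 z hz), ?_⟩
      rintro z (hz | hz)
      · exact hw.1 z (hv.2 z hz)
      · exact hw.2 z hz
    · intro z₀ _
      obtain ⟨A, hA, h1⟩ := ext_step γ hγ F O' hO' hγO' T hT hT0 z₀
      exact ⟨A, mem_nhdsWithin_of_mem_nhds hA, h1⟩
  obtain ⟨Φ, h1, h2⟩ := key (fun x => F x.2)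
    { sm := fun q => (F.contMDiff q).comp (0, q) contMDiffAt_snd
      zero := fun q => rfl
      out := fun v q _ => rfl
      ev := Filter.Eventually.of_forall fun v _ => F.contMDiff }
  exact ⟨Φ, h1, h2.mono fun v hv z => hv.2 z (Set.mem_univ z)⟩

end Pool.Agent.SC
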