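import Pool.Agent.Lib.MP_1e8d1a_an.IR.Defs
import Pool.Agent.Lib.MP_1e8d1a_an.SC.Defs

/-! Embedded and periodic submanifolds, extension of families. -/

open scoped ContDiff Manifold Topology

namespace Pool.Agent.SC

variable {E : Type} [NormedAddCommGroup E] [NormedSpace ℝ E] {H : Type} [TopologicalSpace H]
  {W : Type} [TopologicalSpace W] [ChartedSpace H W]
  {E₁ : Type} [NormedAddCommGroup E₁] [NormedSpace ℝ E₁] {H₁ : Type} [TopologicalSpace H₁]
  {S : Type} [TopologicalSpace S] [ChartedSpace H₁ S]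

/-- `γ : S → W` is a `C^r` embedding: a map of class `C^r` with a left inverse `ρ` which is of class
`C^r` on a neighbourhood `O` of the image. -/
def CrEmbedding (I₁ : ModelWithCorners ℝ E₁ H₁) (I : ModelWithCorners ℝ E H) (r : ℕ∞)
    (γ : S → W) : Prop :=
  ContMDiff I₁ I r γ ∧ ∃ (O : Set W) (ρ : W → S), IsOpen O ∧ (∀ z, γ z ∈ O) ∧
    (∀ q ∈ O, ContMDiffAt I I₁ r ρ q) ∧ ∀ z, ρ (γ z) = z

/-- The image of `γ : S → W` is a periodic set of `F`, of period `m`: `F^m ∘ γ = γ ∘ F₁`, and the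
images of `γ, F ∘ γ, …, F^(m-1) ∘ γ` do not meet the image of `γ` (except the first). -/
def PeriodicOn {W S : Type} (F : W → W) (m : ℕ) (γ : S → W) (F₁ : S → S) : Prop :=
  0 < m ∧ (∀ z, F^[m] (γ z) = γ (F₁ z)) ∧ ∀ i, 0 < i → i < m → ∀ z z', F^[i] (γ z) ≠ γ z'

/-- the correction of the family `Φ` towards `T` in the chart at `c`, with the cut-off `θ` -/
noncomputable def corr {P : Type} (I : ModelWithCorners ℝ E H) (c : W) (θ : W → ℝ) (ρ : W → S)
    (γ : S → W) (T : P × S → W) (Φ : P × W → W) (x : P × W) : W :=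
  letI := Classical.dec (θ x.2 = 0)
  if θ x.2 = 0 then Φ x else
    (extChartAt I c).symm (extChartAt I c (Φ x) +
      θ x.2 • (extChartAt I c (T (x.1, ρ x.2)) - extChartAt I c (Φ (x.1, γ (ρ x.2)))))

/-- `Φ` is a family of maps of `W` near `F`, equal to `F` outside `O`, of class `C^r` whenever
`T (v, ·)` is. -/
structure ExtFam {P : Type} [NormedAddCommGroup P] [NormedSpace ℝ P]
    (I₁ : ModelWithCorners ℝ E₁ H₁) (I : ModelWithCorners ℝ E H) (r : ℕ∞) (F : W → W)
    (O : Set W) (T : P × S → W) (Φ : P × W → W) : Prop where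
  sm : ∀ q, ContMDiffAt (𝓘(ℝ, P).prod I) I r Φ (0, q)
  zero : ∀ q, Φ (0, q) = F q
  out : ∀ v, ∀ q ∉ O, Φ (v, q) = F q
  ev : ∀ᶠ v in 𝓝 (0 : P), ContMDiff I₁ I r (fun z => T (v, z)) →
    ContMDiff I I r (fun q => Φ (v, q))

end Pool.Agent.SC
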