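import Mathlib

/-! row sb-Ds1a -/

open scoped ContDiff Topology

namespace Pool.Agent.SC

/-- Near the base point a `C^1` family with `g (0, x) = x` is a small Lipschitz perturbation of the
identity.
PROOF.  `g` has a strict derivative `L` at `(0, x₀)` (`ContDiffAt.hasStrictFDerivAt`), and
`L (0, u) = u` since `g (0, x) = x` near `x₀` (derivative along `x ↦ (0, x)`).  So for `a`, `b`
near `(0, x₀)`: `‖g a - g b - L (a - b)‖ ≤ (1 / 2) * ‖a - b‖`; take `a = (v, x)`, `b = (v, x')`, so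
`L (a - b) = x - x'` and `‖a - b‖ = ‖x - x'‖`. -/
theorem ds_lipschitz {P E : Type} [NormedAddCommGroup P] [NormedSpace ℝ P] [NormedAddCommGroup E]
    [NormedSpace ℝ E] (g : P × E → E) (x₀ : E) (hg : ContDiffAt ℝ 1 g (0, x₀))
    (h0 : ∀ᶠ x in 𝓝 x₀, g (0, x) = x) :
    ∃ δ > 0, ∃ V ∈ 𝓝 (0 : P), ∀ v ∈ V, ∀ x ∈ Metric.closedBall x₀ δ,
      ∀ x' ∈ Metric.closedBall x₀ δ, ‖(g (v, x) - x) - (g (v, x') - x')‖ ≤ 1 / 2 * ‖x - x'‖ := by
  have hs : HasStrictFDerivAt g (fderiv ℝ g (0, x₀)) (0, x₀) := hg.hasStrictFDerivAt one_ne_zero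
  set L : P × E →L[ℝ] E := fderiv ℝ g (0, x₀) with hL
  have hLu : ∀ u : E, L (0, u) = u := by
    have h1 : HasFDerivAt (fun x : E => g (0, x)) (L.comp (ContinuousLinearMap.inr ℝ P E)) x₀ := by
      have h2 : HasFDerivAt (fun x : E => ((0 : P), x)) (ContinuousLinearMap.inr ℝ P E) x₀ :=
        hasFDerivAt_prodMk_right (0 : P) x₀
      exact hs.hasFDerivAt.comp x₀ h2
    have h3 : HasFDerivAt (fun x : E => g (0, x)) (ContinuousLinearMap.id ℝ E) x₀ :=
      (hasFDerivAt_id x₀).congr_of_eventuallyEq h0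
    intro u
    have h4 := congrArg (fun T : E →L[ℝ] E => T u) (h1.unique h3)
    simpa using h4
  have hb := (hs.isLittleO.def (show (0 : ℝ) < 1 / 2 by norm_num))
  have hb' : ∀ᶠ p : (P × E) × (P × E) in 𝓝 (((0 : P), x₀), ((0 : P), x₀)),
      ‖g p.1 - g p.2 - L (p.1 - p.2)‖ ≤ 1 / 2 * ‖p.1 - p.2‖ := hb
  obtain ⟨ε, hε, hball⟩ := Metric.eventually_nhds_iff_ball.mp hb'
  refine ⟨ε / 2, by positivity, Metric.ball (0 : P) ε, Metric.ball_mem_nhds _ hε, ?_⟩
  intro v hv x hx x' hx'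
  have hmem : (((v, x) : P × E), ((v, x') : P × E)) ∈
      Metric.ball (((0 : P), x₀), ((0 : P), x₀)) ε := by
    rw [Metric.mem_ball] at hv ⊢
    rw [Metric.mem_closedBall] at hx hx'
    simp only [Prod.dist_eq]
    have : ε / 2 < ε := by linarith
    simp only [max_lt_iff]
    exact ⟨⟨hv, by linarith⟩, ⟨hv, by linarith⟩⟩
  have h5 := hball _ hmem
  have h6 : ((v, x) : P × E) - (v, x') = (0, x - x') := by
    ext <;> simp
  simp only [h6, hLu] at h5
  have h7 : ‖((0 : P), x - x')‖ = ‖x - x'‖ := by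
    simp [Prod.norm_def]
  rw [h7] at h5
  have h8 : (g (v, x) - x) - (g (v, x') - x') = g (v, x) - g (v, x') - (x - x') := by abel
  rw [h8]
  exact h5

end Pool.Agent.SC
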