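import Mathlib

/-! row sb-Ds1b -/

open scoped ContDiff Topology

namespace Pool.Agent.SC

/-- PROOF.  `u x = u x'` gives `‖x' - x‖ ≤ ‖x - x'‖ / 2`. -/
theorem ds_inj {E : Type} [NormedAddCommGroup E] [NormedSpace ℝ E] (u : E → E) (x₀ : E) (δ : ℝ)
    (h : ∀ x ∈ Metric.closedBall x₀ δ, ∀ x' ∈ Metric.closedBall x₀ δ,
      ‖(u x - x) - (u x' - x')‖ ≤ 1 / 2 * ‖x - x'‖) :
    Set.InjOn u (Metric.closedBall x₀ δ) := by
  intro x hx x' hx' he
  have h1 := h x hx x' hx'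
  have e1 : (u x - x) - (u x' - x') = -(x - x') := by
    rw [he]
    abel
  rw [e1, norm_neg] at h1
  have h2 : ‖x - x'‖ = 0 := by
    have := norm_nonneg (x - x')
    linarith
  exact sub_eq_zero.1 (norm_eq_zero.1 h2)

/-- PROOF.  `ApproximatesLinearOn u (ContinuousLinearEquiv.refl ℝ E) (closedBall x₁ δ') (1 / 2)` and
`ApproximatesLinearOn.surjOn_closedBall_of_nonlinearRightInverse`, or the contraction
`x ↦ y - (u x - x)` of `closedBall x₁ δ'` (if `‖x - x₁‖ ≤ δ'` then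
`‖y - (u x - x) - x₁‖ ≤ ‖y - u x₁‖ + ‖x - x₁‖ / 2 ≤ δ'`), `E` complete. -/
theorem ds_surj {E : Type} [NormedAddCommGroup E] [NormedSpace ℝ E] [CompleteSpace E] (u : E → E)
    (x₁ : E) (δ' : ℝ) (hδ' : 0 ≤ δ')
    (h : ∀ x ∈ Metric.closedBall x₁ δ', ∀ x' ∈ Metric.closedBall x₁ δ',
      ‖(u x - x) - (u x' - x')‖ ≤ 1 / 2 * ‖x - x'‖) (y : E) (hy : ‖y - u x₁‖ ≤ δ' / 2) :
    ∃ x ∈ Metric.closedBall x₁ δ', u x = y := by
  let f : E → E := fun x => y - (u x - x)
  have hx1 : x₁ ∈ Metric.closedBall x₁ δ' := Metric.mem_closedBall_self hδ'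
  have hmaps : Set.MapsTo f (Metric.closedBall x₁ δ') (Metric.closedBall x₁ δ') := by
    intro x hx
    have h1 := h x hx x₁ hx1
    have h2 : ‖x - x₁‖ ≤ δ' := by
      rw [← dist_eq_norm]
      exact hx
    rw [Metric.mem_closedBall, dist_eq_norm]
    have e1 : f x - x₁ = (y - u x₁) - ((u x - x) - (u x₁ - x₁)) := by
      show y - (u x - x) - x₁ = (y - u x₁) - ((u x - x) - (u x₁ - x₁))
      abel
    rw [e1]
    calc ‖(y - u x₁) - ((u x - x) - (u x₁ - x₁))‖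
        ≤ ‖y - u x₁‖ + ‖(u x - x) - (u x₁ - x₁)‖ := norm_sub_le _ _
      _ ≤ δ' / 2 + 1 / 2 * ‖x - x₁‖ := add_le_add hy h1
      _ ≤ δ' := by linarith
  have hcontr : ContractingWith (1 / 2 : NNReal) (hmaps.restrict f _ _) := by
    refine ⟨by
      rw [div_lt_one (by norm_num)]
      norm_num, ?_⟩
    apply LipschitzWith.of_dist_le_mul
    intro a b
    have h1 := h a.1 a.2 b.1 b.2
    have e1 : dist (hmaps.restrict f _ _ a) (hmaps.restrict f _ _ b) = dist (f a.1) (f b.1) := rfl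
    have e2 : dist a b = dist a.1 b.1 := rfl
    rw [e1, e2, dist_eq_norm, dist_eq_norm]
    have e3 : f a.1 - f b.1 = -((u a.1 - a.1) - (u b.1 - b.1)) := by
      show y - (u a.1 - a.1) - (y - (u b.1 - b.1)) = -((u a.1 - a.1) - (u b.1 - b.1))
      abel
    rw [e3, norm_neg]
    have e4 : (((1 / 2 : NNReal) : NNReal) : ℝ) = 1 / 2 := by
      push_cast
      norm_num
    rw [e4]
    exact h1
  obtain ⟨x, hx, hfix, -⟩ := ContractingWith.exists_fixedPoint' (Metric.isClosed_closedBall.isComplete)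
    hmaps hcontr hx1 (edist_ne_top _ _)
  refine ⟨x, hx, ?_⟩
  have h1 : y - (u x - x) = x := hfix
  have h2 : y - u x = 0 := by
    have : y - u x = (y - (u x - x)) - x := by abel
    rw [this, h1, sub_self]
  exact (sub_eq_zero.1 h2).symm

end Pool.Agent.SC
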