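import Mathlib

/-! row sb-Ds1c -/

open scoped ContDiff Topology

namespace Pool.Agent.SC

/-- Local inverse, of class `C^n`.
PROOF.  `u` is differentiable at `x₁` and its derivative `D` satisfies `‖D - id‖ ≤ 1 / 2` (from the
Lipschitz estimate for `u - id` on a neighbourhood: `HasFDerivAt.le_of_lipschitzOn` or
`norm_fderiv_le_of_lip'`), so `D` is invertible: a continuous linear equivalence `A`
(`Trans1_equiv` in `SC/Trans1.lean` is for `1 / 4`; `ContinuousLinearMap` units: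
`Units.oneSub`, or `ContinuousLinearEquiv.unitsEquiv`).
`ContDiffAt.toOpenPartialHomeomorph` and `ContDiffAt.to_localInverse`: `κ = hu.localInverse`,
`κ (u x₁) = x₁`, `u (κ y) = y` near `u x₁` (`HasStrictFDerivAt.eventually_right_inverse`). -/
theorem ds_inverse {E : Type} [NormedAddCommGroup E] [NormedSpace ℝ E] [CompleteSpace E]
    (u : E → E) (x₁ : E) (h : ∀ᶠ x in 𝓝 x₁, ∀ᶠ x' in 𝓝 x₁,
      ‖(u x - x) - (u x' - x')‖ ≤ 1 / 2 * ‖x - x'‖) (n : ℕ∞) (hn : 1 ≤ n)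
    (hu : ContDiffAt ℝ n u x₁) :
    ∃ κ : E → E, ContDiffAt ℝ n κ (u x₁) ∧ κ (u x₁) = x₁ ∧ ∀ᶠ y in 𝓝 (u x₁), u (κ y) = y := by
  have hn0 : (n : WithTop ℕ∞) ≠ 0 := by
    intro h0
    have h1 : n = 0 := by exact_mod_cast h0
    rw [h1] at hn
    exact absurd hn (by decide)
  have hd : DifferentiableAt ℝ u x₁ := hu.differentiableAt hn0
  obtain ⟨D, hD⟩ : ∃ D : E →L[ℝ] E, HasFDerivAt u D x₁ := ⟨_, hd.hasFDerivAt⟩
  have hB : ‖D - ContinuousLinearMap.id ℝ E‖ ≤ 1 / 2 := by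
    have h1 : HasFDerivAt (fun x => u x - x) (D - ContinuousLinearMap.id ℝ E) x₁ :=
      hD.sub (hasFDerivAt_id x₁)
    refine h1.le_of_lip' (by norm_num) ?_
    filter_upwards [h] with x hx
    exact hx.self_of_nhds
  have hlt : ‖ContinuousLinearMap.id ℝ E - D‖ < 1 := by
    rw [norm_sub_rev]
    linarith
  obtain ⟨A, hA⟩ : ∃ A : E ≃L[ℝ] E, (A : E →L[ℝ] E) = D := by
    refine ⟨ContinuousLinearEquiv.unitsEquiv ℝ E (Units.oneSub (ContinuousLinearMap.id ℝ E - D) hlt), ?_⟩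
    ext x
    show ((1 : E →L[ℝ] E) - (ContinuousLinearMap.id ℝ E - D)) x = D x
    simp
  have hA' : HasFDerivAt u (A : E →L[ℝ] E) x₁ := by rw [hA]; exact hD
  exact ⟨hu.localInverse hA' hn0, hu.to_localInverse hA' hn0, hu.localInverse_apply_image hA' hn0,
    (hu.hasStrictFDerivAt' hA' hn0).eventually_right_inverse⟩

end Pool.Agent.SC
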