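import Pool.Agent.Lib.MP_1e8d1a_an.SC.Fam2

/-! row sb-Ds2a -/

open scoped ContDiff Manifold Topology

namespace Pool.Agent.SC

variable {E : Type} [NormedAddCommGroup E] [NormedSpace ℝ E] {H : Type} [TopologicalSpace H]
  {I : ModelWithCorners ℝ E H} {W : Type} [TopologicalSpace W] [ChartedSpace H W]

/-- The family in the chart `e = extChartAt I q₀`: `g (v, x) = e (Φ (v, e.symm x))`.
PROOF.  Smooth at `(0, e q₀)`: `e.symm` is `C^1` at `e q₀`, `Φ` at `(0, q₀)`, `e` at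
`Φ (0, q₀) = q₀` (`contMDiffAt_iff_contDiffAt`, model: `prod_CK` in `LC/Prod.lean` or `Fam2`).
`g (0, x) = e (e.symm x) = x` for `x ∈ e.target`, a neighbourhood of `e q₀`. -/
theorem ds_chart [IsManifold I ∞ W] [I.Boundaryless] {P : Type} [NormedAddCommGroup P]
    [NormedSpace ℝ P] (Φ : P × W → W) (hΦ : ∀ q, ContMDiffAt (𝓘(ℝ, P).prod I) I 1 Φ (0, q))
    (h0 : ∀ q, Φ (0, q) = q) (q₀ : W) :
    ContDiffAt ℝ 1 (fun x : P × E => extChartAt I q₀ (Φ (x.1, (extChartAt I q₀).symm x.2)))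
      (0, extChartAt I q₀ q₀) ∧
    ∀ᶠ x in 𝓝 (extChartAt I q₀ q₀),
      extChartAt I q₀ (Φ (0, (extChartAt I q₀).symm x)) = x := by
  have hle : (1 : WithTop ℕ∞) ≤ (∞ : WithTop ℕ∞) := by exact_mod_cast le_top
  have hq : (extChartAt I q₀).symm (extChartAt I q₀ q₀) = q₀ := extChartAt_to_inv q₀
  have h1 : ContMDiffAt 𝓘(ℝ, E) I 1 (extChartAt I q₀).symm (extChartAt I q₀ q₀) :=
    ((contMDiffOn_extChartAt_symm (I := I) (n := ∞) q₀).contMDiffAt
      (extChartAt_target_mem_nhds q₀)).of_le hle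
  have h4 : ContMDiffAt I 𝓘(ℝ, E) 1 (extChartAt I q₀) q₀ :=
    (contMDiffAt_extChartAt (I := I) (n := ∞) (x := q₀)).of_le hle
  constructor
  · rw [← contMDiffAt_iff_contDiffAt]
    have hfst : ContMDiffAt 𝓘(ℝ, P × E) 𝓘(ℝ, P) 1 (fun x : P × E => x.1)
        ((0 : P), extChartAt I q₀ q₀) := contDiff_fst.contMDiff.contMDiffAt
    have hsnd : ContMDiffAt 𝓘(ℝ, P × E) 𝓘(ℝ, E) 1 (fun x : P × E => x.2)
        ((0 : P), extChartAt I q₀ q₀) := contDiff_snd.contMDiff.contMDiffAt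
    have h2 : ContMDiffAt 𝓘(ℝ, P × E) I 1 (fun x : P × E => (extChartAt I q₀).symm x.2)
        ((0 : P), extChartAt I q₀ q₀) := ContMDiffAt.comp_of_eq h1 hsnd rfl
    have h3 : ContMDiffAt 𝓘(ℝ, P × E) (𝓘(ℝ, P).prod I) 1
        (fun x : P × E => (x.1, (extChartAt I q₀).symm x.2)) ((0 : P), extChartAt I q₀ q₀) :=
      hfst.prodMk h2
    have h5 : ContMDiffAt 𝓘(ℝ, P × E) I 1
        (fun x : P × E => Φ (x.1, (extChartAt I q₀).symm x.2)) ((0 : P), extChartAt I q₀ q₀) := by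
      refine ContMDiffAt.comp_of_eq (g := Φ) (hΦ q₀) h3 ?_
      show ((0 : P), (extChartAt I q₀).symm (extChartAt I q₀ q₀)) = ((0 : P), q₀)
      rw [hq]
    refine ContMDiffAt.comp_of_eq (g := extChartAt I q₀) h4 h5 ?_
    show Φ ((0 : P), (extChartAt I q₀).symm (extChartAt I q₀ q₀)) = q₀
    rw [hq, h0]
  · filter_upwards [extChartAt_target_mem_nhds (I := I) q₀] with x hx
    rw [h0]
    exact (extChartAt I q₀).right_inv hx

end Pool.Agent.SC
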