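import Pool.Agent.Lib.MP_1e8d1a_an.SB.Ds1a
import Pool.Agent.Lib.MP_1e8d1a_an.SB.Ds1b
import Pool.Agent.Lib.MP_1e8d1a_an.SB.Ds2a

/-! row sb-Ds2b -/

open scoped ContDiff Manifold Topology

namespace Pool.Agent.SC

variable {E : Type} [NormedAddCommGroup E] [NormedSpace ℝ E] {H : Type} [TopologicalSpace H]
  {I : ModelWithCorners ℝ E H} {W : Type} [TopologicalSpace W] [ChartedSpace H W]

/-- PROOF.  `ds_chart`, `ds_lipschitz`, `ds_inj` for `u x = e (Φ (v, e.symm x))`.  For `x` near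
`(0, (q₀, q₀))`: both points are in `e.source`, `e` of them in the ball, and
`u (e a) = e (Φ (v, a))`. -/
theorem ds_inj_near [IsManifold I ∞ W] [I.Boundaryless] {P : Type} [NormedAddCommGroup P]
    [NormedSpace ℝ P] (Φ : P × W → W) (hΦ : ∀ q, ContMDiffAt (𝓘(ℝ, P).prod I) I 1 Φ (0, q))
    (h0 : ∀ q, Φ (0, q) = q) (q₀ : W) :
    ∀ᶠ x : P × (W × W) in 𝓝 (0, (q₀, q₀)),
      Φ (x.1, x.2.1) = Φ (x.1, x.2.2) → x.2.1 = x.2.2 := by
  obtain ⟨hg, h0'⟩ := ds_chart Φ hΦ h0 q₀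
  obtain ⟨δ, hδ, V, hV, hL⟩ := ds_lipschitz _ _ hg h0'
  have hsrc : ∀ᶠ q in 𝓝 q₀, q ∈ (extChartAt I q₀).source := extChartAt_source_mem_nhds q₀
  have hball : ∀ᶠ q in 𝓝 q₀, extChartAt I q₀ q ∈ Metric.closedBall (extChartAt I q₀ q₀) δ :=
    (continuousAt_extChartAt q₀).eventually (Metric.closedBall_mem_nhds _ hδ)
  have hq := hsrc.and hball
  have t1 : Filter.Tendsto (fun x : P × (W × W) => x.1) (𝓝 (0, (q₀, q₀))) (𝓝 0) := continuous_fst.tendsto _
  have t2 : Filter.Tendsto (fun x : P × (W × W) => x.2.1) (𝓝 (0, (q₀, q₀))) (𝓝 q₀) :=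
    (continuous_fst.comp continuous_snd).tendsto _
  have t3 : Filter.Tendsto (fun x : P × (W × W) => x.2.2) (𝓝 (0, (q₀, q₀))) (𝓝 q₀) :=
    (continuous_snd.comp continuous_snd).tendsto _
  filter_upwards [t1.eventually hV, t2.eventually hq, t3.eventually hq] with x h1 h2 h3 heq
  have key := ds_inj (fun y => extChartAt I q₀ (Φ (x.1, (extChartAt I q₀).symm y))) _ δ (hL x.1 h1) h2.2 h3.2
  have e : extChartAt I q₀ x.2.1 = extChartAt I q₀ x.2.2 := by
    apply key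
    dsimp only
    rw [(extChartAt I q₀).left_inv h2.1, (extChartAt I q₀).left_inv h3.1, heq]
  exact (extChartAt I q₀).injOn h2.1 h3.1 e

end Pool.Agent.SC
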