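import Pool.Agent.Lib.MP_1e8d1a_an.SB.Ds1a
import Pool.Agent.Lib.MP_1e8d1a_an.SB.Ds1b
import Pool.Agent.Lib.MP_1e8d1a_an.SB.Ds2a

/-! row sb-Ds2c -/

open scoped ContDiff Manifold Topology

namespace Pool.Agent.SC

variable {E : Type} [NormedAddCommGroup E] [NormedSpace ℝ E] {H : Type} [TopologicalSpace H]
  {I : ModelWithCorners ℝ E H} {W : Type} [TopologicalSpace W] [ChartedSpace H W]

/-- PROOF.  `ds_chart`, `ds_lipschitz` (`δ`, made smaller so that `closedBall (e q₀) δ ⊆ e.target` and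
`Φ (v, e.symm x) ∈ e.source` for `x` in the ball and small `v`: compactness of the ball, or choose
`δ` by continuity of `Φ` at `(0, q₀)`), `ds_surj` at `x₁ = e q₀`: for `(v, b)` near `(0, q₀)`,
`‖e b - u (e q₀)‖ ≤ δ / 2` (`u (e q₀) = e (Φ (v, q₀)) → e q₀`), so `u x = e b`, `a = e.symm x`,
`e (Φ (v, a)) = e b`, both `Φ (v, a)` and `b` in `e.source`. -/
theorem ds_surj_near [FiniteDimensional ℝ E] [IsManifold I ∞ W] [I.Boundaryless] {P : Type}
    [NormedAddCommGroup P] [NormedSpace ℝ P] (Φ : P × W → W)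
    (hΦ : ∀ q, ContMDiffAt (𝓘(ℝ, P).prod I) I 1 Φ (0, q)) (h0 : ∀ q, Φ (0, q) = q) (q₀ : W) :
    ∀ᶠ x : P × W in 𝓝 (0, q₀), ∃ a, Φ (x.1, a) = x.2 := by
  have hcomp : CompleteSpace E := FiniteDimensional.complete ℝ E
  obtain ⟨hg, hg0⟩ := ds_chart Φ hΦ h0 q₀
  obtain ⟨δ₁, hδ₁, V, hV, hlip⟩ := ds_lipschitz
    (fun x : P × E => extChartAt I q₀ (Φ (x.1, (extChartAt I q₀).symm x.2)))
    (extChartAt I q₀ q₀) hg hg0
  set e := extChartAt I q₀ with he
  have hsymm : ContinuousAt e.symm (e q₀) := continuousAt_extChartAt_symm q₀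
  have hleft : e.symm (e q₀) = q₀ := e.left_inv (mem_extChartAt_source q₀)
  have hc1 : ContinuousAt (fun x : P × E => Φ (x.1, e.symm x.2)) (0, e q₀) := by
    have h1 : ContinuousAt (fun x : P × E => (x.1, e.symm x.2)) (0, e q₀) :=
      continuousAt_fst.prodMk (ContinuousAt.comp (x := ((0 : P), e q₀))
        (f := fun x : P × E => x.2) (g := e.symm) hsymm continuousAt_snd)
    have h2 : ContinuousAt Φ ((0 : P), e.symm (e q₀)) := (hΦ _).continuousAt
    exact ContinuousAt.comp (x := ((0 : P), e q₀)) (f := fun x : P × E => (x.1, e.symm x.2))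
      (g := Φ) h2 h1
  have hmem : ∀ᶠ x : P × E in 𝓝 (0, e q₀), Φ (x.1, e.symm x.2) ∈ e.source := by
    refine hc1.eventually_mem ?_
    show e.source ∈ 𝓝 (Φ ((0 : P), e.symm (e q₀)))
    rw [h0, hleft]
    exact extChartAt_source_mem_nhds q₀
  rw [nhds_prod_eq] at hmem
  obtain ⟨V', hV', B, hB, hVB⟩ := Filter.eventually_prod_iff.1 hmem
  obtain ⟨δ₂, hδ₂, hball⟩ := Metric.nhds_basis_closedBall.mem_iff.1 hB
  set δ := min δ₁ δ₂ with hδ
  have hδpos : 0 < δ := lt_min hδ₁ hδ₂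
  have hcont : ContinuousAt (fun x : P × W => e x.2 - e (Φ (x.1, e.symm (e q₀)))) (0, q₀) := by
    have h1 : ContinuousAt (fun x : P × W => e x.2) (0, q₀) :=
      ContinuousAt.comp (x := ((0 : P), q₀)) (f := fun x : P × W => x.2) (g := e)
        (continuousAt_extChartAt q₀) continuousAt_snd
    have h2 : ContinuousAt (fun x : P × W => (x.1, q₀)) ((0 : P), q₀) :=
      continuousAt_fst.prodMk continuousAt_const
    have h3 : ContinuousAt (fun x : P × W => Φ (x.1, q₀)) ((0 : P), q₀) :=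
      ContinuousAt.comp (x := ((0 : P), q₀)) (f := fun x : P × W => (x.1, q₀)) (g := Φ)
        (hΦ q₀).continuousAt h2
    have h4 : ContinuousAt (fun x : P × W => e (Φ (x.1, q₀))) ((0 : P), q₀) := by
      refine ContinuousAt.comp (x := ((0 : P), q₀)) (f := fun x : P × W => Φ (x.1, q₀)) (g := e)
        ?_ h3
      show ContinuousAt e (Φ ((0 : P), q₀))
      rw [h0]
      exact continuousAt_extChartAt q₀
    simp only [hleft]
    exact h1.sub h4
  have hev : ∀ᶠ x : P × W in 𝓝 (0, q₀), ‖e x.2 - e (Φ (x.1, e.symm (e q₀)))‖ < δ / 2 := by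
    have h1 := hcont.norm
    have h2 : ‖e q₀ - e (Φ ((0 : P), e.symm (e q₀)))‖ = 0 := by
      rw [h0, hleft, sub_self, norm_zero]
    have h3 : ContinuousAt (fun x : P × W => ‖e x.2 - e (Φ (x.1, e.symm (e q₀)))‖) (0, q₀) := h1
    refine h3.eventually_lt_const ?_
    show ‖e q₀ - e (Φ ((0 : P), e.symm (e q₀)))‖ < δ / 2
    rw [h2]
    exact half_pos hδpos
  have hV1 : ∀ᶠ x : P × W in 𝓝 (0, q₀), x.1 ∈ V := continuousAt_fst.eventually_mem hV
  have hV2 : ∀ᶠ x : P × W in 𝓝 (0, q₀), V' x.1 := continuousAt_fst.eventually hV'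
  have hs : ∀ᶠ x : P × W in 𝓝 (0, q₀), x.2 ∈ e.source :=
    continuousAt_snd.eventually_mem (extChartAt_source_mem_nhds q₀)
  filter_upwards [hev, hV1, hV2, hs] with x hx1 hx2 hx3 hx4
  obtain ⟨y, hy, hy2⟩ := ds_surj (fun y => e (Φ (x.1, e.symm y))) (e q₀) δ hδpos.le
    (fun a ha a' ha' => hlip x.1 hx2 a (Metric.closedBall_subset_closedBall (min_le_left _ _) ha) a'
      (Metric.closedBall_subset_closedBall (min_le_left _ _) ha')) (e x.2) hx1.le
  refine ⟨e.symm y, ?_⟩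
  have h5 : Φ (x.1, e.symm y) ∈ e.source := hVB hx3
    (hball (Metric.closedBall_subset_closedBall (min_le_right _ _) hy))
  exact e.injOn h5 hx4 hy2

end Pool.Agent.SC
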