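import Pool.Agent.Lib.MP_1e8d1a_an.SB.Ds1a
import Pool.Agent.Lib.MP_1e8d1a_an.SB.Ds1c
import Pool.Agent.Lib.MP_1e8d1a_an.SB.Ds2a

/-! row sb-Ds2d -/

open scoped ContDiff Manifold Topology

namespace Pool.Agent.SC

variable {E : Type} [NormedAddCommGroup E] [NormedSpace ℝ E] {H : Type} [TopologicalSpace H]
  {I : ModelWithCorners ℝ E H} {W : Type} [TopologicalSpace W] [ChartedSpace H W]

theorem Ds2d_symm [IsManifold I ∞ W] [I.Boundaryless] (q₀ : W) (n : ℕ∞) {y : E}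
    (hy : y ∈ (extChartAt I q₀).target) :
    ContMDiffAt 𝓘(ℝ, E) I n (extChartAt I q₀).symm y := by
  haveI : IsManifold I n W := IsManifold.of_le (n := ∞) (by exact_mod_cast le_top)
  exact (contMDiffOn_extChartAt_symm q₀).contMDiffAt ((isOpen_extChartAt_target q₀).mem_nhds hy)

theorem Ds2d_ext [IsManifold I ∞ W] (q₀ : W) (n : ℕ∞) {q : W}
    (hq : q ∈ (extChartAt I q₀).source) :
    ContMDiffAt I 𝓘(ℝ, E) n (extChartAt I q₀) q := by
  haveI : IsManifold I n W := IsManifold.of_le (n := ∞) (by exact_mod_cast le_top)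
  exact contMDiffAt_extChartAt' (by rwa [extChartAt_source] at hq)

/-- PROOF.  `e = extChartAt I q₀`, `u x = e (Φ (v, e.symm x))`.  For `(v, a)` near `(0, q₀)`:
`a ∈ e.source`, `Φ (v, a) ∈ e.source`, `e a` in the open ball of `ds_lipschitz`, so `ds_inverse`
applies at `x₁ = e a` (`u` is `C^n` at `e a` since `Φ (v, ·)` is `C^n` at `a = e.symm (e a)`).  Put
`κ b = e.symm (κ₀ (e b))`: `C^n` at `Φ (v, a)`, `κ (Φ (v, a)) = a`, and for `b` near `Φ (v, a)`: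
`e (Φ (v, κ b)) = u (κ₀ (e b)) = e b`, `Φ (v, κ b) ∈ e.source` (continuity of `Φ (v, ·)` at `a`, of
`κ` at `Φ (v, a)`), so `Φ (v, κ b) = b`. -/
theorem ds_inverse_near [FiniteDimensional ℝ E] [IsManifold I ∞ W] [I.Boundaryless] {P : Type}
    [NormedAddCommGroup P] [NormedSpace ℝ P] (Φ : P × W → W)
    (hΦ : ∀ q, ContMDiffAt (𝓘(ℝ, P).prod I) I 1 Φ (0, q)) (h0 : ∀ q, Φ (0, q) = q) (q₀ : W) :
    ∀ᶠ x : P × W in 𝓝 (0, q₀), ∀ n : ℕ∞, 1 ≤ n →
      ContMDiffAt I I n (fun q => Φ (x.1, q)) x.2 →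
      ∃ κ : W → W, ContMDiffAt I I n κ (Φ x) ∧ κ (Φ x) = x.2 ∧
        ∀ᶠ b in 𝓝 (Φ x), Φ (x.1, κ b) = b := by
  haveI : CompleteSpace E := FiniteDimensional.complete ℝ E
  obtain ⟨hg, hg0⟩ := ds_chart Φ hΦ h0 q₀
  obtain ⟨δ, hδ, V, hV, hL⟩ := ds_lipschitz _ (extChartAt I q₀ q₀) hg hg0
  have hcΦ : ContinuousAt Φ (0, q₀) := (hΦ q₀).continuousAt
  have hc1 : Filter.Tendsto (fun x : P × W => x.1) (𝓝 (0, q₀)) (𝓝 0) :=
    continuous_fst.tendsto (0, q₀)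
  have hc2 : Filter.Tendsto (fun x : P × W => x.2) (𝓝 (0, q₀)) (𝓝 q₀) :=
    continuous_snd.tendsto (0, q₀)
  have e1 : ∀ᶠ x : P × W in 𝓝 (0, q₀), x.1 ∈ V := hc1.eventually hV
  have e2 : ∀ᶠ x : P × W in 𝓝 (0, q₀), x.2 ∈ (extChartAt I q₀).source :=
    hc2.eventually (extChartAt_source_mem_nhds q₀)
  have e3 : ∀ᶠ x : P × W in 𝓝 (0, q₀), Φ x ∈ (extChartAt I q₀).source := by
    apply hcΦ.eventually
    rw [h0 q₀]
    exact extChartAt_source_mem_nhds q₀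
  have e4 : ∀ᶠ x : P × W in 𝓝 (0, q₀),
      extChartAt I q₀ x.2 ∈ Metric.ball (extChartAt I q₀ q₀) δ :=
    hc2.eventually ((continuousAt_extChartAt q₀).eventually (Metric.ball_mem_nhds _ hδ))
  filter_upwards [e1, e2, e3, e4] with x h1 h2 h3 h4 n hn hu0
  obtain ⟨v, a⟩ := x
  simp only at h1 h2 h3 h4 hu0 ⊢
  have hta : extChartAt I q₀ a ∈ (extChartAt I q₀).target := (extChartAt I q₀).map_source h2
  have hsa : (extChartAt I q₀).symm (extChartAt I q₀ a) = a := (extChartAt I q₀).left_inv h2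
  have hu1 : ContMDiffAt 𝓘(ℝ, E) 𝓘(ℝ, E) n
      (fun y : E => extChartAt I q₀ (Φ (v, (extChartAt I q₀).symm y))) (extChartAt I q₀ a) := by
    have s1 := Ds2d_symm (I := I) q₀ n hta
    have s2 : ContMDiffAt 𝓘(ℝ, E) I n (fun y : E => Φ (v, (extChartAt I q₀).symm y))
        (extChartAt I q₀ a) :=
      ContMDiffAt.comp_of_eq (g := fun q => Φ (v, q)) hu0 s1 hsa
    exact ContMDiffAt.comp_of_eq (g := extChartAt I q₀) (Ds2d_ext q₀ n h3) s2 (by rw [hsa])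
  have hu : ContDiffAt ℝ n
      (fun y : E => extChartAt I q₀ (Φ (v, (extChartAt I q₀).symm y))) (extChartAt I q₀ a) :=
    contMDiffAt_iff_contDiffAt.mp hu1
  have hball : ∀ᶠ y in 𝓝 (extChartAt I q₀ a), y ∈ Metric.ball (extChartAt I q₀ q₀) δ :=
    Metric.isOpen_ball.mem_nhds h4
  have hlip : ∀ᶠ y in 𝓝 (extChartAt I q₀ a), ∀ᶠ y' in 𝓝 (extChartAt I q₀ a),
      ‖((fun y : E => extChartAt I q₀ (Φ (v, (extChartAt I q₀).symm y))) y - y) -
        ((fun y : E => extChartAt I q₀ (Φ (v, (extChartAt I q₀).symm y))) y' - y')‖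
        ≤ 1 / 2 * ‖y - y'‖ := by
    filter_upwards [hball] with y hy
    filter_upwards [hball] with y' hy'
    exact hL v h1 y (Metric.ball_subset_closedBall hy) y' (Metric.ball_subset_closedBall hy')
  obtain ⟨κ₀, k1, k2, k3⟩ := ds_inverse _ _ hlip n hn hu
  simp only [hsa] at k1 k2 k3
  have k1' : ContMDiffAt 𝓘(ℝ, E) 𝓘(ℝ, E) n κ₀ (extChartAt I q₀ (Φ (v, a))) :=
    contMDiffAt_iff_contDiffAt.mpr k1
  have hκ : ContMDiffAt I I n (fun b => (extChartAt I q₀).symm (κ₀ (extChartAt I q₀ b)))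
      (Φ (v, a)) := by
    have s1 := Ds2d_ext (I := I) q₀ n h3
    have s2 : ContMDiffAt I 𝓘(ℝ, E) n (fun b => κ₀ (extChartAt I q₀ b)) (Φ (v, a)) :=
      ContMDiffAt.comp_of_eq (g := κ₀) k1' s1 rfl
    exact ContMDiffAt.comp_of_eq (g := (extChartAt I q₀).symm) (Ds2d_symm q₀ n hta) s2 k2
  have hκa : (extChartAt I q₀).symm (κ₀ (extChartAt I q₀ (Φ (v, a)))) = a := by rw [k2, hsa]
  refine ⟨fun b => (extChartAt I q₀).symm (κ₀ (extChartAt I q₀ b)), hκ, hκa, ?_⟩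
  have c1 : ∀ᶠ b in 𝓝 (Φ (v, a)), b ∈ (extChartAt I q₀).source :=
    extChartAt_source_mem_nhds' h3
  have c2 : ∀ᶠ b in 𝓝 (Φ (v, a)), extChartAt I q₀ (Φ (v, (extChartAt I q₀).symm
      (κ₀ (extChartAt I q₀ b)))) = extChartAt I q₀ b :=
    (Ds2d_ext (I := I) q₀ n h3).continuousAt.eventually k3
  have c3 : ContinuousAt (fun b => Φ (v, (extChartAt I q₀).symm (κ₀ (extChartAt I q₀ b))))
      (Φ (v, a)) :=
    ContinuousAt.comp_of_eq (g := fun q => Φ (v, q)) hu0.continuousAt hκ.continuousAt hκa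
  have c4 : ∀ᶠ b in 𝓝 (Φ (v, a)),
      Φ (v, (extChartAt I q₀).symm (κ₀ (extChartAt I q₀ b))) ∈ (extChartAt I q₀).source := by
    apply c3.eventually
    simp only [hκa]
    exact extChartAt_source_mem_nhds' h3
  filter_upwards [c1, c2, c4] with b b1 b2 b4
  exact (extChartAt I q₀).injOn b4 b1 b2

end Pool.Agent.SC
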