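import Pool.Agent.Lib.MP_1e8d1a_an.SB.Ds2b
import Pool.Agent.Lib.MP_1e8d1a_an.SB.Ds2c
import Pool.Agent.Lib.MP_1e8d1a_an.SB.Ds2d

/-! row sb-Ds3a -/

open scoped ContDiff Manifold Topology

namespace Pool.Agent.SC

variable {E : Type} [NormedAddCommGroup E] [NormedSpace ℝ E] {H : Type} [TopologicalSpace H]
  {I : ModelWithCorners ℝ E H} {W : Type} [TopologicalSpace W] [ChartedSpace H W]

/-- Maps near the identity in a family are diffeomorphisms.
PROOF.  By compactness of `W × W` and of `W` (`IsCompact.eventually_forall_of_forall_eventually`,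
with `isCompact_univ`) the following hold for all small `v`: (1) `Φ (v, ·)` is injective: near
`(0, (q, q))` by `ds_inj_near`; near `(0, (q, q'))`, `q ≠ q'`, the values `Φ (v, a)`, `Φ (v, a')`
are different, since `Φ (0, q) = q ≠ q' = Φ (0, q')`, `Φ` is continuous at `(0, q)` and `W` is
Hausdorff.  (2) surjective: `ds_surj_near`.  (3) the conclusion of `ds_inverse_near` at all `q`.
Take such a `v` with `Φ (v, ·)` of class `C^n`, `G` its inverse (`Equiv.ofBijective`).  At
`b = Φ (v, a)` the inverse is `C^n`: `G = κ` near `b`, as `Φ (v, κ b') = b'`. -/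
theorem ds_diffeo_id [FiniteDimensional ℝ E] [T2Space W] [CompactSpace W] [IsManifold I ∞ W]
    [I.Boundaryless] {P : Type} [NormedAddCommGroup P] [NormedSpace ℝ P] (Φ : P × W → W)
    (hΦ : ∀ q, ContMDiffAt (𝓘(ℝ, P).prod I) I 1 Φ (0, q)) (h0 : ∀ q, Φ (0, q) = q) :
    ∀ᶠ v in 𝓝 (0 : P), ∀ n : ℕ∞, 1 ≤ n → ContMDiff I I n (fun q => Φ (v, q)) →
      ∃ D : W ≃ₘ^n⟮I, I⟯ W, ∀ q, D q = Φ (v, q) := by
  have hc : ∀ q, ContinuousAt Φ (0, q) := fun q => (hΦ q).continuousAt
  have hinj : ∀ᶠ v in 𝓝 (0 : P), ∀ y ∈ (Set.univ : Set (W × W)),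
      Φ (v, y.1) = Φ (v, y.2) → y.1 = y.2 := by
    apply IsCompact.eventually_forall_of_forall_eventually isCompact_univ
    rintro ⟨q, q'⟩ -
    by_cases hq : q = q'
    · subst hq
      exact ds_inj_near Φ hΦ h0 q
    · have h1 : Filter.Tendsto (fun x : P × (W × W) => (x.1, x.2.1)) (𝓝 (0, (q, q')))
          (𝓝 (0, q)) := by
        have : Continuous (fun x : P × (W × W) => (x.1, x.2.1)) := by fun_prop
        exact this.tendsto (0, (q, q'))
      have h2 : Filter.Tendsto (fun x : P × (W × W) => (x.1, x.2.2)) (𝓝 (0, (q, q')))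
          (𝓝 (0, q')) := by
        have : Continuous (fun x : P × (W × W) => (x.1, x.2.2)) := by fun_prop
        exact this.tendsto (0, (q, q'))
      have h3 : Filter.Tendsto (fun x : P × (W × W) => Φ (x.1, x.2.1)) (𝓝 (0, (q, q')))
          (𝓝 q) := by
        have := (hc q).tendsto.comp h1
        rw [h0] at this
        exact this
      have h4 : Filter.Tendsto (fun x : P × (W × W) => Φ (x.1, x.2.2)) (𝓝 (0, (q, q')))
          (𝓝 q') := by
        have := (hc q').tendsto.comp h2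
        rw [h0] at this
        exact this
      obtain ⟨U, V, hU, hV, hqU, hqV, hUV⟩ := t2_separation hq
      filter_upwards [h3 (hU.mem_nhds hqU), h4 (hV.mem_nhds hqV)] with x hx hx' heq
      exfalso
      have hx1 : Φ (x.1, x.2.1) ∈ U := hx
      have hx2 : Φ (x.1, x.2.2) ∈ V := hx'
      rw [heq] at hx1
      exact Set.disjoint_left.1 hUV hx1 hx2
  have hsurj : ∀ᶠ v in 𝓝 (0 : P), ∀ b ∈ (Set.univ : Set W), ∃ a, Φ (v, a) = b := by
    apply IsCompact.eventually_forall_of_forall_eventually isCompact_univ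
    intro q _
    exact ds_surj_near Φ hΦ h0 q
  have hinv : ∀ᶠ v in 𝓝 (0 : P), ∀ a ∈ (Set.univ : Set W), ∀ n : ℕ∞, 1 ≤ n →
      ContMDiffAt I I n (fun q => Φ (v, q)) a →
      ∃ κ : W → W, ContMDiffAt I I n κ (Φ (v, a)) ∧ κ (Φ (v, a)) = a ∧
        ∀ᶠ b in 𝓝 (Φ (v, a)), Φ (v, κ b) = b := by
    apply IsCompact.eventually_forall_of_forall_eventually isCompact_univ
    intro q _
    exact ds_inverse_near Φ hΦ h0 q
  filter_upwards [hinj, hsurj, hinv] with v h1 h2 h3 n hn hC
  have hbij : Function.Bijective (fun q => Φ (v, q)) := by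
    constructor
    · intro a b hab
      exact h1 (a, b) (Set.mem_univ _) hab
    · intro b
      exact h2 b (Set.mem_univ _)
  refine ⟨{ toEquiv := Equiv.ofBijective (fun q => Φ (v, q)) hbij
            contMDiff_toFun := hC
            contMDiff_invFun := ?_ }, fun q => rfl⟩
  intro b
  obtain ⟨a, ha⟩ := h2 b (Set.mem_univ _)
  obtain ⟨κ, hκ, -, hκ2⟩ := h3 a (Set.mem_univ _) n hn (hC a)
  rw [ha] at hκ hκ2
  refine hκ.congr_of_eventuallyEq ?_
  filter_upwards [hκ2] with b' hb'
  have h4 : (Equiv.ofBijective (fun q => Φ (v, q)) hbij) (κ b') = b' := hb'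
  exact (Equiv.symm_apply_eq _).2 h4.symm

end Pool.Agent.SC
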