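import Pool.Agent.Lib.MP_1e8d1a_an.SC.BumpA
import Pool.Agent.Lib.MP_1e8d1a_an.SC.BumpB

/-! Closability through finite dimensional families. -/

open scoped ContDiff Manifold Topology

namespace Pool.Agent.SC

/-- `F` can be closed at `p` in finitely or infinitely many steps, each step being the passage to the
limit `v → 0` in a finite or infinite dimensional `C^r` family `Φ (v, ·)` of diffeomorphisms. -/
inductive FC {E : Type} [NormedAddCommGroup E] [NormedSpace ℝ E] {H : Type} [TopologicalSpace H]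
    (I : ModelWithCorners ℝ E H) {W : Type} [TopologicalSpace W] [ChartedSpace H W] {r : ℕ∞}
    (p : W) : (W ≃ₘ^r⟮I, I⟯ W) → Prop
  | base (F : W ≃ₘ^r⟮I, I⟯ W) (n : ℕ) (hn : 0 < n) (h : (F : W → W)^[n] p = p) : FC I p F
  | lim (F : W ≃ₘ^r⟮I, I⟯ W) (P : Type) [NormedAddCommGroup P] [NormedSpace ℝ P]
      (Φ : P × W → W) (hΦ : ∀ q, ContMDiffAt (𝓘(ℝ, P).prod I) I r Φ (0, q))
      (hF : ∀ q, F q = Φ (0, q)) (v : ℕ → P) (hv : Filter.Tendsto v Filter.atTop (𝓝 0))
      (G : ℕ → (W ≃ₘ^r⟮I, I⟯ W)) (hG : ∀ n q, G n q = Φ (v n, q)) (h : ∀ n, FC I p (G n)) :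
      FC I p F

variable {E : Type} [NormedAddCommGroup E] [NormedSpace ℝ E] {H : Type} [TopologicalSpace H]
  {I : ModelWithCorners ℝ E H} {W : Type} [TopologicalSpace W] [ChartedSpace H W]

theorem fc_of_limit {r : ℕ∞} {P : Type}
    [NormedAddCommGroup P] [NormedSpace ℝ P] (Φ : P × W → W)
    (hΦ : ∀ q, ContMDiffAt (𝓘(ℝ, P).prod I) I r Φ (0, q)) (F : W ≃ₘ^r⟮I, I⟯ W)
    (hF : ∀ q, F q = Φ (0, q)) (p : W)
    (h : ∀ ε > 0, ∃ t : P, ‖t‖ < ε ∧ ∃ G : W ≃ₘ^r⟮I, I⟯ W, (∀ q, G q = Φ (t, q)) ∧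
      FC I p G) :
    FC I p F := by
  choose v hv G hG hFC using fun n : ℕ => h (1 / ((n : ℝ) + 1)) (by positivity)
  refine FC.lim F P Φ hΦ hF v ?_ G hG hFC
  rw [tendsto_zero_iff_norm_tendsto_zero]
  exact squeeze_zero (fun n => norm_nonneg _) (fun n => (hv n).le)
    tendsto_one_div_add_atTop_nhds_zero_nat

/-- `FC` implies closability. -/
theorem FC.closable [FiniteDimensional ℝ E] [T2Space W] [CompactSpace W]
    [IsManifold I ∞ W] [I.Boundaryless] {r : ℕ∞} {p : W} {F : W ≃ₘ^r⟮I, I⟯ W}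
    (h : FC I p F) : Closable I F p := by
  induction h with
  | base F n hn h =>
    intro U hU
    let _ : TopologicalSpace (W ≃ₘ^r⟮I, I⟯ W) := crTopology I r
    exact ⟨F, mem_of_mem_nhds hU, n, hn, h⟩
  | lim F P Φ hΦ hF v hv G hG h ih =>
    refine closable_of_limit Φ hΦ F hF p fun ε hε => ?_
    have h1 : ∀ᶠ n in Filter.atTop, ‖v n‖ < ε := by
      have h2 := hv.norm
      rw [norm_zero] at h2
      exact h2.eventually_lt_const hε
    obtain ⟨n, hn⟩ := h1.exists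
    exact ⟨v n, hn, G n, hG n, ih n⟩

/-- The closing principle in the form `FC`. -/
theorem fc_of_family [FiniteDimensional ℝ E] [T2Space W] [CompactSpace W]
    [IsManifold I ∞ W] [I.Boundaryless] {r : ℕ∞} {P : Type}
    [NormedAddCommGroup P] [NormedSpace ℝ P] (Φ : P × W → W)
    (hΦ : ∀ q, ContMDiffAt (𝓘(ℝ, P).prod I) I r Φ (0, q)) (F : W ≃ₘ^r⟮I, I⟯ W)
    (hF : ∀ q, F q = Φ (0, q)) (p : W) (J : Set W) (hJ : J ∈ 𝓝 p)
    (h : ∀ U ∈ 𝓝 p, ∀ ε > 0, ∃ t : P, ‖t‖ < ε ∧ ∃ G : W ≃ₘ^r⟮I, I⟯ W, (∀ q, G q = Φ (t, q)) ∧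
      ∃ q ∈ U, ∃ n : ℕ, 0 < n ∧ (G : W → W)^[n] q ∈ U ∧
        ∀ i, 0 < i → i < n → (G : W → W)^[i] q ∉ J) :
    FC I p F := by
  obtain ⟨T, hT, hTd, hT0, hTJ, hTe⟩ := exists_translations (I := I) p J hJ
  have hle : (r : WithTop ℕ∞) ≤ (∞ : WithTop ℕ∞) := by exact_mod_cast le_top
  have hTr : ContMDiff (𝓘(ℝ, E).prod I) I r T := hT.of_le hle
  -- the big family
  let Φ' : (E × P × E) × W → W := fun x => T (x.1.1, Φ (x.1.2.1, T (x.1.2.2, x.2)))
  have h1 : ContMDiff (𝓘(ℝ, E × P × E).prod I) 𝓘(ℝ, E) r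
      (fun x : (E × P × E) × W => x.1.1) :=
    (contDiff_fst.contMDiff (n := r)).comp contMDiff_fst
  have h2 : ContMDiff (𝓘(ℝ, E × P × E).prod I) 𝓘(ℝ, P) r
      (fun x : (E × P × E) × W => x.1.2.1) :=
    ((contDiff_fst.comp contDiff_snd).contMDiff (n := r)).comp contMDiff_fst
  have h3 : ContMDiff (𝓘(ℝ, E × P × E).prod I) 𝓘(ℝ, E) r
      (fun x : (E × P × E) × W => x.1.2.2) :=
    ((contDiff_snd.comp contDiff_snd).contMDiff (n := r)).comp contMDiff_fst
  have h4 : ContMDiff (𝓘(ℝ, E × P × E).prod I) I r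
      (fun x : (E × P × E) × W => T (x.1.2.2, x.2)) :=
    hTr.comp (h3.prodMk contMDiff_snd)
  have hΦ' : ∀ q, ContMDiffAt (𝓘(ℝ, E × P × E).prod I) I r Φ' (0, q) := by
    intro q
    have h5 : ContMDiffAt (𝓘(ℝ, E × P × E).prod I) (𝓘(ℝ, P).prod I) r
        (fun x : (E × P × E) × W => (x.1.2.1, T (x.1.2.2, x.2))) (0, q) :=
      (h2.contMDiffAt).prodMk (h4.contMDiffAt)
    have h6 : ContMDiffAt (𝓘(ℝ, E × P × E).prod I) I r
        (fun x : (E × P × E) × W => Φ (x.1.2.1, T (x.1.2.2, x.2))) (0, q) := by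
      refine ContMDiffAt.comp_of_eq (g := Φ)
        (f := fun x : (E × P × E) × W => (x.1.2.1, T (x.1.2.2, x.2)))
        (y := ((0 : P), q)) (hΦ q) h5 ?_
      show ((0 : P), T ((0 : E), q)) = ((0 : P), q)
      rw [hT0]
    have h7 : ContMDiffAt (𝓘(ℝ, E × P × E).prod I) (𝓘(ℝ, E).prod I) r
        (fun x : (E × P × E) × W => (x.1.1, Φ (x.1.2.1, T (x.1.2.2, x.2)))) (0, q) :=
      (h1.contMDiffAt).prodMk h6
    exact ContMDiffAt.comp (0, q) (hTr.contMDiffAt) h7
  have hF' : ∀ q, F q = Φ' (0, q) := by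
    intro q
    show F q = T ((0 : E), Φ ((0 : P), T ((0 : E), q)))
    rw [hT0, hT0, hF]
  refine fc_of_limit (P := E × P × E) Φ' hΦ' F hF' p fun ε hε => ?_
  have hcont : ∀ᶠ q in 𝓝 p, ‖extChartAt I p q - extChartAt I p p‖ < ε := by
    have hc := (continuousAt_extChartAt (I := I) p)
    have := hc.eventually (Metric.ball_mem_nhds (extChartAt I p p) hε)
    filter_upwards [this] with q hq
    rwa [dist_eq_norm] at hq
  obtain ⟨t, ht, G, hG, q, hq, n, hn, hz, hi⟩ := h _ (hcont.and hTe) ε hε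
  obtain ⟨hq1, hq2, -⟩ := hq
  obtain ⟨hz1, -, hz2⟩ := hz
  set v : E := extChartAt I p q - extChartAt I p p with hv
  set z : W := (G : W → W)^[n] q with hzdef
  set v' : E := extChartAt I p p - extChartAt I p z with hv'
  obtain ⟨D₀, hD₀⟩ := hTd v
  obtain ⟨D₁, hD₁⟩ := hTd v'
  let D : W ≃ₘ^r⟮I, I⟯ W :=
    { toEquiv := D₀.toEquiv
      contMDiff_toFun := D₀.contMDiff.of_le hle
      contMDiff_invFun := D₀.symm.contMDiff.of_le hle }
  let D' : W ≃ₘ^r⟮I, I⟯ W :=
    { toEquiv := D₁.toEquiv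
      contMDiff_toFun := D₁.contMDiff.of_le hle
      contMDiff_invFun := D₁.symm.contMDiff.of_le hle }
  have hD : ∀ x, D x = T (v, x) := hD₀
  have hD' : ∀ x, D' x = T (v', x) := hD₁
  have hDp : D p = q := by rw [hD]; exact hq2
  have hD'z : D' z = p := by rw [hD']; exact hz2
  have hDfix : ∀ x ∉ J, D x = x := fun x hx => by rw [hD]; exact hTJ v x hx
  have hD'fix : ∀ x ∉ J, D' x = x := fun x hx => by rw [hD']; exact hTJ v' x hx
  let G' : W ≃ₘ^r⟮I, I⟯ W := (D.trans G).trans D'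
  have hG' : ∀ x, G' x = D' (G (D x)) := fun x => rfl
  refine ⟨(v', t, v), ?_, G', ?_, FC.base G' n hn ?_⟩
  · rw [Prod.norm_def, Prod.norm_def]
    refine max_lt ?_ (max_lt ht hq1)
    rw [hv', norm_sub_rev]
    exact hz1
  · intro x
    show D' (G (D x)) = T (v', Φ (t, T (v, x)))
    rw [hD', hG, hD]
  · have key : ∀ i, 0 < i → i < n → (G' : W → W)^[i] p = (G : W → W)^[i] q := by
      intro i
      induction i with
      | zero => intro h0; exact absurd h0 (lt_irrefl 0)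
      | succ i ih =>
        intro _ hin
        have hJ' := hi (i + 1) (Nat.succ_pos i) hin
        rcases Nat.eq_zero_or_pos i with h0 | h0
        · subst h0
          rw [Function.iterate_succ_apply', Function.iterate_succ_apply'] at *
          simp only [Function.iterate_zero, id_eq] at *
          rw [hG', hDp]
          exact hD'fix _ hJ'
        · have h8 := ih h0 (by omega)
          rw [Function.iterate_succ_apply', h8, hG',
            hDfix _ (hi i h0 (by omega)), Function.iterate_succ_apply']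
          rw [Function.iterate_succ_apply'] at hJ'
          exact hD'fix _ hJ'
    obtain ⟨m, rfl⟩ : ∃ m, n = m + 1 := ⟨n - 1, by omega⟩
    rw [Function.iterate_succ_apply'] at hzdef
    rw [Function.iterate_succ_apply']
    rcases Nat.eq_zero_or_pos m with h0 | h0
    · subst h0
      simp only [Function.iterate_zero, id_eq] at *
      rw [hG', hDp, ← hzdef, hD'z]
    · rw [key m h0 (by omega), hG', hDfix _ (hi m h0 (by omega)), ← hzdef, hD'z]

end Pool.Agent.SC
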