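import Pool.Agent.Lib.MP_1e8d1a_an.SB.Fc
import Pool.Agent.Lib.MP_1e8d1a_an.LC.C2

/-! Products with a map which is periodic near `w`, in the form `FC`. -/

open scoped ContDiff Manifold Topology

namespace Pool.Agent.SC

variable {E : Type} [NormedAddCommGroup E] [NormedSpace ℝ E] [FiniteDimensional ℝ E]
  {H : Type} [TopologicalSpace H] {I : ModelWithCorners ℝ E H} [I.Boundaryless]
  {M : Type} [TopologicalSpace M] [T2Space M] [CompactSpace M] [ChartedSpace H M]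
  [IsManifold I ∞ M]
  {E' : Type} [NormedAddCommGroup E'] [NormedSpace ℝ E'] [FiniteDimensional ℝ E']
  {H' : Type} [TopologicalSpace H'] {J : ModelWithCorners ℝ E' H'} [J.Boundaryless]
  {N : Type} [TopologicalSpace N] [T2Space N] [CompactSpace N] [ChartedSpace H' N]
  [IsManifold J ∞ N]

theorem fc_free_stage {r : ℕ∞} (f : M ≃ₘ^r⟮I, I⟯ M) (x : M) (g : N ≃ₘ^r⟮J, J⟯ N) (w : N)
    (q : ℕ) (V : Set N) (hf : FreePeriodic g w q V) (hx : NonwanderingPt (f : M → M)^[q] x)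
    (S : (ℝ × ℝ) × N → N) (hS : ManClock J w V S) (s : ℝ) (hs : 0 < s) (hs1 : s ≤ 1 / 2)
    (G₀ : (M × N) ≃ₘ^r⟮I.prod J, I.prod J⟯ (M × N))
    (hG₀ : ∀ y z, G₀ (y, z) = (f y, g (S ((s, s), z)))) : FC (I.prod J) (x, w) G₀ := by
  obtain ⟨U₀, hU₀, hclock⟩ := hS.clock s hs hs1
  have hq0 : 0 < q := hf.1
  have hVo : IsOpen V := hf.2.1
  have hwV : w ∈ V := hf.2.2.1
  refine fc_of_family (P := ℝ × ℝ)
    (fun a : (ℝ × ℝ) × (M × N) => (f a.2.1, g (S ((s, s) + a.1, a.2.2)))) ?_ G₀ ?_ (x, w)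
    (Set.univ ×ˢ (V ∩ U₀)) ?_ ?_
  · intro p
    refine stage_smooth f g hS (fun t : ℝ × ℝ => (s, s) + t) (contDiff_const.add contDiff_id) 0 ?_ p
    show |((s, s) + (0 : ℝ × ℝ)).2| < 1
    rw [add_zero]
    show |s| < 1
    rw [abs_of_pos hs]
    linarith
  · rintro ⟨a, b⟩
    show G₀ (a, b) = (f a, g (S ((s, s) + (0 : ℝ × ℝ), b)))
    rw [hG₀, add_zero]
  · exact prod_mem_nhds Filter.univ_mem (Filter.inter_mem (hVo.mem_nhds hwV) hU₀)
  · intro U hU ε hε
    obtain ⟨A, hA, B, hB, hAB⟩ := mem_nhds_prod_iff.1 hU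
    obtain ⟨N₀, hN₀⟩ := hclock ε hε
    obtain ⟨m, hm, hm0, y, hy, hym⟩ :=
      nw_large (f := (f : M → M)^[q]) (f.continuous.iterate q) hx N₀ A hA
    obtain ⟨t, ht, ht1, htm, hti⟩ := hN₀ m hm
    obtain ⟨G, hG⟩ := exists_stage_diffeo f g hS t ht1
    have hh : ∀ z, z ∉ V → S (t, z) = z := fun z hz => hS.supp t z hz
    have hV : ∀ z ∈ V, S (t, z) ∈ V := by
      intro z hz
      by_contra hcon
      have h1 := hS.supp (-t) (S (t, z)) hcon
      rw [hS.inv t z ht1] at h1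
      exact hcon (h1 ▸ hz)
    have hit : ∀ (n : ℕ) (a : M) (b : N), (G : M × N → M × N)^[n] (a, b) =
        ((f : M → M)^[n] a, ((g : N → N) ∘ fun z => S (t, z))^[n] b) := by
      intro n
      induction n with
      | zero => intro a b; rfl
      | succ n ih =>
        intro a b
        rw [Function.iterate_succ_apply, Function.iterate_succ_apply, Function.iterate_succ_apply, hG, ih]
        rfl
    refine ⟨t - (s, s), ht, G, ?_, (y, w), hAB ⟨hy, mem_of_mem_nhds hB⟩, q * m,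
      Nat.mul_pos hq0 hm0, ?_, ?_⟩
    · rintro ⟨a, b⟩
      show G (a, b) = (f a, g (S ((s, s) + (t - (s, s)), b)))
      rw [hG, add_sub_cancel]
    · rw [hit, free_iterate hf hh hV m w hwV, htm, Function.iterate_mul]
      exact hAB ⟨hym, mem_of_mem_nhds hB⟩
    · intro i hi0 hi
      rw [hit]
      intro hmem
      exact free_intermediate hf hh hV m hti i hi0 hi hmem.2


theorem fc_free (hE : 2 ≤ Module.finrank ℝ E') {r : ℕ∞} (f : M ≃ₘ^r⟮I, I⟯ M) (x : M)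
    (g : N ≃ₘ^r⟮J, J⟯ N) (w : N) (q : ℕ) (V : Set N) (hf : FreePeriodic g w q V)
    (hx : NonwanderingPt (f : M → M)^[q] x) (F : (M × N) ≃ₘ^r⟮I.prod J, I.prod J⟯ (M × N))
    (hF : ∀ p, F p = (f p.1, g p.2)) : FC (I.prod J) (x, w) F := by
  obtain ⟨S, hS⟩ := exists_manClock (I := J) hE w V (hf.2.1.mem_nhds hf.2.2.1)
  refine fc_of_limit (P := ℝ)
    (fun p : ℝ × (M × N) => (f p.2.1, g (S ((p.1, p.1), p.2.2)))) ?_ F ?_ (x, w) ?_
  · intro p
    exact stage_smooth f g hS (fun s : ℝ => (s, s)) (by fun_prop) 0 (by simp) p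
  · rintro ⟨y, z⟩
    rw [hF]
    simp only
    have h0 : ((0 : ℝ), (0 : ℝ)) = 0 := rfl
    rw [h0, hS.zero]
  · intro ε hε
    have hs : 0 < min (ε / 2) (1 / 2) := lt_min (by linarith) (by norm_num)
    have hs1 : min (ε / 2) (1 / 2) ≤ 1 / 2 := min_le_right _ _
    have hs2 : min (ε / 2) (1 / 2) ≤ ε / 2 := min_le_left _ _
    generalize min (ε / 2) (1 / 2) = s at hs hs1 hs2
    obtain ⟨G, hG⟩ := exists_stage_diffeo f g hS (s, s) (by
      show |s| < 1
      rw [abs_of_pos hs]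
      linarith)
    refine ⟨s, ?_, G, fun p => hG p.1 p.2,
      fc_free_stage f x g w q V hf hx S hS s hs hs1 G hG⟩
    rw [Real.norm_eq_abs, abs_of_pos hs]
    linarith


/-- a point with isolated returns -/
theorem fc_of_isolated {r : ℕ∞} (F : M ≃ₘ^r⟮I, I⟯ M) (p : M) (h : IsolatedReturns F p) :
    FC I p F := by
  obtain ⟨J, hJ, hU⟩ := h
  refine fc_of_family (P := ℝ) (fun z : ℝ × M => F z.2)
    (fun q => (F.contMDiff.comp contMDiff_snd).contMDiffAt) F (fun q => rfl) p J hJ ?_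
  intro U hUp ε hε
  obtain ⟨y, hy, n, hn, hny, hi⟩ := hU U hUp
  exact ⟨0, by simpa using hε, F, fun q => rfl, y, hy, n, hn, hny, hi⟩

end Pool.Agent.SC
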