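import Pool.Agent.Lib.MP_1e8d1a_an.SB.Fc
import Pool.Agent.Lib.MP_1e8d1a_an.SC.ClkF
import Pool.Agent.Lib.MP_1e8d1a_an.SC.RotD

/-! The closing lemma for `f × R_α` in the form `FC`. -/

open scoped ContDiff Manifold Topology

namespace Pool.Agent.SC

section

variable {E : Type} [NormedAddCommGroup E] [NormedSpace ℝ E] {H : Type} [TopologicalSpace H]
  {I : ModelWithCorners ℝ E H} {W : Type} [TopologicalSpace W] [ChartedSpace H W]

theorem fc_parabolic [FiniteDimensional ℝ E] [T2Space W] [CompactSpace W]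
    [IsManifold I ∞ W] [I.Boundaryless] {r : ℕ∞} (F : W ≃ₘ^r⟮I, I⟯ W) (ψ : ℝ → W → W)
    (Θ : W → Circle) (hψ0 : ∀ q, ψ 0 q = q) (hψ : ∀ u v q, ψ (u + v) q = ψ u (ψ v q))
    (hψC : ContMDiff (𝓘(ℝ, ℝ).prod I) I r (fun z : ℝ × W => ψ z.1 z.2))
    (hΘ : ContMDiff I (𝓡 1) r Θ)
    (hΘψ : ∀ u q, Θ (ψ u q) = Circle.exp (2 * Real.pi * u) * Θ q)
    (hFψ : ∀ u q, F (ψ u q) = ψ u (F q)) (hΘF : ∀ q, Θ (F q) = Θ q)
    (p : W) (hp : Θ p = 1) (k : ℕ) (hk : ClockReturns F ψ p k)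
    (s : ℝ) (hs : 0 < s) (hs1 : s ≤ 1 / 2) (G₀ : W ≃ₘ^r⟮I, I⟯ W)
    (hG₀ : ∀ q, G₀ q = F (clk ψ Θ 1 s s q)) : FC I p G₀ := by
  obtain ⟨hk0, U₀, hU₀, hret⟩ := hk
  have hkr : (0 : ℝ) < k := by exact_mod_cast hk0
  have hπ := Real.pi_pos
  have hcoe : Continuous fun z : Circle => (z : ℂ) := continuous_subtype_val
  refine fc_of_family (P := ℝ) (fun z : ℝ × W =>
      F (clk ψ Θ (Real.cos z.1) s (Real.sqrt (s ^ 2 - Real.sin z.1 ^ 2)) z.2))
    (fun q => (contMDiffAt_families F ψ Θ hψC hΘ q).1 s hs hs1) G₀ ?_ p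
    (U₀ ∩ {q | ‖((Θ q : Circle) : ℂ) - 1‖ < s / k}) ?_ ?_
  · intro q
    simp only [Real.cos_zero, Real.sin_zero]
    rw [hG₀, show s ^ 2 - (0 : ℝ) ^ 2 = s ^ 2 by ring, Real.sqrt_sq hs.le]
  · refine Filter.inter_mem hU₀ ?_
    have hc : Continuous fun q => ‖((Θ q : Circle) : ℂ) - 1‖ :=
      ((hcoe.comp hΘ.continuous).sub continuous_const).norm
    refine (isOpen_lt hc continuous_const).mem_nhds ?_
    show ‖((Θ p : Circle) : ℂ) - 1‖ < s / k
    rw [hp, Circle.coe_one, sub_self, norm_zero]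
    positivity
  intro U hU ε hε
  -- neighbourhoods
  have hψc : Continuous fun z : ℝ × W => ψ z.1 z.2 := hψC.continuous
  have hmem : (fun z : ℝ × W => ψ z.1 z.2) ⁻¹' (U ∩ U₀) ∈ 𝓝 ((0 : ℝ), p) := by
    apply hψc.continuousAt
    simp only [hψ0]
    exact Filter.inter_mem hU hU₀
  rw [nhds_prod_eq, Filter.mem_prod_iff] at hmem
  obtain ⟨T, hT, U₁, hU₁, hTU⟩ := hmem
  obtain ⟨u₀, hu₀, hball⟩ := Metric.mem_nhds_iff.1 hT
  have hin : ∀ u : ℝ, |u| < u₀ → ∀ q ∈ U₁, ψ u q ∈ U ∩ U₀ := by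
    intro u hu q hq
    have h1 : (u, q) ∈ T ×ˢ U₁ := ⟨hball (by simpa using hu), hq⟩
    exact hTU h1
  have harg : ContinuousAt (fun q => Complex.arg ((Θ q : Circle) : ℂ) / (2 * Real.pi)) p := by
    have h1 : ContinuousAt Complex.arg ((Θ p : Circle) : ℂ) := by
      apply Complex.continuousAt_arg
      rw [hp]
      simp
    have h2 : ContinuousAt (fun q => ((Θ q : Circle) : ℂ)) p :=
      (hcoe.comp hΘ.continuous).continuousAt
    exact (ContinuousAt.comp (f := fun q => ((Θ q : Circle) : ℂ)) h1 h2).div_const _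
  have hU₂ : U₁ ∩ {q | |Complex.arg ((Θ q : Circle) : ℂ) / (2 * Real.pi)| < u₀} ∈ 𝓝 p := by
    refine Filter.inter_mem hU₁ ?_
    have h1 : Filter.Tendsto (fun q => |Complex.arg ((Θ q : Circle) : ℂ) / (2 * Real.pi)|) (𝓝 p)
        (𝓝 0) := by
      have h3 : |Complex.arg ((Θ p : Circle) : ℂ) / (2 * Real.pi)| = 0 := by
        rw [hp]; simp
      have h2 : Filter.Tendsto (fun q => |Complex.arg ((Θ q : Circle) : ℂ) / (2 * Real.pi)|) (𝓝 p)
        (𝓝 |Complex.arg ((Θ p : Circle) : ℂ) / (2 * Real.pi)|) := harg.abs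
      rw [h3] at h2
      exact h2
    exact h1 (Iio_mem_nhds hu₀)
  -- the integer N
  have hμ : 0 < min ε (min (Real.pi / 2) s) := by positivity
  obtain ⟨N, hN⟩ := exists_nat_gt (Real.pi * k / min ε (min (Real.pi / 2) s))
  obtain ⟨n, hNn, hn0, ⟨q₁, hq₁, hz₁⟩, hno⟩ := hret _ hU₂ N
  have hnr : (0 : ℝ) < n := by exact_mod_cast hn0
  set om : ℝ := Real.pi * k / n with hom
  have hom0 : 0 < om := by positivity
  have homn : om * n = Real.pi * k := by rw [hom]; field_simp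
  have homμ : om < min ε (min (Real.pi / 2) s) := by
    have h1 : Real.pi * k / min ε (min (Real.pi / 2) s) < n :=
      lt_of_lt_of_le hN (by exact_mod_cast hNn)
    rw [div_lt_iff₀ hμ] at h1
    rw [hom, div_lt_iff₀ hnr]
    linarith
  have homε : om < ε := lt_of_lt_of_le homμ (min_le_left _ _)
  have homπ : om < Real.pi / 2 :=
    lt_of_lt_of_le homμ ((min_le_right _ _).trans (min_le_left _ _))
  have homs : om < s := lt_of_lt_of_le homμ ((min_le_right _ _).trans (min_le_right _ _))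
  have hsin : Real.sin om < s := (Real.sin_lt hom0).trans homs
  obtain ⟨hp1, hp2, lam, hlam, h1, h2, h3⟩ := params hs hs1 hom0 homπ hsin
  obtain ⟨G, hG⟩ := exists_clk_diffeo F ψ Θ hψ0 hψ hψC hΘ hΘψ hp1 hp2
  -- the point
  set u : ℝ := Complex.arg ((Θ q₁ : Circle) : ℂ) / (2 * Real.pi) with hu
  have hcomm : ∀ (v : ℝ) (m : ℕ) (q : W), (F : W → W)^[m] (ψ v q) = ψ v ((F : W → W)^[m] q) := by
    intro v m q
    have hc : Function.Commute (F : W → W) (ψ v) := fun q => hFψ v q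
    exact (hc.iterate_left m) q
  have hΘq : Θ (ψ (-u) q₁) = 1 := by
    have h4 : 2 * Real.pi * -u = - Complex.arg ((Θ q₁ : Circle) : ℂ) := by
      rw [hu]; field_simp
    rw [hΘψ, h4, Circle.exp_neg, Circle.exp_arg]
    simp
  have huabs : |-u| < u₀ := by rw [abs_neg]; exact hq₁.2
  have hqU : ψ (-u) q₁ ∈ U ∩ U₀ := hin _ huabs q₁ hq₁.1
  have hit := iterate_clk (F : W → W) ψ Θ hψ0 hψ hΘψ hFψ hΘF hlam hom0 homπ h1 h2 hp2
    (G : W → W) hG (ψ (-u) q₁) hΘq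
  refine ⟨om, by rw [Real.norm_eq_abs, abs_of_pos hom0]; exact homε, G, hG, ψ (-u) q₁, hqU.1, n,
    hn0, ?_, ?_⟩
  · rw [(hit n).1]
    have h5 : Ph lam (n * om) / Real.pi = (k : ℝ) := by
      rw [show (n : ℝ) * om = k * Real.pi by linarith, Ph_nat_mul_pi]
      field_simp
    rw [h5, ← hψ, add_comm, hψ, hcomm]
    exact (hin _ huabs _ hz₁.1).1
  · intro i hi0 hin' hJ
    have hir : (0 : ℝ) < i := by exact_mod_cast hi0
    by_cases hd : n ∣ i * k
    · obtain ⟨l, hl⟩ := hd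
      have hl0 : 0 < l := by
        rcases Nat.eq_zero_or_pos l with h | h
        · rw [h, mul_zero] at hl
          have : 0 < i * k := Nat.mul_pos hi0 hk0
          omega
        · exact h
      have hlk : l < k := by
        have h6 : n * l < n * k := by
          rw [← hl]
          exact Nat.mul_lt_mul_of_pos_right hin' hk0
        exact Nat.lt_of_mul_lt_mul_left h6
      have h7 : (i : ℝ) * om = l * Real.pi := by
        have h8 : (i : ℝ) * k = n * l := by exact_mod_cast hl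
        rw [hom]
        field_simp
        linarith
      have h9 := hno i l hi0 hin' hl0 hlk (by rw [hl, mul_comm]) (ψ (-u) q₁) hqU.2
      apply h9
      have h10 := (hit i).1
      rw [h7, Ph_nat_mul_pi, mul_div_cancel_right₀ _ hπ.ne'] at h10
      rw [← h10]
      exact hJ.1
    · have h11 := pt_sep (lam := lam) (s := s) (om := om) (k := k) (n := n) (j := i) hk0 hn0 homn
        homπ hs (by linarith) h3 hd
      have h12 : ‖((Θ ((G : W → W)^[i] (ψ (-u) q₁)) : Circle) : ℂ) - 1‖ < s / k := hJ.2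
      rw [(hit i).2] at h12
      linarith

private lemma fc_clock_one [FiniteDimensional ℝ E] [T2Space W] [CompactSpace W]
    [IsManifold I ∞ W] [I.Boundaryless] {r : ℕ∞} (F : W ≃ₘ^r⟮I, I⟯ W) (ψ : ℝ → W → W)
    (Θ : W → Circle) (hψ0 : ∀ q, ψ 0 q = q) (hψ : ∀ u v q, ψ (u + v) q = ψ u (ψ v q))
    (hψC : ContMDiff (𝓘(ℝ, ℝ).prod I) I r (fun z : ℝ × W => ψ z.1 z.2))
    (hΘ : ContMDiff I (𝓡 1) r Θ)
    (hΘψ : ∀ u q, Θ (ψ u q) = Circle.exp (2 * Real.pi * u) * Θ q)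
    (hFψ : ∀ u q, F (ψ u q) = ψ u (F q)) (hΘF : ∀ q, Θ (F q) = Θ q)
    (p : W) (hp : Θ p = 1) (k : ℕ) (hk : ClockReturns F ψ p k) : FC I p F := by
  refine fc_of_limit (P := ℝ) (fun z : ℝ × W => F (clk ψ Θ 1 z.1 z.1 z.2))
    (fun q => (contMDiffAt_families F ψ Θ hψC hΘ q).2) F ?_ p ?_
  · intro q
    simp [clk, tau, hψ0]
  · intro ε hε
    have hs0 : 0 < min (ε / 2) (1 / 2) := lt_min (by positivity) (by norm_num)
    have hs1 : min (ε / 2) (1 / 2 : ℝ) ≤ 1 / 2 := min_le_right _ _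
    have hs2 : min (ε / 2) (1 / 2 : ℝ) ≤ ε / 2 := min_le_left _ _
    obtain ⟨G, hG⟩ := exists_clk_diffeo F ψ Θ hψ0 hψ hψC hΘ hΘψ
      (a := 1) (s := min (ε / 2) (1 / 2)) (b := min (ε / 2) (1 / 2)) (by ring)
      (by rw [abs_of_pos hs0]; linarith)
    refine ⟨min (ε / 2) (1 / 2), ?_, G, hG, ?_⟩
    · rw [Real.norm_eq_abs, abs_of_pos hs0]; linarith
    · exact fc_parabolic F ψ Θ hψ0 hψ hψC hΘ hΘψ hFψ hΘF p hp k hk _ hs0 hs1 G hG

theorem fc_clock [FiniteDimensional ℝ E] [T2Space W] [CompactSpace W]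
    [IsManifold I ∞ W] [I.Boundaryless] {r : ℕ∞} (F : W ≃ₘ^r⟮I, I⟯ W) (ψ : ℝ → W → W)
    (Θ : W → Circle) (hψ0 : ∀ q, ψ 0 q = q) (hψ : ∀ u v q, ψ (u + v) q = ψ u (ψ v q))
    (hψC : ContMDiff (𝓘(ℝ, ℝ).prod I) I r (fun z : ℝ × W => ψ z.1 z.2))
    (hΘ : ContMDiff I (𝓡 1) r Θ)
    (hΘψ : ∀ u q, Θ (ψ u q) = Circle.exp (2 * Real.pi * u) * Θ q)
    (hFψ : ∀ u q, F (ψ u q) = ψ u (F q)) (hΘF : ∀ q, Θ (F q) = Θ q)
    (p : W) (k : ℕ) (hk : ClockReturns F ψ p k) : FC I p F := by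
  refine fc_clock_one F ψ (fun q => (Θ p)⁻¹ * Θ q) hψ0 hψ hψC (contMDiff_const.mul hΘ) ?_ hFψ ?_ p
    (inv_mul_cancel _) k hk
  · intro u q
    rw [hΘψ, mul_left_comm]
  · intro q
    rw [hΘF]

end

variable {V : Type} [NormedAddCommGroup V] [NormedSpace ℝ V] [FiniteDimensional ℝ V]
  {H : Type} [TopologicalSpace H] {I : ModelWithCorners ℝ V H} [I.Boundaryless]
  {M : Type} [TopologicalSpace M] [T2Space M] [CompactSpace M] [ChartedSpace H M]
  [IsManifold I ∞ M]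

theorem fc_rational_turns {r : ℕ∞} (f : M ≃ₘ^r⟮I, I⟯ M) (x : M) (w : Circle) (P : ℤ) (Q k : ℕ)
    (hQ : 0 < Q) (hk : 0 < k)
    (hret : ∀ U ∈ 𝓝 x, ∀ N : ℕ, ∃ n : ℕ, N ≤ n ∧ 0 < n ∧
      (∃ m : ℤ, m * Q = n * P + k ∧ IsCoprime (n : ℤ) m) ∧ ∃ y ∈ U, (f : M → M)^[n] y ∈ U)
    (F : (M × Circle) ≃ₘ^r⟮I.prod (𝓡 1), I.prod (𝓡 1)⟯ (M × Circle))
    (hF : ∀ y z, F (y, z) = (f y, rtc P Q * z)) :
    FC (I.prod (𝓡 1)) (x, w) F := by
  have hQ' : (Q : ℝ) ≠ 0 := by exact_mod_cast hQ.ne'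
  obtain ⟨ψ, hψ⟩ : ∃ ψ : ℝ → M × Circle → M × Circle,
      ψ = fun u q => (q.1, Circle.exp (2 * Real.pi * (u / Q)) * q.2) := ⟨_, rfl⟩
  obtain ⟨Θ, hΘ⟩ : ∃ Θ : M × Circle → Circle, Θ = fun q => q.2 ^ Q := ⟨_, rfl⟩
  have hψn : ∀ (l : ℕ) (y : M) (z : Circle), ψ l (y, z) = (y, rtc l Q * z) := by
    intro l y z
    rw [hψ]
    simp [rtc]
  refine fc_clock F ψ Θ ?_ ?_ ?_ ?_ ?_ ?_ ?_ (x, w) k ?_
  · intro q
    rw [hψ]
    simp
  · intro u v q
    rw [hψ]
    simp only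
    rw [← mul_assoc, ← Circle.exp_add]
    congr 3
    ring
  · rw [hψ]
    refine ContMDiff.prodMk (contMDiff_fst.comp contMDiff_snd) ?_
    refine ContMDiff.mul ?_ (contMDiff_snd.comp contMDiff_snd)
    refine contMDiff_circleExp.comp ?_
    have h1 : ContDiff ℝ r (fun u : ℝ => 2 * Real.pi * (u / Q)) := by fun_prop
    exact h1.contMDiff.comp contMDiff_fst
  · rw [hΘ]
    exact contMDiff_snd.pow Q
  · intro u q
    rw [hψ, hΘ]
    simp only
    rw [mul_pow, ← Circle.exp_natCast_mul]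
    congr 2
    field_simp
  · intro u q
    obtain ⟨y, z⟩ := q
    rw [hψ]
    simp only
    rw [hF, hF]
    simp only
    rw [mul_left_comm]
  · intro q
    obtain ⟨y, z⟩ := q
    rw [hΘ]
    simp only
    rw [hF]
    simp only
    rw [mul_pow, rtc_pow, rtc_mul_self _ hQ, one_mul]
  · -- returns
    obtain ⟨c, hc, hcl⟩ := rtc_lower hQ
    refine ⟨hk, {q | ‖((q.2 : Circle) : ℂ) - w‖ < c}, ?_, ?_⟩
    · refine IsOpen.mem_nhds ?_ ?_
      · refine isOpen_lt ?_ continuous_const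
        exact ((continuous_subtype_val.comp continuous_snd).sub continuous_const).norm
      · simpa using hc
    · intro U hU N
      obtain ⟨A, hA, B, hB, hAB⟩ := mem_nhds_prod_iff.1 hU
      obtain ⟨n, hNn, hn, ⟨m, hm, hco⟩, y, hyA, hyA'⟩ := hret A hA N
      have hwB : w ∈ B := mem_of_mem_nhds hB
      refine ⟨n, hNn, hn, ⟨(y, w), hAB ⟨hyA, hwB⟩, ?_⟩, ?_⟩
      · rw [hψn, RotA_iterate (f : M → M) F _ hF, rtc_pow, ← mul_assoc, rtc_add, ← hm,
          mul_comm m, rtc_mul_self _ hQ, one_mul]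
        exact hAB ⟨hyA', hwB⟩
      · intro i l hi hin hl hlk hil q hq hq'
        obtain ⟨y', z⟩ := q
        have hndvd : ¬ (Q : ℤ) ∣ i * P + l := by
          rintro ⟨j, hj⟩
          have hilZ : (i : ℤ) * k = l * n := by exact_mod_cast hil
          have hkZ : (k : ℤ) ≠ 0 := by exact_mod_cast hk.ne'
          have hQZ : (Q : ℤ) ≠ 0 := by exact_mod_cast hQ.ne'
          have h1 : (i : ℤ) * m = n * j := by
            apply mul_right_cancel₀ hQZ
            apply mul_right_cancel₀ hkZ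
            calc (i : ℤ) * m * Q * k = (i : ℤ) * k * (m * Q) := by ring
              _ = (l : ℤ) * n * (n * P + k) := by rw [hilZ, hm]
              _ = (n : ℤ) * ((l * n) * P + l * k) := by ring
              _ = (n : ℤ) * ((i * k) * P + l * k) := by rw [hilZ]
              _ = (n : ℤ) * k * (i * P + l) := by ring
              _ = (n : ℤ) * k * (Q * j) := by rw [hj]
              _ = n * j * Q * k := by ring
          have h2 : (n : ℤ) ∣ i := hco.dvd_of_dvd_mul_right ⟨j, h1⟩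
          have h3 : n ∣ i := by exact_mod_cast h2
          exact absurd (Nat.le_of_dvd hi h3) (not_le.2 hin)
        rw [hψn, RotA_iterate (f : M → M) F _ hF, rtc_pow, ← mul_assoc, rtc_add] at hq'
        simp only [Set.mem_ofPred_eq] at hq hq'
        have h1 := hcl _ hndvd
        have h2 : ((rtc (i * P + l) Q * z : Circle) : ℂ) - w =
            ((rtc (i * P + l) Q : ℂ) - 1) * z + ((z : ℂ) - w) := by
          rw [Circle.coe_mul]
          ring
        have h3 : ‖((rtc (i * P + l) Q : ℂ) - 1) * z‖ =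
            ‖(rtc (i * P + l) Q : ℂ) - 1‖ := by
          rw [norm_mul, Circle.norm_coe, mul_one]
        have h4 : ‖((rtc (i * P + l) Q : ℂ) - 1) * z‖ ≤
            ‖((rtc (i * P + l) Q * z : Circle) : ℂ) - w‖ + ‖(z : ℂ) - w‖ := by
          have e2 : ((rtc (i * P + l) Q : ℂ) - 1) * z =
              (((rtc (i * P + l) Q * z : Circle) : ℂ) - w) - ((z : ℂ) - w) := by
            rw [h2]
            ring
          rw [e2]
          exact norm_sub_le _ _
        rw [h3] at h4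
        linarith

private lemma FcRot_smooth {r : ℕ∞} (c : ℝ) :
    ContMDiff (𝓘(ℝ, ℝ).prod (I.prod (𝓡 1))) (I.prod (𝓡 1)) r
      (fun z : ℝ × (M × Circle) => (z.2.1, Circle.exp (c + z.1) * z.2.2)) := by
  have h1 : ContMDiff (𝓘(ℝ, ℝ).prod (I.prod (𝓡 1))) I r
      (fun z : ℝ × (M × Circle) => z.2.1) := contMDiff_fst.comp contMDiff_snd
  have h2 : ContMDiff (𝓘(ℝ, ℝ).prod (I.prod (𝓡 1))) (𝓡 1) r
      (fun z : ℝ × (M × Circle) => z.2.2) := contMDiff_snd.comp contMDiff_snd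
  have h3 : ContMDiff (𝓘(ℝ, ℝ).prod (I.prod (𝓡 1))) 𝓘(ℝ, ℝ) r
      (fun z : ℝ × (M × Circle) => c + z.1) := by
    have hc : ContMDiff 𝓘(ℝ, ℝ) 𝓘(ℝ, ℝ) r (fun t : ℝ => c + t) :=
      (contDiff_const.add contDiff_id).contMDiff
    exact hc.comp contMDiff_fst
  have h4 : ContMDiff (𝓘(ℝ, ℝ).prod (I.prod (𝓡 1))) (𝓡 1) r
      (fun z : ℝ × (M × Circle) => Circle.exp (c + z.1)) :=
    (contMDiff_circleExp (m := r)).comp h3
  exact h1.prodMk (h4.mul h2)

private lemma FcRot_smooth' {r : ℕ∞} (c : ℝ) :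
    ContMDiff (I.prod (𝓡 1)) (I.prod (𝓡 1)) r
      (fun z : M × Circle => (z.1, Circle.exp c * z.2)) :=
  contMDiff_fst.prodMk (contMDiff_const.mul contMDiff_snd)

/-- the rotation -/
private noncomputable def FcRot_rot {r : ℕ∞} (c : ℝ) :
    (M × Circle) ≃ₘ^r⟮I.prod (𝓡 1), I.prod (𝓡 1)⟯ (M × Circle) where
  toFun z := (z.1, Circle.exp c * z.2)
  invFun z := (z.1, Circle.exp (-c) * z.2)
  left_inv z := by
    simp only [← mul_assoc, ← Circle.exp_add]
    simp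
  right_inv z := by
    simp only [← mul_assoc, ← Circle.exp_add]
    simp
  contMDiff_toFun := FcRot_smooth' c
  contMDiff_invFun := FcRot_smooth' (-c)

theorem fc_rot {r : ℕ∞} (f : M ≃ₘ^r⟮I, I⟯ M) (x : M)
    (hx : NonwanderingPt f x) (w : Circle) (α : ℝ)
    (F : (M × Circle) ≃ₘ^r⟮I.prod (𝓡 1), I.prod (𝓡 1)⟯ (M × Circle))
    (hF : ∀ y z, F (y, z) = (f y, Circle.exp α * z)) :
    FC (I.prod (𝓡 1)) (x, w) F := by
  have hcomp : ∀ z : ℝ × (M × Circle), (f z.2.1, Circle.exp (α + z.1) * z.2.2) =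
      F (z.2.1, Circle.exp (0 + z.1) * z.2.2) := by
    intro z
    rw [hF, ← mul_assoc, ← Circle.exp_add, zero_add]
  refine fc_of_limit (I := I.prod (𝓡 1)) (P := ℝ)
    (fun z : ℝ × (M × Circle) => (f z.2.1, Circle.exp (α + z.1) * z.2.2)) ?_ F ?_ (x, w) ?_
  · intro q
    simp only [hcomp]
    exact (F.contMDiff.comp (FcRot_smooth 0)).contMDiffAt
  · rintro ⟨y, z⟩
    simp [hF]
  · intro ε hε
    have hpi : (0 : ℝ) < 2 * Real.pi := by positivity
    obtain ⟨T, hT1, hT2⟩ := nw_triples (α / (2 * Real.pi)) (ε / (2 * Real.pi)) (by positivity)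
    obtain ⟨⟨P, Q, k⟩, ht, hret⟩ := nw_pigeon f.continuous hx T hT2
    obtain ⟨hQ, hk, hPQ⟩ := hT1 _ ht
    simp only at hQ hk hPQ hret
    set t : ℝ := 2 * Real.pi * ((P : ℝ) / Q) - α with htdef
    refine ⟨t, ?_, (FcRot_rot t).trans F, ?_, ?_⟩
    · rw [Real.norm_eq_abs]
      have h1 : t = 2 * Real.pi * ((P : ℝ) / Q - α / (2 * Real.pi)) := by
        rw [htdef]
        field_simp
      rw [h1, abs_mul, abs_of_pos hpi]
      calc 2 * Real.pi * |(P : ℝ) / Q - α / (2 * Real.pi)|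
          < 2 * Real.pi * (ε / (2 * Real.pi)) := mul_lt_mul_of_pos_left hPQ hpi
        _ = ε := by field_simp
    · rintro ⟨y, z⟩
      change F (y, Circle.exp t * z) = _
      rw [hF, ← mul_assoc, ← Circle.exp_add]
    · apply fc_rational_turns f x w P Q k hQ hk hret
      intro y z
      change F (y, Circle.exp t * z) = _
      rw [hF, ← mul_assoc, ← Circle.exp_add, rtc]
      congr 3
      rw [htdef]
      ring

end Pool.Agent.SC
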