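import Pool.Agent.Lib.MP_1e8d1a_an.SC.Defs3

/-! row sb-Or1 -/

open scoped ContDiff Manifold Topology

namespace Pool.Agent.SC

variable {E : Type} [NormedAddCommGroup E] [NormedSpace ℝ E] {H : Type} [TopologicalSpace H]
  {I : ModelWithCorners ℝ E H} {W : Type} [TopologicalSpace W] [ChartedSpace H W]

/-- The minimal period of a closed orbit.
PROOF.  `G = {u | ψ u w = w}` is a closed additive subgroup of `ℝ` (`IsFlow`, continuity, `W`
Hausdorff), different from `ℝ` (`hw`) and from `0` (`T`).  `AddSubgroup.dense_or_cyclic`: dense and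
closed would give `G = ℝ`; so `G = ℤ a`, `a ≠ 0`, `T₀ = |a|`.  `ψ u w = ψ v w ↔ ψ (u - v) w = w`. -/
theorem orbit_period [T2Space W] {r : ℕ∞} {ψ : ℝ → W → W} (hψ : IsFlow I r ψ) (w : W) (T : ℝ)
    (hT : T ≠ 0) (hTw : ψ T w = w) (hw : ∃ u, ψ u w ≠ w) :
    ∃ T₀ : ℝ, 0 < T₀ ∧ ∀ u v, ψ u w = ψ v w ↔ ∃ k : ℤ, u - v = k * T₀ := by
  obtain ⟨h0, hadd, hsm⟩ := hψ
  have hc : Continuous (fun u : ℝ => ψ u w) :=
    hsm.continuous.comp (continuous_id.prodMk continuous_const)
  let G : AddSubgroup ℝ :=
    { carrier := {u | ψ u w = w}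
      add_mem' := by
        intro a b ha hb
        change ψ (a + b) w = w
        rw [hadd, (show ψ b w = w from hb), (show ψ a w = w from ha)]
      zero_mem' := h0 w
      neg_mem' := by
        intro a ha
        change ψ (-a) w = w
        have h1 := hadd (-a) a w
        rw [neg_add_cancel, h0, (show ψ a w = w from ha)] at h1
        exact h1.symm }
  have hG : ∀ u, u ∈ G ↔ ψ u w = w := fun u => Iff.rfl
  have hcl : IsClosed (G : Set ℝ) := isClosed_eq hc continuous_const
  have hkey : ∀ u v, ψ u w = ψ v w ↔ u - v ∈ G := by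
    intro u v
    rw [hG]
    constructor
    · intro h
      have h1 := hadd (-v) u w
      have h2 := hadd (-v) v w
      rw [h, ← h2, neg_add_cancel, h0, show -v + u = u - v by ring] at h1
      exact h1
    · intro h
      have h1 := hadd v (u - v) w
      rw [h, show v + (u - v) = u by ring] at h1
      exact h1
  rcases AddSubgroup.dense_or_cyclic G with hd | ⟨a, ha⟩
  · exfalso
    obtain ⟨u, hu⟩ := hw
    have h1 : (G : Set ℝ) = Set.univ := by
      rw [← hcl.closure_eq]
      exact hd.closure_eq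
    have h2 : u ∈ (G : Set ℝ) := by
      rw [h1]
      exact Set.mem_univ u
    exact hu h2
  · have hm : ∀ u, u ∈ G ↔ ∃ k : ℤ, u = k * a := by
      intro u
      rw [ha, AddSubgroup.mem_closure_singleton]
      constructor
      · rintro ⟨k, hk⟩
        exact ⟨k, by rw [← hk, zsmul_eq_mul]⟩
      · rintro ⟨k, hk⟩
        exact ⟨k, by rw [hk, zsmul_eq_mul]⟩
    have ha0 : a ≠ 0 := by
      intro h
      obtain ⟨k, hk⟩ := (hm T).1 hTw
      rw [h, mul_zero] at hk
      exact hT hk
    refine ⟨|a|, abs_pos.2 ha0, fun u v => ?_⟩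
    rw [hkey, hm]
    rcases abs_choice a with h | h
    · rw [h]
    · rw [h]
      constructor
      · rintro ⟨k, hk⟩
        exact ⟨-k, by rw [hk]; push_cast; ring⟩
      · rintro ⟨k, hk⟩
        exact ⟨-k, by rw [hk]; push_cast; ring⟩

end Pool.Agent.SC
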