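import Pool.Agent.Lib.MP_1e8d1a_an.SB.Or2
import Pool.Agent.Lib.MP_1e8d1a_an.SB.Co3a

/-! row sb-Or3 -/

open scoped ContDiff Manifold Topology

namespace Pool.Agent.SC

variable {E : Type} [NormedAddCommGroup E] [NormedSpace ℝ E] {H : Type} [TopologicalSpace H]
  {I : ModelWithCorners ℝ E H} {W : Type} [TopologicalSpace W] [ChartedSpace H W]

/-- Along a nonconstant orbit there is a time at which the time is a `C^r` function of the point.
PROOF.  Let `ψ u₀ w ≠ w` (`h` with `T₀ / 2`).  `exists_cut` for `p = w`, `O = {ψ u₀ w}ᶜ` gives a smooth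
`θ : W → ℝ` with `θ w = 1`, `θ (ψ u₀ w) = 0`.  `φ u = θ (ψ u w)` is `C^r`, `r ≥ 1`, on `ℝ` and not
constant, so `deriv φ u₂ ≠ 0` for some `u₂` (`is_const_of_deriv_eq_zero`).  The inverse function
theorem (`ContDiffAt.toOpenPartialHomeomorph` or `HasStrictDerivAt.localInverse`) gives `τ` with
`τ (φ u) = u` near `u₂`; `τ` is `C^r` at every point `y` of a neighbourhood `Y` of `φ u₂`
(`OpenPartialHomeomorph.contDiffAt_symm_deriv` at `y`, the derivative of `φ` is not `0` near `u₂`).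
`O = θ ⁻¹' Y` (`Y` open), `κ = τ ∘ θ`. -/
theorem orbit_time [FiniteDimensional ℝ E] [T2Space W] [IsManifold I ∞ W] [I.Boundaryless]
    {r : ℕ∞} (hr : 1 ≤ r) {ψ : ℝ → W → W} (hψ : IsFlow I r ψ) {w : W} {T₀ : ℝ} (hT₀ : 0 < T₀)
    (h : ∀ u v, ψ u w = ψ v w ↔ ∃ k : ℤ, u - v = k * T₀) :
    ∃ (u₂ : ℝ) (O : Set W) (κ : W → ℝ), IsOpen O ∧ ψ u₂ w ∈ O ∧
      (∀ q ∈ O, ContMDiffAt I 𝓘(ℝ, ℝ) r κ q) ∧ ∀ᶠ u in 𝓝 u₂, κ (ψ u w) = u := by
  have hri : ((r : ℕ∞) : WithTop ℕ∞) ≤ ∞ := by exact_mod_cast le_top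
  have hr1 : (1 : WithTop ℕ∞) ≤ ((r : ℕ∞) : WithTop ℕ∞) := by exact_mod_cast hr
  have hr0 : ((r : ℕ∞) : WithTop ℕ∞) ≠ 0 := by
    intro h0
    rw [h0] at hr1
    exact absurd hr1 (by norm_num)
  have hψw : ContMDiff 𝓘(ℝ, ℝ) I r (fun u : ℝ => ψ u w) :=
    ContMDiff.comp (g := fun z : ℝ × W => ψ z.1 z.2) hψ.2.2 (contMDiff_id.prodMk contMDiff_const)
  have hne : ψ (T₀ / 2) w ≠ w := by
    intro h1
    have h2 : ψ (T₀ / 2) w = ψ 0 w := by rw [h1, hψ.1]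
    obtain ⟨k, hk⟩ := (h (T₀ / 2) 0).mp h2
    have h3 : (1 : ℝ) / 2 = k := by
      have h4 : T₀ * (1 / 2) = T₀ * k := by linarith
      exact mul_left_cancel₀ hT₀.ne' h4
    have h5 : (1 : ℝ) = 2 * k := by linarith
    have h6 : (1 : ℤ) = 2 * k := by exact_mod_cast h5
    omega
  obtain ⟨θ, hθ, hθs, hθ1⟩ := exists_cut (I := I) w {ψ (T₀ / 2) w}ᶜ isOpen_compl_singleton
    (fun h1 => hne h1.symm)
  have hθw : θ w = 1 := hθ1.self_of_nhds
  have hθ0 : θ (ψ (T₀ / 2) w) = 0 := by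
    apply image_eq_zero_of_notMem_tsupport
    intro h1
    exact hθs h1 rfl
  set φ : ℝ → ℝ := fun u => θ (ψ u w) with hφd
  have hφ : ContDiff ℝ r φ := by
    rw [← contMDiff_iff_contDiff]
    exact ContMDiff.comp (g := θ) (hθ.of_le hri) hψw
  have hφdiff : Differentiable ℝ φ := hφ.differentiable hr0
  obtain ⟨u₂, hu₂⟩ : ∃ u₂, deriv φ u₂ ≠ 0 := by
    by_contra hcon
    push Not at hcon
    have h1 := is_const_of_deriv_eq_zero hφdiff hcon 0 (T₀ / 2)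
    have h2 : φ 0 = 1 := by
      rw [hφd]
      show θ (ψ 0 w) = 1
      rw [hψ.1, hθw]
    have h3 : φ (T₀ / 2) = 0 := hθ0
    rw [h2, h3] at h1
    exact one_ne_zero h1
  have hder : HasFDerivAt φ
      ((ContinuousLinearEquiv.unitsEquivAut ℝ (Units.mk0 (deriv φ u₂) hu₂) : ℝ ≃L[ℝ] ℝ) :
        ℝ →L[ℝ] ℝ) u₂ := by
    have h1 : HasDerivAt φ (deriv φ u₂) u₂ := (hφdiff u₂).hasDerivAt
    exact h1.hasFDerivAt_equiv hu₂
  set e : OpenPartialHomeomorph ℝ ℝ :=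
    (hφ.contDiffAt (x := u₂)).toOpenPartialHomeomorph φ hder hr0 with he
  have hecoe : (e : ℝ → ℝ) = φ := rfl
  have hes : u₂ ∈ e.source := (hφ.contDiffAt (x := u₂)).mem_toOpenPartialHomeomorph_source hder hr0
  have hdc : Continuous (deriv φ) := hφ.continuous_deriv hr1
  have hopen : IsOpen {u : ℝ | deriv φ u ≠ 0} := isOpen_ne_fun hdc continuous_const
  set Y : Set ℝ := e.target ∩ e.symm ⁻¹' {u : ℝ | deriv φ u ≠ 0} with hY
  have hYo : IsOpen Y := e.isOpen_inter_preimage_symm hopen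
  refine ⟨u₂, θ ⁻¹' Y, fun q => e.symm (θ q), hYo.preimage hθ.continuous, ?_, ?_, ?_⟩
  · show φ u₂ ∈ Y
    refine ⟨?_, ?_⟩
    · rw [← hecoe]
      exact e.map_source hes
    · show deriv φ (e.symm (φ u₂)) ≠ 0
      have h1 : e.symm (φ u₂) = u₂ := e.left_inv hes
      rw [h1]
      exact hu₂
  · intro q hq
    have hq1 : θ q ∈ e.target := hq.1
    have hq2 : deriv φ (e.symm (θ q)) ≠ 0 := hq.2
    have h1 : ContDiffAt ℝ r e.symm (θ q) :=
      e.contDiffAt_symm_deriv hq2 hq1 (hφdiff (e.symm (θ q))).hasDerivAt hφ.contDiffAt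
    exact ContMDiffAt.comp (g := e.symm) q h1.contMDiffAt ((hθ q).of_le hri)
  · filter_upwards [e.open_source.mem_nhds hes] with u hu
    exact e.left_inv hu

/-- PROOF.  `u₂, O₂, κ₂` from `orbit_time`; let `z₁ = Circle.exp (2 π (u₁ / T₀))`.  Put
`O = (ψ (u₂ - u₁)) ⁻¹' O₂`, `κ q = Complex.exp (2 π i (κ₂ (ψ (u₂ - u₁) q) - u₂ + u₁) / T₀)`.  For `u`
near `u₁`: `ψ (u₂ - u₁) (ψ u w) = ψ (u + (u₂ - u₁)) w`, so `κ (ψ u w) = exp (2 π i u / T₀)`.  A point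
`z` near `z₁` is `Circle.exp (2 π (u / T₀))` with `u = u₁ + T₀ * arg (z₁⁻¹ z) / (2 π)` near `u₁`, and
`orb z = ψ u w` (`orb_exp`). -/
theorem orb_local_inverse [FiniteDimensional ℝ E] [T2Space W] [IsManifold I ∞ W]
    [I.Boundaryless] {r : ℕ∞} (hr : 1 ≤ r) {ψ : ℝ → W → W} (hψ : IsFlow I r ψ) {w : W} {T₀ : ℝ}
    (hT₀ : 0 < T₀) (h : ∀ u v, ψ u w = ψ v w ↔ ∃ k : ℤ, u - v = k * T₀) (z₁ : Circle) :
    ∃ (O : Set W) (κ : W → ℂ), IsOpen O ∧ orb ψ w T₀ z₁ ∈ O ∧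
      (∀ q ∈ O, ContMDiffAt I 𝓘(ℝ, ℂ) r κ q) ∧ ∀ᶠ z in 𝓝 z₁, κ (orb ψ w T₀ z) = z := by
  obtain ⟨u₂, O₂, κ₂, hO₂, hmem, hκ₂, hev⟩ := orbit_time hr hψ hT₀ h
  have hpi : (2 * Real.pi : ℝ) ≠ 0 := by positivity
  set u₁ : ℝ := T₀ * (Complex.arg (z₁ : ℂ) / (2 * Real.pi)) with hu₁
  have hz₁ : Circle.exp (2 * Real.pi * (u₁ / T₀)) = z₁ := by
    have h1 : 2 * Real.pi * (u₁ / T₀) = Complex.arg (z₁ : ℂ) := by
      rw [hu₁]
      field_simp
    rw [h1, Circle.exp_arg]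
  have hψs : ContMDiff I I r (ψ (u₂ - u₁)) :=
    ContMDiff.comp (g := fun z : ℝ × W => ψ z.1 z.2) hψ.2.2 (contMDiff_const.prodMk contMDiff_id)
  refine ⟨ψ (u₂ - u₁) ⁻¹' O₂, fun q => Complex.exp
    (((2 * Real.pi * ((κ₂ (ψ (u₂ - u₁) q) - u₂ + u₁) / T₀) : ℝ) : ℂ) * Complex.I),
    hO₂.preimage hψs.continuous, ?_, ?_, ?_⟩
  · show ψ (u₂ - u₁) (ψ u₁ w) ∈ O₂
    rw [← hψ.2.1, sub_add_cancel]
    exact hmem
  · intro q hq
    have h1 : ContMDiffAt I 𝓘(ℝ, ℝ) r (fun q => κ₂ (ψ (u₂ - u₁) q)) q :=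
      ContMDiffAt.comp (g := κ₂) q (hκ₂ _ hq) (hψs q)
    have h2 : ContDiff ℝ r (fun x : ℝ => Complex.exp
        (((2 * Real.pi * ((x - u₂ + u₁) / T₀) : ℝ) : ℂ) * Complex.I)) := by
      apply ContDiff.cexp
      apply ContDiff.mul _ contDiff_const
      apply Complex.ofRealCLM.contDiff.comp
      apply ContDiff.mul contDiff_const
      exact ((contDiff_id.sub contDiff_const).add contDiff_const).div_const _
    exact ContMDiffAt.comp (g := fun x : ℝ => Complex.exp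
        (((2 * Real.pi * ((x - u₂ + u₁) / T₀) : ℝ) : ℂ) * Complex.I)) q
      h2.contMDiff.contMDiffAt h1
  · set s : Circle → ℝ := fun z => Complex.arg ((z₁⁻¹ * z : Circle) : ℂ) with hs
    set u : Circle → ℝ := fun z => u₁ + T₀ * (s z / (2 * Real.pi)) with hu
    have hexp : ∀ z, Circle.exp (2 * Real.pi * (u z / T₀)) = z := by
      intro z
      have h1 : 2 * Real.pi * (u z / T₀) = 2 * Real.pi * (u₁ / T₀) + s z := by
        rw [hu]
        field_simp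
      rw [h1, Circle.exp_add, hz₁, hs]
      show z₁ * Circle.exp (Complex.arg ((z₁⁻¹ * z : Circle) : ℂ)) = z
      rw [Circle.exp_arg, mul_inv_cancel_left]
    have hsc : ContinuousAt s z₁ := by
      have h1 : ContinuousAt (fun z : Circle => ((z₁⁻¹ * z : Circle) : ℂ)) z₁ :=
        ((clkA_coe (r := r)).continuous.comp (continuous_const.mul continuous_id)).continuousAt
      have h2 : ((z₁⁻¹ * z₁ : Circle) : ℂ) ∈ Complex.slitPlane := by
        rw [inv_mul_cancel, Circle.coe_one]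
        exact Complex.one_mem_slitPlane
      exact ContinuousAt.comp (g := Complex.arg) (Complex.continuousAt_arg h2) h1
    have hs1 : s z₁ = 0 := by
      rw [hs]
      show Complex.arg ((z₁⁻¹ * z₁ : Circle) : ℂ) = 0
      rw [inv_mul_cancel, Circle.coe_one, Complex.arg_one]
    have huc : ContinuousAt (fun z => u z + (u₂ - u₁)) z₁ :=
      (continuousAt_const.add (continuousAt_const.mul (hsc.div_const _))).add continuousAt_const
    have hu1 : u z₁ + (u₂ - u₁) = u₂ := by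
      rw [hu]
      show u₁ + T₀ * (s z₁ / (2 * Real.pi)) + (u₂ - u₁) = u₂
      rw [hs1]
      ring
    have hev2 : ∀ᶠ z in 𝓝 z₁, κ₂ (ψ (u z + (u₂ - u₁)) w) = u z + (u₂ - u₁) := by
      have h1 : Filter.Tendsto (fun z => u z + (u₂ - u₁)) (𝓝 z₁) (𝓝 u₂) := by
        have h2 := huc.tendsto
        rwa [hu1] at h2
      exact h1.eventually hev
    filter_upwards [hev2] with z hz
    have horb : orb ψ w T₀ z = ψ (u z) w := by
      rw [← orb_exp hT₀ h (u z), hexp z]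
    have h3 : ψ (u₂ - u₁) (orb ψ w T₀ z) = ψ (u z + (u₂ - u₁)) w := by
      rw [horb, ← hψ.2.1, add_comm]
    show Complex.exp (((2 * Real.pi * ((κ₂ (ψ (u₂ - u₁) (orb ψ w T₀ z)) - u₂ + u₁) / T₀) : ℝ) : ℂ)
      * Complex.I) = z
    rw [h3, hz]
    have h4 : u z + (u₂ - u₁) - u₂ + u₁ = u z := by ring
    rw [h4]
    have h5 := congrArg (fun c : Circle => (c : ℂ)) (hexp z)
    rw [← h5]
    exact (Circle.coe_exp _).symm

end Pool.Agent.SC
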