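import Mathlib

/-! row sb-Or4 -/

open scoped ContDiff Manifold Topology

namespace Pool.Agent.SC

variable {E : Type} [NormedAddCommGroup E] [NormedSpace ℝ E] {H : Type} [TopologicalSpace H]
  {I : ModelWithCorners ℝ E H} {W : Type} [TopologicalSpace W] [ChartedSpace H W]

/-- A left inverse from local left inverses.
PROOF.  `exists_contMDiffMap_forall_mem_convex_of_local` (or the section version) with
`t q = {y : ℂ | ∀ z : Circle, γ z = q → y = z}`, convex (a point if `q = γ z`, by injectivity, else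
everything).  Local solution at `x ∉ range γ`: `U = (range γ)ᶜ` (`range γ` is compact, hence closed),
`g = 0`.  At `x = γ z₁`: `O, κ`, `A = interior {z | κ (γ z) = z}`, `z₁ ∈ A`; `γ '' Aᶜ` is compact, hence
closed, and does not contain `x`; `U = O ∩ (γ '' Aᶜ)ᶜ`, `g = κ`. -/
theorem exists_left_inverse [FiniteDimensional ℝ E] [T2Space W] [CompactSpace W]
    [IsManifold I ∞ W] [I.Boundaryless] {r : ℕ∞} (γ : Circle → W) (hγ : Continuous γ)
    (hinj : Function.Injective γ)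
    (hloc : ∀ z₁ : Circle, ∃ (O : Set W) (κ : W → ℂ), IsOpen O ∧ γ z₁ ∈ O ∧
      (∀ q ∈ O, ContMDiffAt I 𝓘(ℝ, ℂ) r κ q) ∧ ∀ᶠ z in 𝓝 z₁, κ (γ z) = z) :
    ∃ Θ : W → ℂ, ContMDiff I 𝓘(ℝ, ℂ) r Θ ∧ ∀ z, Θ (γ z) = z := by
  have hclosed : IsClosed (Set.range γ) := (isCompact_range hγ).isClosed
  have key : ∃ g : ContMDiffMap I 𝓘(ℝ, ℂ) W ℂ r,
      ∀ q, g q ∈ {y : ℂ | ∀ z : Circle, γ z = q → y = z} := by
    apply exists_contMDiffMap_forall_mem_convex_of_local I
      (t := fun q => {y : ℂ | ∀ z : Circle, γ z = q → y = z})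
    · intro q y1 h1 y2 h2 a b _ _ hab z hz
      rw [h1 z hz, h2 z hz, ← add_smul, hab, one_smul]
    · intro x
      by_cases hx : x ∈ Set.range γ
      · obtain ⟨z₁, rfl⟩ := hx
        obtain ⟨O, κ, hO, hzO, hκ, hev⟩ := hloc z₁
        obtain ⟨A, hA1, hA2, hA3⟩ := mem_nhds_iff.1 hev
        have hC : IsClosed (γ '' Aᶜ) := (hA2.isClosed_compl.isCompact.image hγ).isClosed
        refine ⟨O ∩ (γ '' Aᶜ)ᶜ, (hO.inter hC.isOpen_compl).mem_nhds ⟨hzO, ?_⟩, κ, ?_, ?_⟩
        · rintro ⟨z, hz, hzz⟩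
          exact hz (hinj hzz ▸ hA3)
        · intro q hq
          exact (hκ q hq.1).contMDiffWithinAt
        · intro y hy z hz
          have hzA : z ∈ A := by
            by_contra hc
            exact hy.2 ⟨z, hc, hz⟩
          have h3 : κ (γ z) = z := hA1 hzA
          rw [← hz]
          exact h3
      · refine ⟨(Set.range γ)ᶜ, hclosed.isOpen_compl.mem_nhds hx, fun _ => 0, contMDiffOn_const, ?_⟩
        intro y hy z hz
        exact absurd ⟨z, hz⟩ hy
  obtain ⟨g, hg⟩ := key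
  exact ⟨g, g.contMDiff, fun z => hg (γ z) z rfl⟩

end Pool.Agent.SC
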