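import Pool.Agent.Lib.MP_1e8d1a_an.SB.Defs
import Pool.Agent.Lib.MP_1e8d1a_an.SC.ClkA

/-! row sb-Or5 -/

open scoped ContDiff Manifold Topology

namespace Pool.Agent.SC

variable {E : Type} [NormedAddCommGroup E] [NormedSpace ℝ E] {H : Type} [TopologicalSpace H]
  {I : ModelWithCorners ℝ E H} {W : Type} [TopologicalSpace W] [ChartedSpace H W]
  {E₁ : Type} [NormedAddCommGroup E₁] [NormedSpace ℝ E₁] {H₁ : Type} [TopologicalSpace H₁]
  {I₁ : ModelWithCorners ℝ E₁ H₁} {S : Type} [TopologicalSpace S] [ChartedSpace H₁ S]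
  {E' : Type} [NormedAddCommGroup E'] [NormedSpace ℝ E'] {H' : Type} [TopologicalSpace H']
  {J : ModelWithCorners ℝ E' H'} {M : Type} [TopologicalSpace M] [ChartedSpace H' M]

/-- the argument, near a nonzero number -/
theorem Or5_exp_arg {a b : ℂ} (ha : a ≠ 0) (hb : b ≠ 0) :
    Circle.exp (Complex.arg b) = Circle.exp (Complex.arg a + Complex.arg (b / a)) := by
  apply Subtype.ext
  rw [Circle.coe_exp, Circle.coe_exp]
  have h1 : ∀ c : ℂ, c ≠ 0 → Complex.exp (Complex.arg c * Complex.I) = c / (‖c‖ : ℂ) := by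
    intro c hc
    rw [eq_div_iff (by exact_mod_cast (norm_pos_iff.2 hc).ne'), mul_comm]
    exact Complex.norm_mul_exp_arg_mul_I c
  push_cast
  rw [add_mul, Complex.exp_add, h1 b hb, h1 a ha, h1 _ (div_ne_zero hb ha), norm_div]
  have ha' : (‖a‖ : ℂ) ≠ 0 := by exact_mod_cast (norm_pos_iff.2 ha).ne'
  have hb' : (‖b‖ : ℂ) ≠ 0 := by exact_mod_cast (norm_pos_iff.2 hb).ne'
  push_cast
  field_simp

/-- PROOF.  `O = {q | Θ q ≠ 0}`, `ρ q = Circle.exp (Complex.arg (Θ q))`.  At `q₀ ∈ O`: for `q` near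
`q₀`, `Θ q / Θ q₀` is in the slit plane and `ρ q = ρ q₀ * Circle.exp (arg (Θ q / Θ q₀))`
(`Θ q / |Θ q| = (Θ q₀ / |Θ q₀|) ⋅ ...`; compare in `ℂ` or `Complex.arg_mul_coe_angle`), and
`q ↦ arg (Θ q / Θ q₀) = im (log (Θ q / Θ q₀))` is `C^r` at `q₀` (`Complex.contDiffAt_log`),
`contMDiff_circleExp`. `ρ (γ z) = z`: `Circle.exp_arg`. -/
theorem crEmbedding_of_left_inverse {r : ℕ∞} {γ : Circle → W} (hγ : ContMDiff (𝓡 1) I r γ)
    {Θ : W → ℂ} (hΘ : ContMDiff I 𝓘(ℝ, ℂ) r Θ) (h : ∀ z, Θ (γ z) = z) :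
    CrEmbedding (𝓡 1) I r γ := by
  refine ⟨hγ, {q | Θ q ≠ 0}, fun q => Circle.exp (Complex.arg (Θ q)), ?_, ?_, ?_, ?_⟩
  · exact isOpen_ne_fun hΘ.continuous continuous_const
  · intro z
    show Θ (γ z) ≠ 0
    rw [h]
    exact Circle.coe_ne_zero z
  · intro q₀ hq₀
    have h0 : Θ q₀ ≠ 0 := hq₀
    have hev : (fun q => Circle.exp (Complex.arg (Θ q))) =ᶠ[𝓝 q₀] fun q =>
        Circle.exp (Complex.arg (Θ q₀) + Complex.arg (Θ q / Θ q₀)) := by
      filter_upwards [(isOpen_ne_fun hΘ.continuous continuous_const).mem_nhds h0] with q hq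
      exact Or5_exp_arg h0 hq
    refine ContMDiffAt.congr_of_eventuallyEq ?_ hev
    have h1 : ContDiffAt ℝ r (fun c : ℂ => Complex.arg (Θ q₀) + Complex.arg (c / Θ q₀))
        (Θ q₀) := by
      have h2 : ContDiffAt ℝ r (fun c : ℂ => (Complex.log (c / Θ q₀)).im) (Θ q₀) := by
        have h3 : ContDiffAt ℝ r (fun c : ℂ => c / Θ q₀) (Θ q₀) :=
          contDiffAt_id.div_const _
        have h4 : ContDiffAt ℝ r Complex.log (Θ q₀ / Θ q₀) := by
          rw [div_self h0]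
          exact (Complex.contDiffAt_log (by simp)).restrict_scalars ℝ
        have h5 : ContDiffAt ℝ r (fun c : ℂ => Complex.log (c / Θ q₀)) (Θ q₀) :=
          ContDiffAt.comp (g := Complex.log) (f := fun c : ℂ => c / Θ q₀) (Θ q₀) h4 h3
        exact Complex.imCLM.contDiff.contDiffAt.comp _ h5
      exact contDiffAt_const.add (h2.congr_of_eventuallyEq (Filter.Eventually.of_forall fun c => by
        simp [Complex.log_im]))
    have h2 : ContMDiffAt I 𝓘(ℝ, ℝ) r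
        (fun q => Complex.arg (Θ q₀) + Complex.arg (Θ q / Θ q₀)) q₀ :=
      ContDiffAt.comp_contMDiffAt (g := fun c : ℂ => Complex.arg (Θ q₀) + Complex.arg (c / Θ q₀))
        (f := Θ) h1 (hΘ q₀)
    exact ContMDiffAt.comp (g := fun t : ℝ => Circle.exp t) q₀
      (contMDiff_circleExp (m := r)).contMDiffAt h2
  · intro z
    show Circle.exp (Complex.arg (Θ (γ z))) = z
    rw [h, Circle.exp_arg]

/-- PROOF.  `O' = {q | q.2 ∈ O}`, `ρ' q = (q.1, ρ q.2)`. -/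
theorem CrEmbedding.prodMap {r : ℕ∞} {γ : S → W} (h : CrEmbedding I₁ I r γ) :
    CrEmbedding (J.prod I₁) (J.prod I) r (fun z : M × S => (z.1, γ z.2)) := by
  obtain ⟨hγ, O, ρ, hO, hγO, hρ, hργ⟩ := h
  refine ⟨contMDiff_fst.prodMk (hγ.comp contMDiff_snd), {q | q.2 ∈ O}, fun q => (q.1, ρ q.2),
    hO.preimage continuous_snd, fun z => hγO z.2, ?_, fun z => by simp [hργ]⟩
  intro q hq
  exact contMDiffAt_fst.prodMk (ContMDiffAt.comp q (hρ q.2 hq) contMDiffAt_snd)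

/-- PROOF.  `O = univ`, `ρ = id`. -/
theorem crEmbedding_id {r : ℕ∞} : CrEmbedding I I r (fun q : W => q) :=
  ⟨contMDiff_id, Set.univ, fun q => q, isOpen_univ, fun _ => Set.mem_univ _,
    fun _ _ => contMDiffAt_id, fun _ => rfl⟩

end Pool.Agent.SC
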