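import Pool.Agent.Lib.MP_1e8d1a_an.SB.Defs

/-! row sb-Sub1 -/

open scoped ContDiff Manifold Topology

namespace Pool.Agent.SC

variable {E : Type} [NormedAddCommGroup E] [NormedSpace ℝ E] {H : Type} [TopologicalSpace H]
  {I : ModelWithCorners ℝ E H} {W : Type} [TopologicalSpace W] [ChartedSpace H W]
  {E₁ : Type} [NormedAddCommGroup E₁] [NormedSpace ℝ E₁] {H₁ : Type} [TopologicalSpace H₁]
  {I₁ : ModelWithCorners ℝ E₁ H₁} {S : Type} [TopologicalSpace S] [ChartedSpace H₁ S]

/-- A neighbourhood of the image of `γ` which misses the images of `F^i ∘ γ`, `0 < i < m`.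
PROOF.  These images are compact (`S` compact, `γ` and `F^i` continuous), hence closed; their union
is closed and disjoint from the image of `γ`. -/
theorem exists_open_of_periodic [T2Space W] [CompactSpace S] {F : W → W} (hF : Continuous F)
    {m : ℕ} {γ : S → W} (hγ : Continuous γ)
    (h : ∀ i, 0 < i → i < m → ∀ z z', F^[i] (γ z) ≠ γ z') :
    ∃ O : Set W, IsOpen O ∧ (∀ z, γ z ∈ O) ∧ ∀ i, 0 < i → i < m → ∀ z, F^[i] (γ z) ∉ O := by
  refine ⟨(⋃ i ∈ Finset.Ioo 0 m, Set.range fun z => F^[i] (γ z))ᶜ, ?_, ?_, ?_⟩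
  · refine IsClosed.isOpen_compl (self := ?_)
    refine Set.Finite.isClosed_biUnion (Finset.finite_toSet _) fun i _ => ?_
    exact (isCompact_range ((hF.iterate i).comp hγ)).isClosed
  · intro z hz
    simp only [Set.mem_iUnion, Finset.mem_Ioo, Set.mem_range] at hz
    obtain ⟨i, ⟨hi, him⟩, z', hz'⟩ := hz
    exact h i hi him z' z hz'
  · intro i hi him z hz
    refine hz ?_
    simp only [Set.mem_iUnion, Finset.mem_Ioo, Set.mem_range]
    exact ⟨i, ⟨hi, him⟩, z, rfl⟩

/-- The perturbed map on the periodic submanifold.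
PROOF.  `G (γ z) = F (γ (μ z))` and `G = F` outside `O`.  By induction on `i`:
`G^[i] (γ z) = F^[i] (γ (μ z))` for `0 < i ≤ m` (step: `F^[i] (γ (μ z)) ∉ O` for `0 < i < m`). -/
theorem periodicOn_perturb {F G : W → W} {m : ℕ} {γ : S → W} {F₁ G₁ : S → S} {O : Set W}
    (h : PeriodicOn F m γ F₁) (hO : ∀ i, 0 < i → i < m → ∀ z, F^[i] (γ z) ∉ O)
    (hG : ∀ q ∉ O, G q = F q) (μ : S → S) (hμ : ∀ z, G (γ z) = F (γ (μ z)))
    (hG₁ : ∀ z, G₁ z = F₁ (μ z)) : PeriodicOn G m γ G₁ := by
  obtain ⟨hm, hF, hd⟩ := h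
  have key : ∀ i, 0 < i → i ≤ m → ∀ z, G^[i] (γ z) = F^[i] (γ (μ z)) := by
    intro i
    induction i with
    | zero => intro h0; exact absurd h0 (lt_irrefl 0)
    | succ i ih =>
      intro _ him z
      rcases Nat.eq_zero_or_pos i with h0 | h0
      · subst h0
        simpa using hμ z
      · rw [Function.iterate_succ_apply', Function.iterate_succ_apply',
          ih h0 (by omega) z]
        exact hG _ (hO i h0 (by omega) _)
  refine ⟨hm, fun z => ?_, fun i hi him z z' => ?_⟩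
  · rw [key m hm le_rfl z, hF, hG₁]
  · rw [key i hi him.le z]
    exact hd i hi him _ _

end Pool.Agent.SC
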