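import Pool.Agent.Lib.MP_1e8d1a_an.SB.Fc
import Pool.Agent.Lib.MP_1e8d1a_an.SB.Co3c
import Pool.Agent.Lib.MP_1e8d1a_an.SB.Ds3b
import Pool.Agent.Lib.MP_1e8d1a_an.SB.Sub1

/-! row sb-Sub2 -/

open scoped ContDiff Manifold Topology

namespace Pool.Agent.SC

variable {E : Type} [NormedAddCommGroup E] [NormedSpace ℝ E] {H : Type} [TopologicalSpace H]
  {I : ModelWithCorners ℝ E H} {W : Type} [TopologicalSpace W] [ChartedSpace H W]
  {E₁ : Type} [NormedAddCommGroup E₁] [NormedSpace ℝ E₁] {H₁ : Type} [TopologicalSpace H₁]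
  {I₁ : ModelWithCorners ℝ E₁ H₁} {S : Type} [TopologicalSpace S] [ChartedSpace H₁ S]

/-- **Closability passes from periodic submanifolds to the manifold.**
PROOF.  Induction on `h`.  `base`: `F^[m * n] (γ z) = γ (F₁^[n] z) = γ z`.  `lim`: `F₁ = Ψ (0, ·)`,
`Ψ (v n, ·) = G₁ n`.  `O` from `exists_open_of_periodic`; `exists_extension` for
`T (v, z) = F (γ (F₁.symm (Ψ (v, z))))` gives `Φ`; `ds_diffeo` gives for all small `v` a
diffeomorphism `D` with `D = Φ (v, ·)` if `Φ (v, ·)` is `C^r`.  Let `n` be large, `v = v n`: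
`Ψ (v, ·) = G₁ n` is `C^r`, hence `T (v, ·)`, hence `Φ (v, ·)` (`ExtFam.ev`), `D n`, with
`D n (γ z) = F (γ (F₁.symm (G₁ n z)))`; `periodicOn_perturb` with `μ z = F₁.symm (G₁ n z)` gives
`PeriodicOn (D n) m γ (G₁ n)`, so `FC I (γ z) (D n)` by induction.  Use `FC.lim` (or `fc_of_limit`)
for the sequence `v (n + N)`. -/
theorem fc_of_periodicOn [FiniteDimensional ℝ E] [T2Space W] [CompactSpace W] [IsManifold I ∞ W]
    [I.Boundaryless] [CompactSpace S] {r : ℕ∞} (hr : 1 ≤ r) (γ : S → W)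
    (hγ : CrEmbedding I₁ I r γ) (m : ℕ) {z : S} {F₁ : S ≃ₘ^r⟮I₁, I₁⟯ S} (h : FC I₁ z F₁)
    (F : W ≃ₘ^r⟮I, I⟯ W) (hF : PeriodicOn (F : W → W) m γ (F₁ : S → S)) : FC I (γ z) F := by
  induction h generalizing F with
  | base F₁ n hn h =>
    refine FC.base F (m * n) (Nat.mul_pos hF.1 hn) ?_
    have hs : Function.Semiconj γ (F₁ : S → S) ((F : W → W)^[m]) := fun x => (hF.2.1 x).symm
    have h2 := (hs.iterate_right n) z
    rw [h] at h2
    rw [Function.iterate_mul]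
    exact h2.symm
  | lim F₁ P Ψ hΨ hF₁ v hv G₁ hG₁ h ih =>
    obtain ⟨O, hO, hγO, hOi⟩ := exists_open_of_periodic F.continuous hγ.1.continuous hF.2.2
    have hC : ContMDiff I₁ I r (fun z : S => F (γ (F₁.symm z))) :=
      F.contMDiff.comp (hγ.1.comp F₁.symm.contMDiff)
    have hT : ∀ z, ContMDiffAt (𝓘(ℝ, P).prod I₁) I r
        (fun x : P × S => F (γ (F₁.symm (Ψ x)))) (0, z) := fun z =>
      ContMDiffAt.comp (g := fun z : S => F (γ (F₁.symm z))) (0, z) hC.contMDiffAt (hΨ z)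
    have hT0 : ∀ z, (fun x : P × S => F (γ (F₁.symm (Ψ x)))) (0, z) = F (γ z) := by
      intro z
      show F (γ (F₁.symm (Ψ (0, z)))) = F (γ z)
      rw [← hF₁, F₁.symm_apply_apply]
    obtain ⟨Φ, hΦ, hΦe⟩ := exists_extension γ hγ F O hO hγO _ hT hT0
    have hd := ds_diffeo hr Φ hΦ.sm F hΦ.zero
    obtain ⟨N, hN⟩ := Filter.eventually_atTop.1 (hv.eventually (hΦe.and (hd.and hΦ.ev)))
    have hD : ∀ n : ℕ, ∃ D : W ≃ₘ^r⟮I, I⟯ W, ∀ q, D q = Φ (v (n + N), q) := by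
      intro n
      obtain ⟨-, hB, hC'⟩ := hN (n + N) (Nat.le_add_left _ _)
      refine hB (hC' ?_)
      have h3 : ContMDiff I₁ I r (fun z : S => F (γ (F₁.symm (G₁ (n + N) z)))) :=
        hC.comp (G₁ (n + N)).contMDiff
      refine h3.congr fun z => ?_
      show F (γ (F₁.symm (Ψ (v (n + N), z)))) = F (γ (F₁.symm (G₁ (n + N) z)))
      rw [hG₁]
    choose D hD using hD
    refine FC.lim F P Φ hΦ.sm (fun q => (hΦ.zero q).symm) (fun n => v (n + N))
      (hv.comp (Filter.tendsto_add_atTop_nat N)) D hD fun n => ih (n + N) (D n) ?_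
    refine periodicOn_perturb (G := (D n : W → W)) (G₁ := (G₁ (n + N) : S → S)) hF hOi ?_
      (fun z => F₁.symm (G₁ (n + N) z)) ?_ ?_
    · intro q hq
      rw [hD, hΦ.out _ q hq]
    · intro z
      rw [hD, (hN (n + N) (Nat.le_add_left _ _)).1 z]
      show F (γ (F₁.symm (Ψ (v (n + N), z)))) = F (γ (F₁.symm (G₁ (n + N) z)))
      rw [hG₁]
    · intro z
      rw [F₁.apply_symm_apply]

end Pool.Agent.SC
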