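import Pool.Agent.Lib.MP_1e8d1a_an.SB.Stmt
import Pool.Agent.Lib.MP_1e8d1a_an.SB.Sub2
import Pool.Agent.Lib.MP_1e8d1a_an.SB.FcRot
import Pool.Agent.Lib.MP_1e8d1a_an.SB.FcFree
import Pool.Agent.Lib.MP_1e8d1a_an.SB.Or1
import Pool.Agent.Lib.MP_1e8d1a_an.SB.Or3
import Pool.Agent.Lib.MP_1e8d1a_an.SB.Or4
import Pool.Agent.Lib.MP_1e8d1a_an.SB.Or5
import Pool.Agent.Lib.MP_1e8d1a_an.LC.F1
import Pool.Agent.Lib.MP_1e8d1a_an.HM.Main
import Pool.Agent.Lib.MP_1e8d1a_an.HM.Pairs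

/-! Product points can be closed. -/

open scoped ContDiff Manifold Topology

namespace Pool.Agent.SC

/-- the closed orbit of a flow is an embedded circle -/
theorem orb_embedding {E : Type} [NormedAddCommGroup E] [NormedSpace ℝ E] {H : Type}
    [TopologicalSpace H] {I : ModelWithCorners ℝ E H} {W : Type} [TopologicalSpace W]
    [ChartedSpace H W] [FiniteDimensional ℝ E] [T2Space W] [CompactSpace W] [IsManifold I ∞ W]
    [I.Boundaryless] {r : ℕ∞} (hr : 1 ≤ r) {ψ : ℝ → W → W} (hψ : IsFlow I r ψ) {w : W} {T₀ : ℝ}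
    (hT₀ : 0 < T₀) (h : ∀ u v, ψ u w = ψ v w ↔ ∃ k : ℤ, u - v = k * T₀) :
    CrEmbedding (𝓡 1) I r (orb ψ w T₀) := by
  have h1 := orb_smooth hψ hT₀ h
  obtain ⟨Θ, hΘ, hΘ2⟩ := exists_left_inverse (r := r) (I := I) (orb ψ w T₀) h1.continuous
    (orb_injective hT₀ h) (orb_local_inverse hr hψ hT₀ h)
  exact crEmbedding_of_left_inverse h1 hΘ hΘ2

section

variable {E : Type} [NormedAddCommGroup E] [NormedSpace ℝ E]
  {H : Type} [TopologicalSpace H] {I : ModelWithCorners ℝ E H}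
  {M : Type} [TopologicalSpace M] [ChartedSpace H M]

theorem exists_iter_diffeo {r : ℕ∞} (f : M ≃ₘ^r⟮I, I⟯ M) (m : ℕ) :
    ∃ D : M ≃ₘ^r⟮I, I⟯ M, ∀ q, D q = (f : M → M)^[m] q := by
  induction m with
  | zero => exact ⟨Diffeomorph.refl I M r, fun q => rfl⟩
  | succ m ih =>
    obtain ⟨D, hD⟩ := ih
    refine ⟨f.trans D, fun q => ?_⟩
    rw [Function.iterate_succ_apply]
    exact hD (f q)

end

variable {E : Type} [NormedAddCommGroup E] [NormedSpace ℝ E] [FiniteDimensional ℝ E]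
  {H : Type} [TopologicalSpace H] {I : ModelWithCorners ℝ E H} [I.Boundaryless]
  {M : Type} [TopologicalSpace M] [T2Space M] [CompactSpace M] [ChartedSpace H M]
  [IsManifold I ∞ M]
  {E' : Type} [NormedAddCommGroup E'] [NormedSpace ℝ E'] [FiniteDimensional ℝ E']
  {H' : Type} [TopologicalSpace H'] {J : ModelWithCorners ℝ E' H'} [J.Boundaryless]
  {N : Type} [TopologicalSpace N] [T2Space N] [CompactSpace N] [ChartedSpace H' N]
  [IsManifold J ∞ N]

/-- periodic circles of the second factor -/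
theorem fc_circle {r : ℕ∞} (hr : 1 ≤ r) (f : M ≃ₘ^r⟮I, I⟯ M) (x : M) (g : N ≃ₘ^r⟮J, J⟯ N)
    (γ : Circle → N) (z : Circle) (q : ℕ) (α : ℝ) (hγ : CrEmbedding (𝓡 1) J r γ)
    (hx : NonwanderingPt (f : M → M)^[q] x)
    (hg : PeriodicOn (g : N → N) q γ fun z => Circle.exp α * z)
    (F : (M × N) ≃ₘ^r⟮I.prod J, I.prod J⟯ (M × N)) (hF : ∀ p, F p = (f p.1, g p.2)) :
    FC (I.prod J) (x, γ z) F := by
  obtain ⟨D, hD⟩ := exists_iter_diffeo f q
  have hDf : (⇑D : M → M) = (f : M → M)^[q] := funext hD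
  -- the rotation
  have hR : ∀ c : ℝ, ContMDiff (I.prod (𝓡 1)) (I.prod (𝓡 1)) r
      (fun z : M × Circle => (z.1, Circle.exp c * z.2)) := fun c =>
    contMDiff_fst.prodMk (contMDiff_const.mul contMDiff_snd)
  let R : (M × Circle) ≃ₘ^r⟮I.prod (𝓡 1), I.prod (𝓡 1)⟯ (M × Circle) :=
    { toFun := fun z => (z.1, Circle.exp α * z.2)
      invFun := fun z => (z.1, Circle.exp (-α) * z.2)
      left_inv := fun z => by
        simp only [← mul_assoc, ← Circle.exp_add]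
        simp
      right_inv := fun z => by
        simp only [← mul_assoc, ← Circle.exp_add]
        simp
      contMDiff_toFun := hR α
      contMDiff_invFun := hR (-α) }
  let F₁ : (M × Circle) ≃ₘ^r⟮I.prod (𝓡 1), I.prod (𝓡 1)⟯ (M × Circle) :=
    R.trans (D.prodCongr (Diffeomorph.refl (𝓡 1) Circle r))
  have hF₁ : ∀ y c, F₁ (y, c) = (D y, Circle.exp α * c) := fun y c => rfl
  have h1 : FC (I.prod (𝓡 1)) (x, z) F₁ := by
    refine fc_rot D x ?_ z α F₁ hF₁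
    rw [hDf]
    exact hx
  refine fc_of_periodicOn hr (fun c : M × Circle => (c.1, γ c.2)) (CrEmbedding.prodMap hγ) q h1 F ?_
  have hit : ∀ (n : ℕ) (a : M) (b : N), (F : M × N → M × N)^[n] (a, b) =
      ((f : M → M)^[n] a, (g : N → N)^[n] b) := by
    intro n
    induction n with
    | zero => intro a b; rfl
    | succ n ih =>
      intro a b
      rw [Function.iterate_succ_apply, Function.iterate_succ_apply, Function.iterate_succ_apply,
        hF, ih]
  refine ⟨hg.1, ?_, ?_⟩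
  · rintro ⟨a, c⟩
    rw [hit, hF₁, hg.2.1, hD]
  · rintro i hi0 hi ⟨a, c⟩ ⟨a', c'⟩ h
    rw [hit] at h
    exact hg.2.2 i hi0 hi c c' (congrArg Prod.snd h)

/-- the closed orbits of flows -/
theorem fc_orbit {r : ℕ∞} (hr : 1 ≤ r) (f : M ≃ₘ^r⟮I, I⟯ M) (x : M) (g : N ≃ₘ^r⟮J, J⟯ N)
    (w : N) (ψ : ℝ → N → N) (T t : ℝ) (hψ : IsFlow J r ψ) (hT : T ≠ 0) (hw : ψ T w = w)
    (hw' : ∃ u, ψ u w ≠ w) (hx : NonwanderingPt (f : M → M) x)
    (hg : ∀ u, g (ψ u w) = ψ (u + t) w)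
    (F : (M × N) ≃ₘ^r⟮I.prod J, I.prod J⟯ (M × N)) (hF : ∀ p, F p = (f p.1, g p.2)) :
    FC (I.prod J) (x, w) F := by
  obtain ⟨T₀, hT₀, h⟩ := orbit_period hψ w T hT hw hw'
  have h1 : orb ψ w T₀ 1 = w := by
    have h2 := orb_exp hT₀ h 0
    rw [zero_div, mul_zero, Circle.exp_zero, hψ.1] at h2
    exact h2
  have h2 := fc_circle hr f x g (orb ψ w T₀) 1 1 (2 * Real.pi * (t / T₀))
    (orb_embedding hr hψ hT₀ h) hx ?_ F hF
  · rwa [h1] at h2
  · refine ⟨one_pos, fun z => ?_, fun i hi hi' => by omega⟩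
    obtain ⟨u, rfl⟩ : ∃ u : ℝ, z = Circle.exp (2 * Real.pi * (u / T₀)) := by
      refine ⟨T₀ * (Complex.arg (z : ℂ) / (2 * Real.pi)), ?_⟩
      have h3 : 2 * Real.pi * (T₀ * (Complex.arg (z : ℂ) / (2 * Real.pi)) / T₀) =
          Complex.arg (z : ℂ) := by
        have := Real.pi_ne_zero
        field_simp
      rw [h3, Circle.exp_arg]
    show g (orb ψ w T₀ (Circle.exp (2 * Real.pi * (u / T₀)))) =
      orb ψ w T₀ (Circle.exp (2 * Real.pi * (t / T₀)) * Circle.exp (2 * Real.pi * (u / T₀)))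
    rw [← Circle.exp_add, orb_exp hT₀ h, hg]
    have h3 : 2 * Real.pi * (t / T₀) + 2 * Real.pi * (u / T₀) = 2 * Real.pi * ((u + t) / T₀) := by
      ring
    rw [h3, orb_exp hT₀ h]

/-- **Product points can be closed.** -/
theorem closable_productPoint {E : Type} [NormedAddCommGroup E] [NormedSpace ℝ E] {H : Type}
    [TopologicalSpace H] {I : ModelWithCorners ℝ E H} {W : Type} [TopologicalSpace W]
    [ChartedSpace H W] [FiniteDimensional ℝ E] [T2Space W] [CompactSpace W] [IsManifold I ∞ W]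
    [I.Boundaryless] {r : ℕ∞} (hr : 1 ≤ r) (F : W ≃ₘ^r⟮I, I⟯ W) (p : W)
    (h : ProductPoint I r (F : W → W) p) : Closable I F p := by
  obtain ⟨E₁, H₁, I₁, M, E', H', J, N, f, g, x, w, hw, m, γ, hγ, hF⟩ := h
  obtain ⟨F₁, hF₁⟩ := exists_prod_diffeo f g
  have hF₁' : (⇑F₁ : M × N → M × N) = fun z => (f z.1, g z.2) := funext hF₁
  have hF' : PeriodicOn (F : W → W) m γ (F₁ : M × N → M × N) := by
    rw [hF₁']
    exact hF
  have key : ∀ z, FC (I₁.prod J) z F₁ → Closable I F (γ z) := fun z hz =>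
    (fc_of_periodicOn hr γ hγ m hz F hF').closable
  cases hw with
  | periodic _ q hN hq hx hg =>
    refine closable_of_near F _ fun V hV => ?_
    have hγc : ContinuousAt γ (x, w) := hγ.1.continuous.continuousAt
    obtain ⟨A, hA, O, hO, hAO⟩ := mem_nhds_prod_iff.1 (hγc hV)
    obtain ⟨w', hw', d, hd, V', hV'⟩ := exists_free_near g.continuous w q hq hg O hO
    refine ⟨γ (x, w'), hAO ⟨mem_of_mem_nhds hA, hw'⟩, key _ ?_⟩
    exact fc_free hN f x g w' d V' hV' (nonwandering_of_dvd hd hq hx) F₁ hF₁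
  | homoclinic _ q hq hx hg =>
    refine key _ (fc_of_isolated F₁ _ ?_)
    have h1 : ⇑F₁ = Prod.map ⇑f ⇑g := by
      rw [hF₁']
      rfl
    rw [h1]
    exact HM.isolatedReturns_of_cycles f.continuous hq (HM.cyclesAt_homoclinic hr g hq hg) hx
  | circle γ₀ z q α hγ₀ hx hg =>
    exact key _ (fc_circle hr f x g γ₀ z q α hγ₀ hx hg F₁ hF₁)
  | orbit _ ψ T t hψ hT hw hw' hx hg =>
    exact key _ (fc_orbit hr f x g w ψ T t hψ hT hw hw' hx hg F₁ hF₁)

/-- limits of product points -/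
theorem closable_productPoints {E : Type} [NormedAddCommGroup E] [NormedSpace ℝ E] {H : Type}
    [TopologicalSpace H] {I : ModelWithCorners ℝ E H} {W : Type} [TopologicalSpace W]
    [ChartedSpace H W] [FiniteDimensional ℝ E] [T2Space W] [CompactSpace W] [IsManifold I ∞ W]
    [I.Boundaryless] {r : ℕ∞} (hr : 1 ≤ r) (F : W ≃ₘ^r⟮I, I⟯ W) (p : W)
    (h : ∀ U ∈ @nhds _ (crTopology I r) F, ∀ V ∈ 𝓝 p, ∃ G ∈ U, ∃ q ∈ V,
      ProductPoint I r (G : W → W) q) : Closable I F p := by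
  refine closable_of_pairs F p fun U hU V hV => ?_
  obtain ⟨G, hG, q, hq, h1⟩ := h U hU V hV
  exact ⟨G, hG, q, hq, closable_productPoint hr G q h1⟩

end Pool.Agent.SC
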