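import Mathlib

/-! The closed orbit as a map of the circle. -/

namespace Pool.Agent.SC

/-- the closed orbit of `w`, of period `T₀`, as a map of the circle: `orb (exp (2πiu/T₀)) = ψ_u w` -/
noncomputable def orb {W : Type} (ψ : ℝ → W → W) (w : W) (T₀ : ℝ) (z : Circle) : W :=
  ψ (T₀ * (Complex.arg (z : ℂ) / (2 * Real.pi))) w

end Pool.Agent.SC
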