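import Pool.Agent.Lib.MP_1e8d1a_an.SC.Defs3
import Pool.Agent.Lib.MP_1e8d1a_an.SC.ClkA
import Pool.Agent.Lib.MP_1e8d1a_an.SB.OrD

/-! row sb-Or2 -/

open scoped ContDiff Manifold Topology

namespace Pool.Agent.SC

variable {E : Type} [NormedAddCommGroup E] [NormedSpace ℝ E] {H : Type} [TopologicalSpace H]
  {I : ModelWithCorners ℝ E H} {W : Type} [TopologicalSpace W] [ChartedSpace H W]

/-- `orb z = ψ (T₀ * (a / (2π))) w` for every `a` with `exp (i a) = z` -/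
theorem Or2_eq {W : Type} {ψ : ℝ → W → W} {w : W} {T₀ : ℝ}
    (h : ∀ u v, ψ u w = ψ v w ↔ ∃ k : ℤ, u - v = k * T₀) (a : ℝ) :
    orb ψ w T₀ (Circle.exp a) = ψ (T₀ * (a / (2 * Real.pi))) w := by
  have h1 : Circle.exp (Complex.arg (Circle.exp a : ℂ)) = Circle.exp a := Circle.exp_arg _
  obtain ⟨m, hm⟩ := Circle.exp_eq_exp.1 h1
  have hpi : (2 * Real.pi) ≠ 0 := by positivity
  rw [orb, h]
  refine ⟨m, ?_⟩
  rw [hm]
  field_simp
  ring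

/-- PROOF.  `Complex.arg (exp (i a)) = a + 2 π k` for an integer `k` (`Circle.arg_exp`,
`Circle.exp_eq_exp`, `Circle.exp_arg`); use `h`. -/
theorem orb_exp {ψ : ℝ → W → W} {w : W} {T₀ : ℝ} (hT₀ : 0 < T₀)
    (h : ∀ u v, ψ u w = ψ v w ↔ ∃ k : ℤ, u - v = k * T₀) (u : ℝ) :
    orb ψ w T₀ (Circle.exp (2 * Real.pi * (u / T₀))) = ψ u w := by
  rw [Or2_eq h]
  congr 1
  have hpi : (2 * Real.pi) ≠ 0 := by positivity
  field_simp

/-- PROOF.  Every `z` is `Circle.exp (2 π (u / T₀))` (`u = T₀ * arg z / (2 π)`); `h` and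
`Circle.exp_eq_exp`. -/
theorem orb_injective {ψ : ℝ → W → W} {w : W} {T₀ : ℝ} (hT₀ : 0 < T₀)
    (h : ∀ u v, ψ u w = ψ v w ↔ ∃ k : ℤ, u - v = k * T₀) :
    Function.Injective (orb ψ w T₀) := by
  intro z z' hz
  rw [orb, orb, h] at hz
  obtain ⟨k, hk⟩ := hz
  have hpi : (2 * Real.pi) ≠ 0 := by positivity
  rw [← Circle.exp_arg z, ← Circle.exp_arg z', Circle.exp_eq_exp]
  refine ⟨k, ?_⟩
  have h1 : T₀ * (Complex.arg (z : ℂ) - (Complex.arg (z' : ℂ) + k * (2 * Real.pi))) = 0 := by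
    field_simp at hk
    linear_combination T₀ * hk
  have h2 := (mul_eq_zero.1 h1).resolve_left hT₀.ne'
  linarith

/-- PROOF.  Near `z₀` (`z₀⁻¹ z` in the slit plane) one has
`orb z = ψ (T₀ (arg z₀ + arg (z₀⁻¹ z)) / (2 π)) w` (`orb_exp`, `exp (arg z₀ + arg (z₀⁻¹ z)) = z`),
and `z ↦ arg (z₀⁻¹ z) = im (log (z₀⁻¹ z))` is smooth near `z₀` (`Complex.contDiffAt_log` over `ℝ`:
`.restrict_scalars`; `clkA_coe` for the smoothness of `Circle → ℂ`; multiplication of `Circle` is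
smooth). -/
theorem orb_smooth {r : ℕ∞} {ψ : ℝ → W → W} (hψ : IsFlow I r ψ) {w : W} {T₀ : ℝ} (hT₀ : 0 < T₀)
    (h : ∀ u v, ψ u w = ψ v w ↔ ∃ k : ℤ, u - v = k * T₀) :
    ContMDiff (𝓡 1) I r (orb ψ w T₀) := by
  intro z₀
  have h1 : orb ψ w T₀ = fun z : Circle =>
      ψ (T₀ * ((Complex.arg (z₀ : ℂ) + (Complex.log (((z₀⁻¹ : Circle) : ℂ) * (z : ℂ))).im)
        / (2 * Real.pi))) w := by
    funext z
    have h2 : z = Circle.exp (Complex.arg (z₀ : ℂ) + Complex.arg ((z₀⁻¹ * z : Circle) : ℂ)) := by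
      rw [Circle.exp_add, Circle.exp_arg, Circle.exp_arg, mul_inv_cancel_left]
    conv_lhs => rw [h2]
    rw [Or2_eq h, Complex.log_im, Circle.coe_mul]
  rw [h1]
  have hlog : ContDiffAt ℝ r (fun c : ℂ => (Complex.log (((z₀⁻¹ : Circle) : ℂ) * c)).im) (z₀ : ℂ) := by
    have h3 : ((z₀⁻¹ : Circle) : ℂ) * (z₀ : ℂ) = 1 := by
      rw [← Circle.coe_mul, inv_mul_cancel, Circle.coe_one]
    have h4 : ContDiffAt ℝ r Complex.log (((z₀⁻¹ : Circle) : ℂ) * (z₀ : ℂ)) := by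
      rw [h3]
      exact (Complex.contDiffAt_log (n := r) (by simp [Complex.slitPlane])).restrict_scalars ℝ
    have h5 : ContDiffAt ℝ r (fun c : ℂ => ((z₀⁻¹ : Circle) : ℂ) * c) (z₀ : ℂ) :=
      contDiffAt_const.mul contDiffAt_id
    exact Complex.imCLM.contDiff.contDiffAt.comp _ (h4.comp _ h5)
  have hc : ContMDiffAt (𝓡 1) 𝓘(ℝ, ℂ) r (fun z : Circle => (z : ℂ)) z₀ := clkA_coe z₀
  have h6 : ContMDiffAt (𝓡 1) 𝓘(ℝ, ℝ) r (fun z : Circle =>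
      (Complex.log (((z₀⁻¹ : Circle) : ℂ) * (z : ℂ))).im) z₀ :=
    ContDiffAt.comp_contMDiffAt (f := fun z : Circle => (z : ℂ)) (x := z₀) hlog hc
  have h7 : ContDiff ℝ r (fun t : ℝ => T₀ * ((Complex.arg (z₀ : ℂ) + t) / (2 * Real.pi))) := by
    fun_prop
  have h8 : ContMDiffAt (𝓡 1) 𝓘(ℝ, ℝ) r (fun z : Circle =>
      T₀ * ((Complex.arg (z₀ : ℂ) + (Complex.log (((z₀⁻¹ : Circle) : ℂ) * (z : ℂ))).im)
        / (2 * Real.pi))) z₀ :=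
    ContDiffAt.comp_contMDiffAt (g := fun t : ℝ => T₀ * ((Complex.arg (z₀ : ℂ) + t) / (2 * Real.pi)))
      (f := fun z : Circle => (Complex.log (((z₀⁻¹ : Circle) : ℂ) * (z : ℂ))).im) (x := z₀)
      h7.contDiffAt h6
  have h9 : ContMDiffAt (𝓡 1) (𝓘(ℝ, ℝ).prod I) r (fun z : Circle =>
      ((T₀ * ((Complex.arg (z₀ : ℂ) + (Complex.log (((z₀⁻¹ : Circle) : ℂ) * (z : ℂ))).im)
        / (2 * Real.pi)), w) : ℝ × W)) z₀ := h8.prodMk contMDiffAt_const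
  exact (hψ.2.2 _).comp z₀ h9

end Pool.Agent.SC
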