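import Pool.Agent.Lib.MP_1e8d1a_an.SB.Defs
import Pool.Agent.Lib.MP_1e8d1a_an.SC.Defs3
import Pool.Agent.Lib.MP_1e8d1a_an.HM.Defs

/-! The definitions used in the statement of the final theorem. -/

open scoped ContDiff Manifold Topology

namespace Pool.Agent.SC

/-- **Clock pairs.**  `f`, `x` and `g`, `w` form a clock pair if one of the following holds.
`periodic`: `dim N ≥ 2`, `g^q = id` near `w`, `q > 0`, `x` is nonwandering for `f^q`.
`homoclinic`: `w` is a homoclinic point (tangential allowed) of a hyperbolic fixed point of `g^q`, `q > 0`,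
`x` is nonwandering for `f^q`.
`circle`: `w = γ z` for a `C^r` embedding `γ` of the circle in `N`, the image of `γ` is periodic of
period `q`, `g^q ∘ γ = γ ∘ R_α`, `R_α` the rotation `z ↦ exp (iα) z`, `x` is nonwandering for `f^q`.
`orbit`: `w` is on a closed orbit, not a point, of a flow `ψ` of class `C^r` of `N`, `g = ψ_t` on this
orbit, `x` is nonwandering for `f`. -/
inductive ClockPair {M : Type} [TopologicalSpace M] {E' : Type} [NormedAddCommGroup E']
    [NormedSpace ℝ E'] {H' : Type} [TopologicalSpace H'] (J : ModelWithCorners ℝ E' H') {N : Type}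
    [TopologicalSpace N] [ChartedSpace H' N] (r : ℕ∞) (f : M → M) (x : M) (g : N ≃ N) :
    N → Prop
  | periodic (w : N) (q : ℕ) (hN : 2 ≤ Module.finrank ℝ E') (hq : 0 < q)
      (hx : NonwanderingPt f^[q] x) (hg : ∀ᶠ z in 𝓝 w, (⇑g)^[q] z = z) : ClockPair J r f x g w
  | homoclinic (w : N) (q : ℕ) (hq : 0 < q) (hx : NonwanderingPt f^[q] x)
      (hg : HM.HomoclinicPt J g q w) : ClockPair J r f x g w
  | circle (γ : Circle → N) (z : Circle) (q : ℕ) (α : ℝ) (hγ : CrEmbedding (𝓡 1) J r γ)
      (hx : NonwanderingPt f^[q] x)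
      (hg : PeriodicOn (⇑g) q γ fun z => Circle.exp α * z) : ClockPair J r f x g (γ z)
  | orbit (w : N) (ψ : ℝ → N → N) (T t : ℝ) (hψ : IsFlow J r ψ) (hT : T ≠ 0) (hw : ψ T w = w)
      (hw' : ∃ u, ψ u w ≠ w) (hx : NonwanderingPt f x)
      (hg : ∀ u, g (ψ u w) = ψ (u + t) w) : ClockPair J r f x g w

/-- **Product points.**  The image of the `C^r` embedding `γ : M × N → W` of a product of compact
manifolds is periodic for `F`, of period `m`, `F^m ∘ γ = γ ∘ (f × g)`, `f`, `x` and `g`, `w` form a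
clock pair; then `γ (x, w)` is a product point of `F`. -/
inductive ProductPoint {E : Type} [NormedAddCommGroup E] [NormedSpace ℝ E] {H : Type}
    [TopologicalSpace H] (I : ModelWithCorners ℝ E H) {W : Type} [TopologicalSpace W]
    [ChartedSpace H W] (r : ℕ∞) (F : W → W) : W → Prop
  | mk (E₁ : Type) [NormedAddCommGroup E₁] [NormedSpace ℝ E₁] [FiniteDimensional ℝ E₁]
      (H₁ : Type) [TopologicalSpace H₁] (I₁ : ModelWithCorners ℝ E₁ H₁) [I₁.Boundaryless]
      (M : Type) [TopologicalSpace M] [T2Space M] [CompactSpace M] [ChartedSpace H₁ M]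
      [IsManifold I₁ ∞ M] (E' : Type) [NormedAddCommGroup E'] [NormedSpace ℝ E']
      [FiniteDimensional ℝ E'] (H' : Type) [TopologicalSpace H'] (J : ModelWithCorners ℝ E' H')
      [J.Boundaryless] (N : Type) [TopologicalSpace N] [T2Space N] [CompactSpace N]
      [ChartedSpace H' N] [IsManifold J ∞ N] (f : M ≃ₘ^r⟮I₁, I₁⟯ M) (g : N ≃ₘ^r⟮J, J⟯ N)
      (x : M) (w : N) (hw : ClockPair J r (⇑f) x g.toEquiv w) (m : ℕ) (γ : M × N → W)
      (hγ : CrEmbedding (I₁.prod J) I r γ) (hF : PeriodicOn F m γ fun z => (f z.1, g z.2)) :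
      ProductPoint I r F (γ (x, w))

end Pool.Agent.SC
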